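import Pool.Agent.T2H10.LO.Stm

/-!
A family of eigenfunctions gives abstract modes.
-/

set_option autoImplicit false
set_option maxSynthPendingDepth 3
set_option linter.unusedSectionVars false

open MeasureTheory Set Filter Topology
open scoped InnerProductSpace ENNReal ContDiff NNReal

namespace Pool.Agent.T2H10.LO

open H772R2.NS
open Pool.Agent.T2H10 (Md)
open Pool.Agent.T2H10.Md
open H772R2.NSR (Frame)

variable {Ω : Set E3}

theorem fderiv_app_ms {w : E3 → E3} (hw : ContDiff ℝ ∞ w) (v : L2V Ω) :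
    AEStronglyMeasurable (fun x => fderiv ℝ w x (v x)) (volume.restrict Ω) := by
  have h1 : Continuous (fderiv ℝ w) := hw.continuous_fderiv (by simp)
  exact isBoundedBilinearMap_apply.continuous.comp_aestronglyMeasurable
    (h1.aestronglyMeasurable.prodMk (Lp.aestronglyMeasurable v))

theorem int_fd (hΩ : IsOpen Ω) {A N : ℝ} {w : E3 → E3} (F : Field Ω A N w) (u v : L2V Ω) :
    Integrable (fun x => ⟪fderiv ℝ w x (u x), v x⟫_ℝ) (volume.restrict Ω) := by
  have h1 : MemLp (fun x => fderiv ℝ w x (u x)) 2 (volume.restrict Ω) := by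
    refine MemLp.of_le_mul (c := A * N) (Lp.memLp u) (fderiv_app_ms F.smooth u) ?_
    filter_upwards [ae_restrict_mem hΩ.measurableSet] with x hx
    refine (ContinuousLinearMap.le_opNorm _ _).trans ?_
    have := F.bd1 x hx
    gcongr
  exact (Integrable.mono' (h1.norm.integrable_mul (Lp.memLp v).norm) (h1.1.inner (Lp.memLp v).1) (Eventually.of_forall fun x => norm_inner_le_norm _ _))

theorem modes_of (ha : S_ca) (hb : S_cb) (hΩ : IsOpen Ω) (hbd : Bornology.IsBounded Ω) {A : ℝ}
    {N : Md → ℝ} {w : Md → E3 → E3} (hN : ∀ i, 1 ≤ N i) (hne : ∀ i j, i ≠ j → N i ≠ N j)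
    (F : ∀ i, Field Ω A (N i) (w i)) :
    ∃ (V : Md → L2V Ω) (J : Md → L2M Ω) (β : Md → L2V Ω →L[ℝ] L2V Ω →L[ℝ] ℝ),
      (∀ i, V i =ᵐ[volume.restrict Ω] w i) ∧ (∀ i, J i =ᵐ[volume.restrict Ω] jac (w i)) ∧
      Modes (graphW Ω) tensL A V J N β := by
  have h1 : ∀ i, ∃ p : L2V Ω × L2M Ω, p ∈ graphW Ω ∧ p.1 =ᵐ[volume.restrict Ω] w i ∧
      p.2 =ᵐ[volume.restrict Ω] jac (w i) := by
    intro i
    obtain ⟨p, hp, h1, h2⟩ := (F i).gr
    exact ⟨p, hp, h1, h2⟩
  choose p hp hpV hpJ using h1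
  choose β hβ hβ1 hβ2 hβ3 hβ4 using fun i => ha Ω hΩ hbd A (N i) (w i) (hN i) (F i)
  obtain ⟨hb1, hb2⟩ := hb Ω hΩ hbd
  refine ⟨fun i => (p i).1, fun i => (p i).2, β, hpV, hpJ, ?_⟩
  constructor
  · exact hp
  · exact hN
  · intro i
    have h1 : ‖(p i).1‖ ^ 2 = 1 := by
      rw [← real_inner_self_eq_norm_sq, L2.inner_def, ← (F i).nrm]
      refine integral_congr_ae ?_
      filter_upwards [hpV i] with x hx
      rw [hx, real_inner_self_eq_norm_sq]
    have h2 := norm_nonneg (p i).1
    nlinarith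
  · exact hne
  · exact fun i q hq => hb1 A (N i) (w i) (F i) _ _ (hpV i) (hpJ i) q hq
  · exact hβ1
  · exact hβ2
  · exact fun i q hq => hβ3 i _ (hpJ i) q hq
  · exact fun i j q hq => hβ4 i A (N j) (w j) (β j) _ _ (F j) (hβ j) (hpV i) (hpV j) q hq
  · intro G c q hq
    set v : E3 → E3 := fun x => ∑ i ∈ G, c i • w i x with hv
    have hvs : ContDiff ℝ ∞ v := ContDiff.sum fun i _ => (F i).smooth.const_smul (c i)
    have hmem : (∑ i ∈ G, c i • p i) ∈ graphW Ω :=
      Submodule.sum_mem _ fun i _ => Submodule.smul_mem _ _ (hp i)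
    have e1 : (∑ i ∈ G, c i • p i).1 = ∑ i ∈ G, c i • (p i).1 := by
      simp [Prod.fst_sum]
    have hvae : (∑ i ∈ G, c i • (p i).1 : L2V Ω) =ᵐ[volume.restrict Ω] v := by
      have : ∀ G : Finset Md, (∑ i ∈ G, c i • (p i).1 : L2V Ω) =ᵐ[volume.restrict Ω]
          fun x => ∑ i ∈ G, c i • w i x := by
        intro G
        induction G using Finset.induction_on with
        | empty =>
          simp only [Finset.sum_empty]
          exact Lp.coeFn_zero _ _ _
        | insert i G hi ih =>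
          rw [Finset.sum_insert hi]
          filter_upwards [Lp.coeFn_add (c i • (p i).1) (∑ j ∈ G, c j • (p j).1),
            Lp.coeFn_smul (c i) (p i).1, ih, hpV i] with x k1 k2 k3 k4
          rw [k1, Pi.add_apply, k2, k3, Pi.smul_apply, k4, Finset.sum_insert hi]
      exact this G
    have hfd : ∀ x, fderiv ℝ v x = ∑ i ∈ G, c i • fderiv ℝ (w i) x := by
      intro x
      rw [hv]
      rw [fderiv_fun_sum fun i _ => ?_]
      · refine Finset.sum_congr rfl fun i _ => ?_
        rw [fderiv_fun_const_smul ((F i).smooth.differentiable (by simp) x)]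
      · exact ((F i).smooth.differentiable (by simp) x).const_smul (c i)
    have hdiv : ∀ x ∈ Ω, ∑ i, jac v x (i, i) = 0 := by
      intro x hx
      have : ∀ k : Fin 3, jac v x (k, k) = ∑ i ∈ G, c i * jac (w i) x (k, k) := by
        intro k
        rw [jac_apply, hfd]
        simp only [FunLike.coe_sum, FunLike.coe_smul, Finset.sum_apply, Pi.smul_apply,
          WithLp.ofLp_sum, PiLp.smul_apply, smul_eq_mul, jac_apply]
      simp only [this]
      rw [Finset.sum_comm]
      refine Finset.sum_eq_zero fun i _ => ?_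
      rw [← Finset.mul_sum, (F i).div x hx, mul_zero]
    have h2 := hb2 v hvs hdiv _ hmem (by rw [e1]; exact hvae) q hq
    rw [e1] at h2
    rw [h2]
    congr 1
    have h3 : ∀ i ∈ G, c i * β i (∑ j ∈ G, c j • (p j).1) q.1
        = ∫ x in Ω, c i * ⟪fderiv ℝ (w i) x ((∑ j ∈ G, c j • (p j).1 : L2V Ω) x), q.1 x⟫_ℝ := by
      intro i _
      rw [integral_const_mul, hβ i]
    rw [Finset.sum_congr rfl h3, ← integral_finsetSum _ fun i _ =>
      ((int_fd hΩ (F i) _ _).const_mul _)]
    refine integral_congr_ae ?_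
    filter_upwards [hvae] with x hx
    rw [hx, hfd]
    simp only [FunLike.coe_sum, FunLike.coe_smul, Finset.sum_apply, Pi.smul_apply]
    rw [sum_inner]
    refine Finset.sum_congr rfl fun i _ => ?_
    rw [real_inner_smul_left]

end Pool.Agent.T2H10.LO
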