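import Pool.Agent.T2H10.LO.Fam

/-!
The choice of the parameters.
-/

set_option autoImplicit false
set_option maxSynthPendingDepth 3
set_option linter.unusedSectionVars false

open MeasureTheory Set Filter Topology
open scoped InnerProductSpace ENNReal ContDiff NNReal

namespace Pool.Agent.T2H10.LO

open Pool.Agent.T2H10 (Md)
open Pool.Agent.T2H10.Md

theorem gg_tiny [Par] (n : ℕ) : 2 ^ n * (4 * gg n * 10 ^ 7) ≤ 1 := by
  have h1 : (2 : ℝ) ≤ Real.exp 1 := by
    have := Real.add_one_le_exp (1 : ℝ)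
    linarith
  have h2 : (2 : ℝ) ^ n ≤ Real.exp n := by
    have : Real.exp (n : ℝ) = Real.exp 1 ^ n := by rw [← Real.exp_nat_mul, mul_one]
    rw [this]
    exact pow_le_pow_left₀ (by norm_num) h1 n
  have h3 : (4 * 10 ^ 7 : ℝ) ≤ Real.exp 30 := by
    have : Real.exp (30 : ℝ) = Real.exp 1 ^ 30 := by rw [← Real.exp_nat_mul]; norm_num
    rw [this]
    calc (4 * 10 ^ 7 : ℝ) ≤ 2 ^ 30 := by norm_num
      _ ≤ _ := pow_le_pow_left₀ (by norm_num) h1 30
  have h4 : (n : ℝ) + 30 ≤ Lam n := by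
    unfold Lam LL
    have h5 := one_le_NN
    have h6 : (0 : ℝ) ≤ n := Nat.cast_nonneg n
    have h7 : (1 : ℝ) * ((n : ℝ) + 1) ^ 2 ≤ NN * ((n : ℝ) + 1) ^ 2 := by gcongr
    nlinarith
  calc 2 ^ n * (4 * gg n * 10 ^ 7) = 2 ^ n * (4 * 10 ^ 7) * gg n := by ring
    _ ≤ Real.exp n * Real.exp 30 * Real.exp (-Lam n) := by
        unfold gg
        gcongr
    _ = Real.exp (n + 30 + -Lam n) := by rw [Real.exp_add, Real.exp_add]
    _ ≤ Real.exp 0 := Real.exp_le_exp.mpr (by linarith)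
    _ = 1 := Real.exp_zero

section

variable {M0 R η : ℝ} {N : Md → ℝ}

/-- the index -/
def idx : Md → ℕ
  | P n => n
  | S n => n
  | Z => 0

theorem sum_scale (hM : 1 ≤ M0) (hR : 4 ≤ R) (hη : 0 < η) (h : Scale M0 R N) (F : Finset Md) :
    ∑ i ∈ F, N i ^ (-η) ≤ M0 ^ (-η) * (1 + 2 / (1 - R ^ (-η))) := by
  have hM0 : 0 < M0 := by linarith
  have hR0 : 0 < R := by linarith
  set r : ℝ := R ^ (-η) with hr
  have hr0 : 0 < r := Real.rpow_pos_of_pos hR0 _
  have hr1 : r < 1 := Real.rpow_lt_one_of_one_lt_of_neg (by linarith) (by linarith)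
  have hgeo : ∀ m : ℕ, ∑ n ∈ Finset.range m, r ^ n ≤ 1 / (1 - r) := by
    intro m
    have h1 : (∑ n ∈ Finset.range m, r ^ n) * (1 - r) = 1 - r ^ m := by
      have := geom_sum_mul r m
      linarith
    rw [le_div_iff₀ (by linarith), h1]
    have : 0 < r ^ m := by positivity
    linarith
  have hpow : ∀ n, (M0 * R ^ n) ^ (-η) = M0 ^ (-η) * r ^ n := by
    intro n
    rw [Real.mul_rpow hM0.le (by positivity), hr, ← Real.rpow_natCast, ← Real.rpow_natCast,
      ← Real.rpow_mul hR0.le, ← Real.rpow_mul hR0.le, mul_comm (n : ℝ)]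
  have hle : ∀ {a b : ℝ}, 0 < a → a ≤ b → b ^ (-η) ≤ a ^ (-η) := fun ha hab =>
    Real.rpow_le_rpow_of_nonpos ha hab (by linarith)
  have hP : ∀ n, N (P n) ^ (-η) ≤ M0 ^ (-η) * r ^ n := fun n => by
    rw [← hpow]; exact hle (by positivity) (h.P1 n)
  have hS : ∀ n, N (S n) ^ (-η) ≤ M0 ^ (-η) * r ^ n := fun n => by
    rw [← hpow]; exact hle (by positivity) (h.S1 n)
  have hZ : N Z ^ (-η) ≤ M0 ^ (-η) := hle hM0 h.Z1
  have hpos : ∀ i, 0 ≤ N i ^ (-η) := by
    intro i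
    refine Real.rpow_nonneg ?_ _
    cases i with
    | P n => have := h.P1 n; have : 0 < M0 * R ^ n := by positivity
             linarith
    | S n => have := h.S1 n; have : 0 < M0 * R ^ n := by positivity
             linarith
    | Z => have := h.Z1; linarith
  set m := F.sup idx + 1 with hm
  have hsub : F ⊆ ((Finset.range m).image P ∪ (Finset.range m).image S) ∪ {Z} := by
    intro i hi
    have h1 : idx i ≤ F.sup idx := Finset.le_sup hi
    cases i with
    | P n =>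
      have h2 : n < m := by
        have : idx (P n) = n := rfl
        omega
      simp only [Finset.mem_union, Finset.mem_image, Finset.mem_range]
      exact Or.inl (Or.inl ⟨n, h2, rfl⟩)
    | S n =>
      have h2 : n < m := by
        have : idx (S n) = n := rfl
        omega
      simp only [Finset.mem_union, Finset.mem_image, Finset.mem_range]
      exact Or.inl (Or.inr ⟨n, h2, rfl⟩)
    | Z => simp
  have hun : ∀ X Y : Finset Md, ∑ i ∈ X ∪ Y, N i ^ (-η)
      ≤ ∑ i ∈ X, N i ^ (-η) + ∑ i ∈ Y, N i ^ (-η) := by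
    intro X Y
    rw [← Finset.sum_union_inter]
    have : 0 ≤ ∑ i ∈ X ∩ Y, N i ^ (-η) := Finset.sum_nonneg fun i _ => hpos i
    linarith
  have h1 : ∑ i ∈ (Finset.range m).image P, N i ^ (-η) ≤ M0 ^ (-η) * (1 / (1 - r)) := by
    rw [Finset.sum_image (fun a _ b _ hab => by simpa using hab)]
    refine (Finset.sum_le_sum fun n _ => hP n).trans ?_
    rw [← Finset.mul_sum]
    have := hgeo m
    gcongr
  have h2 : ∑ i ∈ (Finset.range m).image S, N i ^ (-η) ≤ M0 ^ (-η) * (1 / (1 - r)) := by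
    rw [Finset.sum_image (fun a _ b _ hab => by simpa using hab)]
    refine (Finset.sum_le_sum fun n _ => hS n).trans ?_
    rw [← Finset.mul_sum]
    have := hgeo m
    gcongr
  have h3 : ∑ i ∈ ({Z} : Finset Md), N i ^ (-η) ≤ M0 ^ (-η) := by simpa using hZ
  calc ∑ i ∈ F, N i ^ (-η)
      ≤ ∑ i ∈ ((Finset.range m).image P ∪ (Finset.range m).image S) ∪ {Z}, N i ^ (-η) :=
        Finset.sum_le_sum_of_subset_of_nonneg hsub fun i _ _ => hpos i
    _ ≤ (∑ i ∈ (Finset.range m).image P, N i ^ (-η) + ∑ i ∈ (Finset.range m).image S,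
          N i ^ (-η)) + ∑ i ∈ ({Z} : Finset Md), N i ^ (-η) :=
        (hun _ _).trans (add_le_add_left (hun _ _) _)
    _ ≤ (M0 ^ (-η) * (1 / (1 - r)) + M0 ^ (-η) * (1 / (1 - r))) + M0 ^ (-η) := by
        linarith
    _ = _ := by ring

end

/-- the conditions for the parameters -/
structure Cond [Par] (δ ε B k0 σ : ℝ) (N : Md → ℝ) : Prop where
  one : ∀ i, 1 ≤ N i
  sp : Sparse N δ σ
  sm : B * σ ≤ ε
  co : Coef N δ (fun n => k0 * kap n) (fun n => k0 * (4 * gg n * 10 ^ 7))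
  kp : 0 < k0
  tt : TT ≤ ε / 2 * k0
  vP : ∀ ν Am : ℝ, 0 < ν → 0 < Am → ε * ν ≤ 2 * Am → ∀ n,
    ν * N (P n) ^ 2 / (k0 * Am) ≤ epsv * (kap n * qq n)
  vS : ∀ ν Am : ℝ, 0 < ν → 0 < Am → ε * ν ≤ 2 * Am → ∀ n,
    ν * N (S n) ^ 2 / (k0 * Am) ≤ epsv * (kap n * qq n)
  vZ : ∀ ν Am : ℝ, 0 < ν → 0 < Am → ε * ν ≤ 2 * Am →
    ν * N Z ^ 2 / (k0 * Am) ≤ 1 / (10 ^ 6 * NN)
  fP : ∀ n, 4 ^ n ≤ N (P n)
  fS : ∀ n, 4 ^ n ≤ N (S n)

theorem exists_param {δ ε B : ℝ} (hδ : 0 < δ) (hδ1 : δ ≤ 1 / 2) (hε : 0 < ε) (hB : 0 < B) :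
    ∃ (_ : Par) (M0 R k0 σ : ℝ), 20 ≤ M0 ∧ 4 ≤ R ∧ ∀ N : Md → ℝ, Scale M0 R N →
      Cond δ ε B k0 σ N := by
  set η : ℝ := δ / 2 with hη
  have hη0 : 0 < η := by positivity
  have hη1 : η ≤ 1 / 4 := by rw [hη]; linarith
  have hlog : 0 < Real.log 32 := Real.log_pos (by norm_num)
  -- the parameter
  obtain ⟨n0, hn0⟩ := exists_nat_ge ((2 + η) / (2 * η * Real.log 32))
  let P0 : Par := ⟨n0 + 1, by omega⟩
  refine ⟨P0, ?_⟩
  have hNN : NN = (n0 : ℝ) + 1 := by
    unfold NN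
    show ((n0 + 1 : ℕ) : ℝ) = _
    push_cast
    ring
  have hNN1 := one_le_NN
  have hNN0 : 0 < NN := by linarith
  -- the ratio
  set R : ℝ := 32 ^ (1 / (2 + η)) with hR
  have h2η : 0 < 2 + η := by linarith
  have hR0 : 0 < R := Real.rpow_pos_of_pos (by norm_num) _
  have hRη : R ^ (2 + η) = 32 := by
    rw [hR, ← Real.rpow_mul (by norm_num), one_div_mul_cancel h2η.ne', Real.rpow_one]
  have hR4 : 4 ≤ R := by
    have e32 : (32 : ℝ) = 2 ^ (5 : ℝ) := by
      rw [show (5 : ℝ) = ((5 : ℕ) : ℝ) by norm_num, Real.rpow_natCast]; norm_num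
    have e4 : (4 : ℝ) = 2 ^ (2 : ℝ) := by
      rw [show (2 : ℝ) = ((2 : ℕ) : ℝ) by norm_num, Real.rpow_natCast]; norm_num
    rw [hR, e32, ← Real.rpow_mul (by norm_num)]
    rw [e4]
    refine Real.rpow_le_rpow_of_exponent_le (by norm_num) ?_
    rw [mul_one_div, le_div_iff₀ h2η]
    linarith
  have hRsq : R ^ 2 ≤ 32 * Real.exp (-(1 / (2 * NN))) := by
    have h1 : R ^ 2 = Real.exp (2 / (2 + η) * Real.log 32) := by
      rw [hR, ← Real.rpow_natCast, ← Real.rpow_mul (by norm_num), Real.rpow_def_of_pos (by norm_num)]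
      congr 1
      push_cast
      ring
    have h2 : (32 : ℝ) * Real.exp (-(1 / (2 * NN)))
        = Real.exp (Real.log 32 + -(1 / (2 * NN))) := by
      rw [Real.exp_add, Real.exp_log (by norm_num)]
    rw [h1, h2]
    apply Real.exp_le_exp.mpr
    have h3 : (2 + η) / (2 * η * Real.log 32) ≤ NN := by rw [hNN]; linarith
    rw [div_le_iff₀ (by positivity)] at h3
    have h4 : 1 / (2 * NN) ≤ η / (2 + η) * Real.log 32 := by
      rw [div_le_iff₀ (by positivity)]
      have : η / (2 + η) * Real.log 32 * (2 * NN) = (NN * (2 * η * Real.log 32)) / (2 + η) := by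
        field_simp
      rw [this, le_div_iff₀ h2η]
      linarith
    have h5 : 2 / (2 + η) * Real.log 32 = Real.log 32 - η / (2 + η) * Real.log 32 := by
      field_simp
      ring
    rw [h5]
    linarith
  have hRsqn : ∀ n : ℕ, (R ^ n) ^ 2 ≤ kap n * qq n := by
    intro n
    have h1 : (R ^ n) ^ 2 = (R ^ 2) ^ n := by rw [← pow_mul, ← pow_mul, mul_comm]
    have h2 : kap n * qq n = (32 * Real.exp (-(1 / (2 * NN)))) ^ n := by
      unfold kap qq
      rw [mul_pow, ← Real.exp_nat_mul]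
      congr 2
      ring
    rw [h1, h2]
    exact pow_le_pow_left₀ (by positivity) hRsq n
  -- the constants
  set r : ℝ := R ^ (-η) with hr
  have hr1 : r < 1 := Real.rpow_lt_one_of_one_lt_of_neg (by linarith) (by linarith)
  set K1 : ℝ := 1 + 2 / (1 - r) with hK1
  have hK10 : 0 < K1 := by
    have : 0 < 2 / (1 - r) := div_pos (by norm_num) (by linarith)
    linarith
  have heps : 0 < epsv := Real.exp_pos _
  have hTT : 0 < TT := by unfold TT LL; positivity
  obtain ⟨M0, ⟨⟨⟨hm1, hm2⟩, hm3⟩, hm4⟩, hm5⟩ :=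
    ((((((tendsto_rpow_atTop hη0).eventually_ge_atTop (K1 * (1 + B / ε))).and
      ((tendsto_rpow_atTop hη0).eventually_ge_atTop (8 / (ε * epsv)))).and
      ((tendsto_rpow_atTop hη0).eventually_ge_atTop (8 * (10 ^ 6 * NN) / ε))).and
      (eventually_ge_atTop (2 * TT / ε))).and (eventually_ge_atTop (20 : ℝ))).exists
  have hM0 : 0 < M0 := by linarith
  have hMη : 0 < M0 ^ η := Real.rpow_pos_of_pos hM0 _
  set k0 : ℝ := M0 ^ (2 + η) with hk0
  have hk00 : 0 < k0 := Real.rpow_pos_of_pos hM0 _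
  have hk0e : k0 = M0 ^ 2 * M0 ^ η := by
    rw [hk0, Real.rpow_add hM0]
    congr 1
    exact Real.rpow_natCast M0 2
  set σ : ℝ := M0 ^ (-η) * K1 with hσ
  refine ⟨M0, R, k0, σ, hm5, hR4, fun N Sc => ?_⟩
  have hRn1 : ∀ n : ℕ, 1 ≤ R ^ n := fun n => one_le_pow₀ (by linarith)
  have hMn : ∀ n, M0 ≤ M0 * R ^ n := fun n => by
    have := hRn1 n
    nlinarith
  have hone : ∀ i, M0 ≤ N i := by
    intro i
    cases i with
    | P n => exact (hMn n).trans (Sc.P1 n)
    | S n => exact (hMn n).trans (Sc.S1 n)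
    | Z => exact Sc.Z1
  have hσ1 : σ * (1 + B / ε) ≤ 1 := by
    rw [hσ, Real.rpow_neg hM0.le]
    have h1 : (M0 ^ η)⁻¹ * K1 * (1 + B / ε) = K1 * (1 + B / ε) / M0 ^ η := by
      field_simp
    rw [h1, div_le_one hMη]
    exact hm1
  have hσ0 : 0 ≤ σ := by
    have := Real.rpow_pos_of_pos hM0 (-η)
    positivity
  have hBε : 0 < B / ε := by positivity
  have hkk : ∀ n : ℕ, k0 * kap n = (M0 * R ^ n) ^ (2 + η) := by
    intro n
    have : (R ^ n : ℝ) ^ (2 + η) = kap n := by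
      unfold kap
      rw [← Real.rpow_natCast, ← Real.rpow_mul hR0.le, mul_comm, Real.rpow_mul hR0.le, hRη,
        Real.rpow_natCast]
    rw [Real.mul_rpow hM0.le (by positivity), this]
  have hmono : ∀ {x y : ℝ}, 0 ≤ x → x ≤ y → x ^ (2 + η) ≤ y ^ (2 + η) := fun hx hxy =>
    Real.rpow_le_rpow hx hxy h2η.le
  have hgen : ∀ {ν Am : ℝ}, 0 < ν → 0 < Am → ε * ν ≤ 2 * Am → ∀ {y : ℝ} {n : ℕ}, 0 ≤ y →
      y ≤ 2 * (M0 * R ^ n) → ν * y ^ 2 / (k0 * Am) ≤ 8 / (ε * M0 ^ η) * (R ^ n) ^ 2 := by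
    intro ν Am hν hAm h1 y n hy0 hy
    have h2 : ν / Am ≤ 2 / ε := by
      rw [div_le_div_iff₀ hAm hε]
      linarith
    have h3 : y ^ 2 ≤ 4 * M0 ^ 2 * (R ^ n) ^ 2 := by
      calc y ^ 2 ≤ (2 * (M0 * R ^ n)) ^ 2 := by gcongr
        _ = _ := by ring
    calc ν * y ^ 2 / (k0 * Am) = (ν / Am) * (y ^ 2 / k0) := by field_simp
      _ ≤ (2 / ε) * (4 * M0 ^ 2 * (R ^ n) ^ 2 / k0) := by gcongr
      _ = _ := by
        rw [hk0e]
        field_simp
        ring
  have hgen2 : ∀ {ν Am : ℝ}, 0 < ν → 0 < Am → ε * ν ≤ 2 * Am → ∀ {y : ℝ} {n : ℕ}, 0 ≤ y →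
      y ≤ 2 * (M0 * R ^ n) → ν * y ^ 2 / (k0 * Am) ≤ epsv * (kap n * qq n) := by
    intro ν Am hν hAm h1 y n hy0 hy
    refine (hgen hν hAm h1 hy0 hy).trans ?_
    have h2 : 8 / (ε * M0 ^ η) ≤ epsv := by
      rw [div_le_iff₀ (by positivity)]
      rw [div_le_iff₀ (by positivity)] at hm2
      linarith
    have h3 := hRsqn n
    gcongr
  constructor
  · intro i
    have := hone i
    linarith
  · refine ⟨hσ0, ?_, fun F => ?_⟩
    · nlinarith
    · have := sum_scale (by linarith) hR4 hη0 Sc F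
      rw [← hr, ← hK1] at this
      exact this
  · have h1 : σ * (B / ε) ≤ 1 := by nlinarith
    have h2 : B * σ = σ * (B / ε) * ε := by field_simp
    rw [h2]
    nlinarith
  · constructor
    · intro n
      have : 0 < kap n := by unfold kap; positivity
      positivity
    · intro n
      rw [hkk n]
      exact hmono (by positivity) (Sc.P1 n)
    · intro n
      rw [hkk n]
      exact hmono (by positivity) (Sc.S1 n)
    · intro n
      rw [hkk n]
      refine hmono (by positivity) (le_trans ?_ (Sc.P1 (n + 1)))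
      rw [pow_succ]
      have := hRn1 n
      have h4 : R ^ n * 1 ≤ R ^ n * R := by gcongr; linarith
      rw [mul_one] at h4
      gcongr
    · intro n
      have : 0 < gg n := Real.exp_pos _
      positivity
    · intro n
      have h1 := gg_tiny n
      calc 2 ^ n * (k0 * (4 * gg n * 10 ^ 7)) = k0 * (2 ^ n * (4 * gg n * 10 ^ 7)) := by ring
        _ ≤ k0 * 1 := by gcongr
        _ = k0 := mul_one _
        _ ≤ _ := hmono hM0.le (hone _)
    · intro n
      have h1 := gg_tiny n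
      calc 2 ^ n * (k0 * (4 * gg n * 10 ^ 7)) = k0 * (2 ^ n * (4 * gg n * 10 ^ 7)) := by ring
        _ ≤ k0 * 1 := by gcongr
        _ = k0 := mul_one _
        _ ≤ _ := hmono hM0.le (hone _)
  · exact hk00
  · have h1 : M0 ≤ k0 := by
      have h2 : (1 : ℝ) ≤ M0 ^ η := Real.one_le_rpow (by linarith) hη0.le
      rw [hk0e]
      nlinarith [mul_pos hM0 hM0]
    rw [div_le_iff₀ hε] at hm4
    nlinarith
  · intro ν Am hν hAm h1 n
    exact hgen2 hν hAm h1 (by linarith [hone (P n)]) (Sc.P2 n)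
  · intro ν Am hν hAm h1 n
    exact hgen2 hν hAm h1 (by linarith [hone (S n)]) (Sc.S2 n)
  · intro ν Am hν hAm h1
    have h2 := hgen hν hAm h1 (y := N Z) (n := 0) (by linarith [hone Z]) (by
      simpa using Sc.Z2)
    refine h2.trans ?_
    rw [pow_zero, one_pow, mul_one, div_le_div_iff₀ (by positivity) (by positivity)]
    rw [div_le_iff₀ hε] at hm3
    linarith
  · intro n
    have h1 : (4 : ℝ) ^ n ≤ R ^ n := pow_le_pow_left₀ (by norm_num) hR4 n
    have h2 := Sc.P1 n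
    have h3 := hRn1 n
    nlinarith
  · intro n
    have h1 : (4 : ℝ) ^ n ≤ R ^ n := pow_le_pow_left₀ (by norm_num) hR4 n
    have h2 := Sc.S1 n
    have h3 := hRn1 n
    nlinarith

end Pool.Agent.T2H10.LO
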