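import Pool.Agent.T2H10.LO.Fr
import Pool.Agent.T2H10.LO.Conv
import Pool.Agent.T2H10.LO.Param

/-!
Blow-up for the perturbed equations: assembly.
-/

set_option autoImplicit false
set_option maxSynthPendingDepth 3
set_option linter.unusedSectionVars false

open MeasureTheory Set Filter Topology
open scoped InnerProductSpace ENNReal ContDiff NNReal

namespace Pool.Agent.T2H10.LO

open H772R2.NS
open Pool.Agent.T2H10 (Md alternative)
open Pool.Agent.T2H10.Md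
open Pool.Agent.W795.TQ Pool.Agent.Y303.NF Pool.Agent.Y303.RA
open H772R2.NSR (Frame rellich_W exists_frame)

section abs

variable {H K : Type} [NormedAddCommGroup H] [InnerProductSpace ℝ H] [CompleteSpace H]
  [NormedAddCommGroup K] [InnerProductSpace ℝ K] [CompleteSpace K]
  {W : Submodule ℝ (H × K)} {m : H → K} {A : ℝ} {V : Md → H} {J : Md → K} {N : Md → ℝ}
  {β : Md → H →L[ℝ] H →L[ℝ] ℝ}

theorem Modes.orth (M : Modes W m A V J N β) {i j : Md} (h : i ≠ j) : ⟪V i, V j⟫_ℝ = 0 := by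
  have h1 := M.eig i _ (M.mem j)
  have h2 := M.eig j _ (M.mem i)
  simp only at h1 h2
  rw [real_inner_comm, h2, real_inner_comm (V i) (V j)] at h1
  have h3 := M.one i
  have h4 := M.one j
  have h5 : N i ^ 2 ≠ N j ^ 2 := by
    intro h6
    exact M.ne i j h ((pow_left_inj₀ (by linarith) (by linarith) (by norm_num)).mp h6)
  have h7 : (N j ^ 2 - N i ^ 2) * ⟪V i, V j⟫_ℝ = 0 := by
    rw [sub_mul, h1, sub_self]
  rcases mul_eq_zero.mp h7 with h8 | h8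
  · exact absurd (sub_eq_zero.mp h8).symm h5
  · exact h8

theorem Low.add {δ ε1 ε2 ε : ℝ} {Q1 Q2 : K →L[ℝ] K →L[ℝ] K →L[ℝ] ℝ} (h1 : Low W δ ε1 Q1)
    (h2 : Low W δ ε2 Q2) (h : ε1 + ε2 ≤ ε) : Low W δ ε (Q1 + Q2) := by
  have key : ∀ a b c : K, ∀ X : ℝ, 0 ≤ X → |Q1 a b c| ≤ ε1 * X → |Q2 a b c| ≤ ε2 * X →
      |(Q1 + Q2) a b c| ≤ ε * X := by
    intro a b c X hX k1 k2
    have e : (Q1 + Q2) a b c = Q1 a b c + Q2 a b c := by simp
    rw [e]
    refine (abs_add_le _ _).trans ((add_le_add k1 k2).trans ?_)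
    rw [← add_mul]
    gcongr
  refine ⟨fun p hp q hq c => key _ _ _ _ (by positivity) (h1.f1 p hp q hq c)
    (h2.f1 p hp q hq c), fun p hp q hq c => key _ _ _ _ (by positivity) (h1.f2 p hp q hq c)
    (h2.f2 p hp q hq c), fun p hp q hq r hr => key _ _ _ _ (by positivity)
    (h1.f3 p hp q hq r hr) (h2.f3 p hp q hq r hr)⟩

theorem norm_ini [Par] (M : Modes W m A V J N β) :
    ‖ini0 V‖ ^ 2 = 1 + bet 0 ^ 2 + 1 / 10 ^ 7 := by
  have hw : √(1 / 10 ^ 7 : ℝ) ^ 2 = 1 / 10 ^ 7 := Real.sq_sqrt (by positivity)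
  have e1 := M.orth (show P 0 ≠ S 0 by simp)
  have e2 := M.orth (show P 0 ≠ Z by simp)
  have e3 := M.orth (show S 0 ≠ Z by simp)
  unfold ini0
  rw [norm_add_sq_real, norm_add_sq_real, norm_smul, norm_smul, M.unit, M.unit, M.unit,
    inner_add_left, real_inner_smul_left, real_inner_smul_right, real_inner_smul_right,
    real_inner_smul_right, e1, e2, e3]
  simp only [mul_zero, add_zero, one_pow, mul_one, Real.norm_eq_abs, sq_abs, hw]

/-- the finite set of the initial velocity -/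
def F0 : Finset Md := {P 0, S 0, Z}

/-- the coefficients of the initial velocity -/
noncomputable def c0 [Par] (Am : ℝ) : Md → ℝ
  | P _ => Am
  | S _ => Am * bet 0
  | Z => Am * √(1 / 10 ^ 7 : ℝ)

theorem sum_ini [Par] {X : Type} [AddCommGroup X] [Module ℝ X] (V : Md → X) (Am : ℝ) :
    ∑ i ∈ F0, c0 Am i • V i = Am • ini0 V := by
  unfold F0 ini0
  rw [Finset.sum_insert (by simp), Finset.sum_insert (by simp), Finset.sum_singleton]
  simp only [c0, smul_add, smul_smul]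
  rw [add_assoc]

end abs

theorem bet0_le [Par] : bet 0 ^ 2 ≤ 1 := by
  have h1 : bet 0 ≤ 1 := by
    unfold bet Lam LL
    rw [Real.exp_le_one_iff]
    have := one_le_NN
    simp only [CharP.cast_eq_zero, zero_add, one_pow, mul_one]
    linarith
  have h2 : 0 < bet 0 := Real.exp_pos _
  nlinarith

section abs

variable {H K : Type} [NormedAddCommGroup H] [InnerProductSpace ℝ H] [CompleteSpace H]
  [NormedAddCommGroup K] [InnerProductSpace ℝ K] [CompleteSpace K]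

theorem blow_abs (hloc : S_loc) (huni : S_uni) (hc : S_chain) (h9 : S_ns) [Par]
    {W : Submodule ℝ (H × K)} {m : H → K} {A C : ℝ} {V : Md → H} {J : Md → K} {N : Md → ℝ}
    {β : Md → H →L[ℝ] H →L[ℝ] ℝ} {δ ε B1 B2 k0 σ : ℝ}
    (hδ : 0 < δ) (hδ1 : δ ≤ 1 / 2) (hε : 0 < ε) (Fr : Frame W m C) (M : Modes W m A V J N β)
    (Co : Cond δ ε (B1 + B2) k0 σ N) {Q1 Q2 : K →L[ℝ] K →L[ℝ] K →L[ℝ] ℝ}
    (hcomp : ∀ R : ℝ, TotallyBounded {v : H | ∃ z, (v, z) ∈ W ∧ ‖z‖ ≤ R})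
    (hQ1 : Part1 W m V J Q1) (L1 : Low W δ (B1 * σ) Q1)
    (hQ2 : Part2 W V J (fun n => k0 * kap n) (fun n => k0 * (4 * gg n * 10 ^ 7)) Q2)
    (L2 : Low W δ (B2 * σ) Q2) :
    ∃ (Q : K →L[ℝ] K →L[ℝ] K →L[ℝ] ℝ) (C' : ℝ),
      (∀ a b c, Q a b c = -Q a c b) ∧ Low W δ ε Q ∧ Frame W (mQ W m Q) C' ∧
      (∀ p ∈ W, ∀ c, ⟪mQ W m Q p.1, c⟫_ℝ = ⟪m p.1, c⟫_ℝ - Q p.2 p.2 c) ∧
      ∀ ν : ℝ, 0 < ν → ∀ c : ℝ, ε * ν ≤ c → ∃ (τ : ℝ) (u : ℝ → H), 0 < τ ∧ τ ≤ ε / c ∧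
        (u 0 = c • ∑ i ∈ F0, c0 (1 / 2) i • V i) ∧
        (∀ t ∈ Ioo 0 τ, Str W (mQ W m Q) ν t (fun _ => 0) u (deriv u) (gz W u)
          (deriv (gz W u))) ∧
        (∀ L : ℝ, ∃ t ∈ Ioo 0 τ, L ≤ ‖gz W u t‖) ∧
        (∀ t, τ ≤ t → ∀ (y y1 : ℝ → H) (z z1 : ℝ → K),
          Str W (mQ W m Q) ν t (fun _ => 0) y y1 z z1 →
          y 0 ≠ c • ∑ i ∈ F0, c0 (1 / 2) i • V i) := by
  have hQe : ∀ a b c, (Q1 + Q2) a b c = Q1 a b c + Q2 a b c := fun a b c => by simp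
  have hL : Low W δ ε (Q1 + Q2) := L1.add L2 (by
    rw [← add_mul]
    exact Co.sm)
  generalize Q1 + Q2 = Q at hQe hL
  have hanti : ∀ a b c, Q a b c = -Q a c b := by
    intro a b c
    rw [hQe, hQe, hQ1.anti a b c, hQ2.anti a b c]
    ring
  obtain ⟨⟨C', Fr'⟩, hin⟩ := fr_s _ _ W m C δ ε Q Fr hδ hδ1 hε.le hanti hL
  have hk0 := Co.kp
  have hTT : 0 < TT := by
    have := one_le_NN
    unfold TT LL
    positivity
  refine ⟨Q, C', hanti, hL, Fr', hin, ?_⟩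
  intro ν hν c hc'
  have hc0 : 0 < c := lt_of_lt_of_le (by positivity) hc'
  set Am : ℝ := c / 2 with hAm
  have hAm0 : 0 < Am := by positivity
  have hνA : ε * ν ≤ 2 * Am := by rw [hAm]; linarith
  set T : ℝ := TT / (k0 * Am) with hT
  have hT0 : 0 < T := by positivity
  have hTC : T ≤ ε / c := by
    have e : ε / c = ε / 2 / Am := by rw [hAm]; field_simp
    rw [hT, e, div_le_div_iff₀ (by positivity) hAm0]
    have := Co.tt
    calc TT * Am ≤ ε / 2 * k0 * Am := mul_le_mul_of_nonneg_right this hAm0.le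
      _ = _ := by ring
  have hx0 : c • ∑ i ∈ F0, c0 (1 / 2) i • V i = Am • ini0 V := by
    rw [sum_ini, smul_smul]
    congr 1
    rw [hAm]; ring
  have hmem : (Am • ini0 V, Am • ini0 J) ∈ W := by
    have : (Am • ini0 V, Am • ini0 J) = ∑ i ∈ F0, c0 Am i • (V i, J i) := by
      rw [← sum_ini, ← sum_ini]
      simp [Prod.ext_iff, Prod.fst_sum, Prod.snd_sum]
    rw [this]
    exact Submodule.sum_mem _ fun i _ => Submodule.smul_mem _ _ (M.mem i)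
  obtain ⟨h, hh⟩ := hQ2.ini F0 (c0 Am)
  have hg : ∀ p ∈ W, ⟪(0 : K) - ν • (Am • ini0 J) + mQ W m Q (Am • ini0 V), p.2⟫_ℝ
      = ⟪-(ν • ∑ i ∈ F0, (c0 Am i * N i ^ 2) • V i) - h, p.1⟫_ℝ := by
    intro p hp
    have k1 := hin _ hmem p.2
    simp only at k1
    have k2 := hQ1.ini F0 (c0 Am) p hp
    have k3 := hh p hp
    rw [sum_ini] at k2 k3
    rw [sum_ini] at k2
    have k4 : ⟪Am • ini0 J, p.2⟫_ℝ = ⟪∑ i ∈ F0, (c0 Am i * N i ^ 2) • V i, p.1⟫_ℝ := by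
      rw [← sum_ini, sum_inner, sum_inner]
      refine Finset.sum_congr rfl fun i _ => ?_
      rw [real_inner_smul_left, real_inner_smul_left, M.eig i p hp]
      ring
    have k5 : ⟪ν • (Am • ini0 J), p.2⟫_ℝ
        = ν * ⟪∑ i ∈ F0, (c0 Am i * N i ^ 2) • V i, p.1⟫_ℝ := by
      rw [← k4]
      exact real_inner_smul_left _ _ _
    rw [inner_add_left, inner_sub_left, inner_zero_left, k5, k1, hQe, k2, k3,
      inner_sub_left, inner_neg_left, real_inner_smul_left]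
    ring
  have hno : ∀ (u u1 : ℝ → H) (z z1 : ℝ → K),
      Str W (mQ W m Q) ν T (fun _ => 0) u u1 z z1 → u 0 ≠ Am • ini0 V := by
    intro u u1 z z1 St hu
    exact h9 hc _ _ W m C C' A V J N β k0 Q1 Q2 Q ν Am u u1 z z1 Fr Fr' hQe hin M
      hQ1 hQ2 hk0 hν hAm0 (Co.vP ν Am hν hAm0 hνA) (Co.vS ν Am hν hAm0 hνA)
      (Co.vZ ν Am hν hAm0 hνA) Co.fP Co.fS St hu
  obtain ⟨τ, u, k1, k2, k3, k4, k5, k6⟩ := alternative hloc huni Fr' hcomp hν hT0 hmem hg hno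
  refine ⟨τ, u, k1, k2.trans hTC, k3.trans hx0.symm, k4, k5, ?_⟩
  intro t ht y y1 z z1 St hy
  exact k6 t ht y y1 z z1 St (hy.trans hx0)

end abs

theorem cls_sum {Ω : Set E3} {V : Md → L2V Ω} {w : Md → E3 → E3}
    (hV : ∀ i, V i =ᵐ[volume.restrict Ω] w i) (G : Finset Md) (c : Md → ℝ) :
    (∑ i ∈ G, c i • V i : L2V Ω) =ᵐ[volume.restrict Ω] ∑ i ∈ G, c i • w i := by
  induction G using Finset.induction_on with
  | empty =>
    simp only [Finset.sum_empty]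
    exact Lp.coeFn_zero _ _ _
  | insert i G hi ih =>
    rw [Finset.sum_insert hi, Finset.sum_insert hi]
    filter_upwards [Lp.coeFn_add (c i • V i) (∑ j ∈ G, c j • V j),
      Lp.coeFn_smul (c i) (V i), ih, hV i] with x k1 k2 k3 k4
    rw [k1, Pi.add_apply, k2, k3, Pi.smul_apply, k4]
    rfl

theorem smooth_sum {w : Md → E3 → E3} (hw : ∀ i, ContDiff ℝ ∞ (w i)) (G : Finset Md)
    (c : Md → ℝ) : ContDiff ℝ ∞ (∑ i ∈ G, c i • w i) := by
  induction G using Finset.induction_on with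
  | empty => exact contDiff_const
  | insert i G hi ih =>
    rw [Finset.sum_insert hi]
    exact ((hw i).const_smul (c i)).add ih

theorem div_sum {w : Md → E3 → E3} (hw : ∀ i, ContDiff ℝ ∞ (w i)) {x : E3}
    (hd : ∀ i, ∑ k, jac (w i) x (k, k) = 0) (G : Finset Md) (c : Md → ℝ) :
    ∑ k, jac (∑ i ∈ G, c i • w i) x (k, k) = 0 := by
  induction G using Finset.induction_on with
  | empty => simp [jac_zero]
  | insert i G hi ih =>
    rw [Finset.sum_insert hi]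
    have h : ∀ k, jac (c i • w i + ∑ j ∈ G, c j • w j) x (k, k)
        = c i * jac (w i) x (k, k) + jac (∑ j ∈ G, c j • w j) x (k, k) := by
      intro k
      have h1 : ContDiff ℝ ∞ (c i • w i) := (hw i).const_smul (c i)
      rw [jac_add h1 (smooth_sum hw G c), jac_smul]
      rfl
    simp only [h]
    rw [Finset.sum_add_distrib, ih, ← Finset.mul_sum, hd i]
    simp

/-- the conclusion -/
def Concl (δ ε : ℝ) : Prop :=
    ∃ (Q : L2M shell →L[ℝ] L2M shell →L[ℝ] L2M shell →L[ℝ] ℝ) (C : ℝ),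
      (∀ a b c, Q a b c = -Q a c b) ∧ Low (graphW shell) δ ε Q ∧
      Frame (graphW shell) (mQ (graphW shell) tensL Q) C ∧
      (∀ p ∈ graphW shell, ∀ c, ⟪mQ (graphW shell) tensL Q p.1, c⟫_ℝ
        = ⟪tensL p.1, c⟫_ℝ - Q p.2 p.2 c) ∧
      ∃ φ : E3 → E3, ContDiff ℝ ∞ φ ∧ (∀ x ∈ shell, ∑ i, jac φ x (i, i) = 0) ∧
      (∀ x, ‖x‖ = 1 ∨ ‖x‖ = 2 → φ x = 0) ∧ (∫ x in shell, ‖φ x‖ ^ 2) ≤ 1 ∧
      ∀ ν : ℝ, 0 < ν → ∀ c : ℝ, ε * ν ≤ c → ∃ (τ : ℝ) (u : ℝ → L2V shell), 0 < τ ∧ τ ≤ ε / c ∧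
        (u 0 =ᵐ[volume.restrict shell] c • φ) ∧
        (∀ t ∈ Ioo 0 τ, Str (graphW shell) (mQ (graphW shell) tensL Q) ν t (fun _ => 0) u
          (deriv u) (gz (graphW shell) u) (deriv (gz (graphW shell) u))) ∧
        (∀ L : ℝ, ∃ t ∈ Ioo 0 τ, L ≤ ‖gz (graphW shell) u t‖) ∧
        (∀ t, τ ≤ t → ∀ (y y1 : ℝ → L2V shell) (z z1 : ℝ → L2M shell),
          Str (graphW shell) (mQ (graphW shell) tensL Q) ν t (fun _ => 0) y y1 z z1 →
          ¬ (y 0 =ᵐ[volume.restrict shell] c • φ))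

theorem blow (hloc : S_loc) (huni : S_uni) (hc : S_chain) (h1 : S_q1) (h2 : S_q2) (h3 : S_ca)
    (h4 : S_cb) (h5 : S_tor) (h6 : S_prof) (h7 : S_mem) (h8 : S_rad) (h9 : S_ns) {δ ε : ℝ}
    (hδ : 0 < δ) (hδ1 : δ ≤ 1 / 2) (hε : 0 < ε) : Concl δ ε := by
  obtain ⟨A, hA1, hA⟩ := fields h5 h6 h7 h8
  obtain ⟨C, Fr⟩ := exists_frame shell_open shell_bdd
  obtain ⟨B1, hB1, hall1⟩ := h1 _ _ (graphW shell) tensL C A δ Fr (by linarith) hδ hδ1
  obtain ⟨B2, hB2, hall2⟩ := h2 _ _ (graphW shell) tensL C A δ Fr (by linarith) hδ hδ1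
  obtain ⟨P0, M0, R, k0, σ, hM0, hR, hcond⟩ := exists_param (B := B1 + B2) hδ hδ1 hε (by positivity)
  obtain ⟨N, w, Sc, F, hbdr⟩ := family hA hM0 hR
  have Co := hcond N Sc
  obtain ⟨V, J, β, hV, hJ, M⟩ := modes_of h3 h4 shell_open shell_bdd Co.one Sc.ne F
  obtain ⟨Q1, hQ1, Lo1⟩ := hall1 V J N β σ M Co.sp
  obtain ⟨Q2, hQ2, Lo2⟩ := hall2 V J N β σ _ _ M Co.sp Co.co
  obtain ⟨Q, C', k1, k2, k3, k4, k5⟩ := blow_abs hloc huni hc h9 hδ hδ1 hε Fr M Co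
    (fun R => rellich_W shell_open shell_bdd R) hQ1 Lo1 hQ2 Lo2
  have hws := fun i => (F i).smooth
  refine ⟨Q, C', k1, k2, k3, k4, ∑ i ∈ F0, c0 (1 / 2) i • w i, smooth_sum hws _ _,
    fun x hx => div_sum hws (fun i => (F i).div x hx) _ _, ?_, ?_, ?_⟩
  · intro x hx
    rw [Finset.sum_apply]
    refine Finset.sum_eq_zero fun i _ => ?_
    rw [Pi.smul_apply, hbdr i x hx, smul_zero]
  · have e : ∫ x in shell, ‖(∑ i ∈ F0, c0 (1 / 2) i • w i) x‖ ^ 2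
        = ‖(∑ i ∈ F0, c0 (1 / 2) i • V i : L2V shell)‖ ^ 2 := by
      rw [← real_inner_self_eq_norm_sq, L2.inner_def]
      refine integral_congr_ae ?_
      filter_upwards [cls_sum hV F0 (c0 (1 / 2))] with x hx
      rw [hx, real_inner_self_eq_norm_sq]
    rw [e, sum_ini, norm_smul, mul_pow, norm_ini M, Real.norm_eq_abs, sq_abs]
    have := bet0_le
    nlinarith
  intro ν hν c hc'
  obtain ⟨τ, u, m1, m2, m3, m4, m5, m6⟩ := k5 ν hν c hc'
  have hx0 : (c • ∑ i ∈ F0, c0 (1 / 2) i • V i : L2V shell) =ᵐ[volume.restrict shell]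
      c • ∑ i ∈ F0, c0 (1 / 2) i • w i := by
    filter_upwards [Lp.coeFn_smul c (∑ i ∈ F0, c0 (1 / 2) i • V i : L2V shell),
      cls_sum hV F0 (c0 (1 / 2))] with x e1 e2
    rw [e1, Pi.smul_apply, e2]
    rfl
  refine ⟨τ, u, m1, m2, ?_, m4, m5, ?_⟩
  · rw [m3]
    exact hx0
  · intro t ht y y1 z z1 St hy
    refine m6 t ht y y1 z z1 St ?_
    apply Lp.ext
    exact hy.trans hx0.symm

end Pool.Agent.T2H10.LO
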