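import Pool.Agent.T2H10.LO.Defs

/-!
Statements of the parts.
-/

set_option autoImplicit false
set_option maxSynthPendingDepth 3

open MeasureTheory Set Filter Topology
open scoped InnerProductSpace ENNReal ContDiff NNReal

namespace Pool.Agent.T2H10.LO

open H772R2.NS
open Pool.Agent.T2H10 (Md)
open Pool.Agent.T2H10.Md
open Pool.Agent.W795.TQ Pool.Agent.Y303.NF
open H772R2.NSR (Frame)

/-- chain: the chain with stronger viscosity blows up -/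
def S_chain : Prop := ∀ [Par], ∀ (a b : ℕ → ℝ → ℝ) (e f : ℕ → ℝ) (γ : ℕ → ℝ → ℝ) (K : ℝ),
  Chain a b e f γ K → False

/-- q1: the first part of the perturbation -/
def S_q1 : Prop := ∀ (H K : Type) [NormedAddCommGroup H] [InnerProductSpace ℝ H]
    [CompleteSpace H] [NormedAddCommGroup K] [InnerProductSpace ℝ K] [CompleteSpace K]
    (W : Submodule ℝ (H × K)) (m : H → K) (C A δ : ℝ), Frame W m C → 0 ≤ A → 0 < δ → δ ≤ 1 / 2 →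
    ∃ B : ℝ, 0 < B ∧ ∀ (V : Md → H) (J : Md → K) (N : Md → ℝ) (β : Md → H →L[ℝ] H →L[ℝ] ℝ)
      (σ : ℝ), Modes W m A V J N β → Sparse N δ σ →
      ∃ Q : K →L[ℝ] K →L[ℝ] K →L[ℝ] ℝ, Part1 W m V J Q ∧ Low W δ (B * σ) Q

/-- q2: the second part of the perturbation -/
def S_q2 : Prop := ∀ (H K : Type) [NormedAddCommGroup H] [InnerProductSpace ℝ H]
    [CompleteSpace H] [NormedAddCommGroup K] [InnerProductSpace ℝ K] [CompleteSpace K]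
    (W : Submodule ℝ (H × K)) (m : H → K) (C A δ : ℝ), Frame W m C → 0 ≤ A → 0 < δ → δ ≤ 1 / 2 →
    ∃ B : ℝ, 0 < B ∧ ∀ (V : Md → H) (J : Md → K) (N : Md → ℝ) (β : Md → H →L[ℝ] H →L[ℝ] ℝ)
      (σ : ℝ) (kk g : ℕ → ℝ), Modes W m A V J N β → Sparse N δ σ → Coef N δ kk g →
      ∃ Q : K →L[ℝ] K →L[ℝ] K →L[ℝ] ℝ, Part2 W V J kk g Q ∧ Low W δ (B * σ) Q

/-- fr: the frame of the perturbed equations -/
def S_fr : Prop := ∀ (H K : Type) [NormedAddCommGroup H] [InnerProductSpace ℝ H]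
    [CompleteSpace H] [NormedAddCommGroup K] [InnerProductSpace ℝ K] [CompleteSpace K]
    (W : Submodule ℝ (H × K)) (m : H → K) (C δ ε : ℝ) (Q : K →L[ℝ] K →L[ℝ] K →L[ℝ] ℝ),
    Frame W m C → 0 < δ → δ ≤ 1 / 2 → 0 ≤ ε → (∀ a b c, Q a b c = -Q a c b) → Low W δ ε Q →
    (∃ C', Frame W (mQ W m Q) C') ∧
      ∀ p ∈ W, ∀ c : K, ⟪mQ W m Q p.1, c⟫_ℝ = ⟪m p.1, c⟫_ℝ - Q p.2 p.2 c

/-- the initial velocity -/
noncomputable def ini0 [Par] {X : Type} [AddCommGroup X] [Module ℝ X] (V : Md → X) : X :=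
  V (P 0) + bet 0 • V (S 0) + √(1 / 10 ^ 7 : ℝ) • V Z

/-- ns: there is no strong solution up to the time `TT / (k0 Am)` -/
def S_ns : Prop := S_chain → ∀ (H K : Type) [NormedAddCommGroup H] [InnerProductSpace ℝ H]
    [CompleteSpace H] [NormedAddCommGroup K] [InnerProductSpace ℝ K] [CompleteSpace K] [Par]
    (W : Submodule ℝ (H × K)) (m : H → K) (C C' A : ℝ) (V : Md → H) (J : Md → K) (N : Md → ℝ)
    (β : Md → H →L[ℝ] H →L[ℝ] ℝ) (k0 : ℝ) (Q1 Q2 Q : K →L[ℝ] K →L[ℝ] K →L[ℝ] ℝ) (ν Am : ℝ)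
    (u u1 : ℝ → H) (z z1 : ℝ → K),
    Frame W m C → Frame W (mQ W m Q) C' → (∀ a b c, Q a b c = Q1 a b c + Q2 a b c) →
    (∀ p ∈ W, ∀ c : K, ⟪mQ W m Q p.1, c⟫_ℝ = ⟪m p.1, c⟫_ℝ - Q p.2 p.2 c) →
    Modes W m A V J N β → Part1 W m V J Q1 →
    Part2 W V J (fun n => k0 * kap n) (fun n => k0 * (4 * gg n * 10 ^ 7)) Q2 →
    0 < k0 → 0 < ν → 0 < Am →
    (∀ n, ν * N (P n) ^ 2 / (k0 * Am) ≤ epsv * (kap n * qq n)) →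
    (∀ n, ν * N (S n) ^ 2 / (k0 * Am) ≤ epsv * (kap n * qq n)) →
    ν * N Z ^ 2 / (k0 * Am) ≤ 1 / (10 ^ 6 * NN) →
    (∀ n, 4 ^ n ≤ N (P n)) → (∀ n, 4 ^ n ≤ N (S n)) →
    Str W (mQ W m Q) ν (TT / (k0 * Am)) (fun _ => 0) u u1 z z1 →
    u 0 = Am • ini0 V → False

/-- ca: the form `β` -/
def S_ca : Prop := ∀ (Ω : Set E3), IsOpen Ω → Bornology.IsBounded Ω →
    ∀ (A N : ℝ) (w : E3 → E3), 1 ≤ N → Field Ω A N w →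
    ∃ β : L2V Ω →L[ℝ] L2V Ω →L[ℝ] ℝ, IsB Ω w β ∧
      (∀ u v, |β u v| ≤ A * N * ‖u‖ * ‖v‖) ∧
      (∀ p ∈ graphW Ω, ∀ q ∈ graphW Ω, |β p.1 q.1| ≤ A * ‖p.1‖ * ‖q.2‖) ∧
      (∀ J : L2M Ω, J =ᵐ[volume.restrict Ω] jac w → ∀ p ∈ graphW Ω,
        ⟪tensL p.1, J⟫_ℝ = β p.1 p.1) ∧
      (∀ (A' N' : ℝ) (w' : E3 → E3) (β' : L2V Ω →L[ℝ] L2V Ω →L[ℝ] ℝ) (V V' : L2V Ω),
        Field Ω A' N' w' → IsB Ω w' β' → V =ᵐ[volume.restrict Ω] w →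
        V' =ᵐ[volume.restrict Ω] w' → ∀ p ∈ graphW Ω, β p.1 V' = -β' p.1 V)

/-- cb: eigenfunctions and the nonlinear term at smooth fields -/
def S_cb : Prop := ∀ (Ω : Set E3), IsOpen Ω → Bornology.IsBounded Ω →
    (∀ (A N : ℝ) (w : E3 → E3), Field Ω A N w → ∀ (V : L2V Ω) (J : L2M Ω),
      V =ᵐ[volume.restrict Ω] w → J =ᵐ[volume.restrict Ω] jac w →
      ∀ p ∈ graphW Ω, ⟪J, p.2⟫_ℝ = N ^ 2 * ⟪V, p.1⟫_ℝ) ∧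
    (∀ v : E3 → E3, ContDiff ℝ ∞ v → (∀ x ∈ Ω, ∑ i, jac v x (i, i) = 0) →
      ∀ q ∈ graphW Ω, q.1 =ᵐ[volume.restrict Ω] v → ∀ p ∈ graphW Ω,
      ⟪tensL q.1, p.2⟫_ℝ = -∫ x in Ω, ⟪fderiv ℝ v x (v x), p.1 x⟫_ℝ)

/-- tor: calculus for toroidal fields -/
def S_tor : Prop := ∀ g : ℝ → ℝ, ContDiff ℝ ∞ g →
    ContDiff ℝ ∞ (tor g) ∧ ((∀ s, 9 ≤ s → g s = 0) → HasCompactSupport (tor g)) ∧
    (∀ x, ‖tor g x‖ ≤ |g (‖x‖ ^ 2)| * ‖x‖) ∧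
    (∀ x, ‖fderiv ℝ (tor g) x‖ ≤ |g (‖x‖ ^ 2)| + 2 * |deriv g (‖x‖ ^ 2)| * ‖x‖ ^ 2) ∧
    (∀ x, ∑ i, jac (tor g) x (i, i) = 0) ∧
    (∀ x i, Pool.Agent.Y303.LV.lap (tor g) x i = (10 * deriv g (‖x‖ ^ 2)
      + 4 * ‖x‖ ^ 2 * deriv (deriv g) (‖x‖ ^ 2)) * rot x i)

/-- prof: the radial profiles -/
def S_prof : Prop := ∃ c A : ℝ, 0 < c ∧ 0 < A ∧ ∀ M : ℝ, 10 ≤ M → ∃ k ∈ Icc M (M + 5),
    ∃ g : ℝ → ℝ, ContDiff ℝ ∞ g ∧ (∀ s, 9 ≤ s → g s = 0) ∧ g 1 = 0 ∧ g 4 = 0 ∧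
    (∀ s ∈ Icc (1 : ℝ) 4, |g s| ≤ A * k ∧ |deriv g s| ≤ A * k ^ 2 ∧
      10 * deriv g s + 4 * s * deriv (deriv g) s = -(k ^ 2) * g s) ∧
    c * k ^ 2 ≤ ∫ r in (1 : ℝ)..2, g (r ^ 2) ^ 2 * r ^ 4

/-- mem: toroidal fields which vanish on the boundary of the shell are in the space -/
def S_mem : Prop := ∀ g : ℝ → ℝ, ContDiff ℝ ∞ g → g 1 = 0 → g 4 = 0 →
    ∃ p ∈ graphW shell, p.1 =ᵐ[volume.restrict shell] tor g ∧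
      p.2 =ᵐ[volume.restrict shell] jac (tor g)

/-- rad: the norm of a toroidal field -/
def S_rad : Prop := ∀ g : ℝ → ℝ, ContDiff ℝ ∞ g →
    ∫ x in shell, ‖tor g x‖ ^ 2 = 8 * Real.pi / 3 * ∫ r in (1 : ℝ)..2, g (r ^ 2) ^ 2 * r ^ 4

end Pool.Agent.T2H10.LO
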