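import Pool.Agent.T2H10.LO.Step
import Pool.Agent.T2H10.LO.Stm

/-!
The chain with stronger viscosity blows up.
-/

set_option autoImplicit false

namespace Pool.Agent.T2H10.LO

/-- The chain with stronger viscosity blows up. -/
theorem chain_s : S_chain := by
  intro _ a b e f γ K C
  exact Chn.chain_false C

end Pool.Agent.T2H10.LO
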