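import Pool.Agent.T2H10.LO.Stm

/-!
The form `∫_Ω v · (u · ∇) w` of a field `w`: bounds and antisymmetry.
-/

set_option autoImplicit false
set_option maxSynthPendingDepth 3

open MeasureTheory Set Filter Topology
open scoped InnerProductSpace ENNReal ContDiff NNReal

namespace Pool.Agent.T2H10.LO

open H772R2.NS
open Pool.Agent.W795.TQ Pool.Agent.Y303.NF
open H772R2.NSR (Frame)

namespace CA

/-- Cauchy-Schwarz for the norms -/
theorem cs_norm {α : Type} {mα : MeasurableSpace α} {μ : Measure α} {E F : Type}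
    [NormedAddCommGroup E] [NormedAddCommGroup F] (f : Lp E 2 μ) (g : Lp F 2 μ) :
    Integrable (fun x => ‖f x‖ * ‖g x‖) μ ∧ ∫ x, ‖f x‖ * ‖g x‖ ∂μ ≤ ‖f‖ * ‖g‖ := by
  have hf : MemLp (fun x => ‖f x‖) 2 μ := (Lp.memLp f).norm
  have hg : MemLp (fun x => ‖g x‖) 2 μ := (Lp.memLp g).norm
  have e1 : ⟪hf.toLp _, hg.toLp _⟫_ℝ = ∫ x, ‖f x‖ * ‖g x‖ ∂μ := by
    rw [L2.inner_def]
    refine integral_congr_ae ?_
    filter_upwards [hf.coeFn_toLp, hg.coeFn_toLp] with x a b
    rw [a, b]
    simp [mul_comm]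
  have n1 : ‖hf.toLp _‖ = ‖f‖ := by
    rw [Lp.norm_toLp, eLpNorm_norm, Lp.norm_def]
  have n2 : ‖hg.toLp _‖ = ‖g‖ := by
    rw [Lp.norm_toLp, eLpNorm_norm, Lp.norm_def]
  refine ⟨hf.integrable_mul hg, ?_⟩
  rw [← e1, ← n1, ← n2]
  exact real_inner_le_norm _ _

theorem fderiv_comp_jac {φ : E3 → E3} (x v : E3) (i : Fin 3) :
    fderiv ℝ φ x v i = ∑ j, jac φ x (i, j) * v j := by
  have hv : v = ∑ j, v j • ev j := by
    ext i
    simp [Finset.sum_apply, Pi.single_apply]
  conv_lhs => rw [hv]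
  rw [map_sum]
  simp only [map_smul, PiLp.smul_apply, smul_eq_mul, WithLp.ofLp_sum, Finset.sum_apply, jac_apply]
  refine Finset.sum_congr rfl (fun j _ => ?_)
  simp [mul_comm]

theorem tens_jac {φ : E3 → E3} (x v : E3) :
    ⟪tens v, jac φ x⟫_ℝ = ⟪fderiv ℝ φ x v, v⟫_ℝ := by
  rw [inner_M3, inner_E3]
  refine Finset.sum_congr rfl fun i _ => ?_
  rw [fderiv_comp_jac, Finset.sum_mul]
  refine Finset.sum_congr rfl fun j _ => ?_
  rw [tens_apply]
  ring

theorem test_off {Ω : Set E3} {φ : E3 → E3} (h : IsTest Ω φ) {x : E3} (hx : x ∉ Ω) : φ x = 0 :=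
  image_eq_zero_of_notMem_tsupport fun hc => hx (h.supp hc)

/-- the integration by parts -/
theorem ibp_form {Ω : Set E3} {w v φ : E3 → E3} (hw : ContDiff ℝ ∞ w) (hwc : HasCompactSupport w)
    (hv : ContDiff ℝ ∞ v) (hφ : IsTest Ω φ) :
    ∫ x in Ω, ⟪fderiv ℝ w x (φ x), v x⟫_ℝ = -∫ x in Ω, ⟪w x, fderiv ℝ v x (φ x)⟫_ℝ := by
  have hPr : ContDiff ℝ ∞ (fun x => ⟪w x, v x⟫_ℝ) := hw.inner ℝ hv
  have hPc : HasCompactSupport (fun x => ⟪w x, v x⟫_ℝ) := by
    refine hwc.mono (fun x hx => ?_)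
    intro h0
    apply hx
    simp [h0]
  have h1 := Pool.Agent.Y303.LV.ibp_grad hPr hPc hφ
  have h2 : ∀ x, ∑ i, fderiv ℝ (fun x => ⟪w x, v x⟫_ℝ) x (ev i) * φ x i
      = ⟪w x, fderiv ℝ v x (φ x)⟫_ℝ + ⟪fderiv ℝ w x (φ x), v x⟫_ℝ := by
    intro x
    have hv' : φ x = ∑ j, φ x j • ev j := by
      ext i
      simp [Finset.sum_apply, Pi.single_apply]
    have h3 : fderiv ℝ (fun x => ⟪w x, v x⟫_ℝ) x (φ x)
        = ⟪w x, fderiv ℝ v x (φ x)⟫_ℝ + ⟪fderiv ℝ w x (φ x), v x⟫_ℝ :=
      fderiv_inner_apply ℝ (hw.differentiable (by simp) x) (hv.differentiable (by simp) x) _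
    rw [← h3]
    conv_rhs => rw [hv', map_sum]
    refine Finset.sum_congr rfl fun i _ => ?_
    rw [map_smul, smul_eq_mul, mul_comm]
  have hφc : Continuous φ := hφ.smooth.continuous
  have c1 : Continuous (fun x => ⟪w x, fderiv ℝ v x (φ x)⟫_ℝ) :=
    hw.continuous.inner ((hv.continuous_fderiv (by simp)).clm_apply hφc)
  have c2 : Continuous (fun x => ⟪fderiv ℝ w x (φ x), v x⟫_ℝ) :=
    ((hw.continuous_fderiv (by simp)).clm_apply hφc).inner hv.continuous
  have s1 : HasCompactSupport (fun x => ⟪w x, fderiv ℝ v x (φ x)⟫_ℝ) := by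
    refine hφ.compact.mono (fun x hx => ?_)
    intro h0
    apply hx
    simp [h0]
  have s2 : HasCompactSupport (fun x => ⟪fderiv ℝ w x (φ x), v x⟫_ℝ) := by
    refine hφ.compact.mono (fun x hx => ?_)
    intro h0
    apply hx
    simp [h0]
  simp only [h2] at h1
  rw [integral_add (c1.integrable_of_hasCompactSupport s1)
    (c2.integrable_of_hasCompactSupport s2)] at h1
  rw [setIntegral_eq_integral_of_forall_compl_eq_zero (fun x hx => by
    rw [test_off hφ hx, map_zero, inner_zero_left]),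
    setIntegral_eq_integral_of_forall_compl_eq_zero (fun x hx => by
    rw [test_off hφ hx, map_zero, inner_zero_right])]
  linarith

/-- the bounded multiplication operator -/
theorem exists_mul {Ω : Set E3} (hm : MeasurableSet Ω) {G : E3 → E3 →L[ℝ] E3} (hG : Continuous G)
    {c : ℝ} (hc : 0 ≤ c) (hb : ∀ x ∈ Ω, ‖G x‖ ≤ c) :
    ∃ T : L2V Ω →L[ℝ] L2V Ω, (∀ u, T u =ᵐ[volume.restrict Ω] fun x => G x (u x)) ∧
      ∀ u, ‖T u‖ ≤ c * ‖u‖ := by
  have hM : ∀ u : L2V Ω, MemLp (fun x => G x (u x)) 2 (volume.restrict Ω) := by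
    intro u
    refine (Lp.memLp u).of_le_mul (c := c) ?_ ?_
    · exact isBoundedBilinearMap_apply.continuous.comp_aestronglyMeasurable
        (hG.aestronglyMeasurable.prodMk (Lp.aestronglyMeasurable u))
    · filter_upwards [ae_restrict_mem hm] with x hx
      exact (ContinuousLinearMap.le_opNorm _ _).trans (by gcongr; exact hb x hx)
  have hco : ∀ u : L2V Ω, (hM u).toLp _ =ᵐ[volume.restrict Ω] fun x => G x (u x) :=
    fun u => (hM u).coeFn_toLp
  let T0 : L2V Ω →ₗ[ℝ] L2V Ω :=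
    { toFun := fun u => (hM u).toLp _
      map_add' := by
        intro u v
        ext1
        filter_upwards [hco (u + v), hco u, hco v, Lp.coeFn_add u v,
          Lp.coeFn_add ((hM u).toLp _) ((hM v).toLp _)] with x a b c d e
        rw [a, e, Pi.add_apply, b, c, d, Pi.add_apply, map_add]
      map_smul' := by
        intro r u
        ext1
        filter_upwards [hco (r • u), hco u, Lp.coeFn_smul r u,
          Lp.coeFn_smul r ((hM u).toLp _)] with x a b c d
        rw [a, RingHom.id_apply, d, Pi.smul_apply, b, c, Pi.smul_apply, map_smul] }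
  have hT0 : ∀ u, ‖T0 u‖ ≤ c * ‖u‖ := by
    intro u
    refine Lp.norm_le_mul_norm_of_ae_le_mul ?_
    filter_upwards [hco u, ae_restrict_mem hm] with x a hx
    show ‖((hM u).toLp _ : L2V Ω) x‖ ≤ _
    rw [a]
    exact (ContinuousLinearMap.le_opNorm _ _).trans (by gcongr; exact hb x hx)
  refine ⟨T0.mkContinuous c hT0, fun u => ?_, fun u => ?_⟩
  · exact hco u
  · exact hT0 u

end CA

theorem ca_s : S_ca := by
  intro Ω hO hbd A N w hN hw
  have hm : MeasurableSet Ω := hO.measurableSet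
  have hne : Ω.Nonempty := by
    by_contra h
    rw [not_nonempty_iff_eq_empty] at h
    have := hw.nrm
    rw [h] at this
    simp at this
  obtain ⟨x0, hx0⟩ := hne
  have hA : 0 ≤ A := (norm_nonneg _).trans (hw.bd x0 hx0)
  have hAN : 0 ≤ A * N := mul_nonneg hA (by linarith)
  obtain ⟨T, hT, hTn⟩ := CA.exists_mul hm (hw.smooth.continuous_fderiv (by simp)) hAN hw.bd1
  have hβ : IsB Ω w ((innerSL ℝ).comp T) := by
    intro u v
    show ⟪T u, v⟫_ℝ = _
    rw [L2.inner_def]
    refine integral_congr_ae ?_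
    filter_upwards [hT u] with x a
    rw [a]
  refine ⟨(innerSL ℝ).comp T, hβ, ?_, ?_, ?_, ?_⟩
  · intro u v
    show |⟪T u, v⟫_ℝ| ≤ _
    refine (abs_real_inner_le_norm _ _).trans ?_
    gcongr
    exact hTn u
  · -- the bound with the gradient of the second argument
    set β := (innerSL ℝ).comp T with hβd
    have ht : ∀ p ∈ preW Ω, ∀ q ∈ preW Ω, |β p.1 q.1| ≤ A * ‖p.1‖ * ‖q.2‖ := by
      rintro p ⟨φ, h1, h2, h3⟩ q ⟨ψ, k1, k2, k3⟩
      have e1 : β p.1 q.1 = -∫ x in Ω, ⟪w x, fderiv ℝ ψ x (φ x)⟫_ℝ := by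
        rw [hβ, ← CA.ibp_form hw.smooth hw.compact k1.smooth h1]
        refine integral_congr_ae ?_
        filter_upwards [h2, k2] with x a b
        rw [a, b]
      rw [e1, abs_neg]
      obtain ⟨i1, i2⟩ := CA.cs_norm p.1 q.2
      have e2 : ‖∫ x in Ω, ⟪w x, fderiv ℝ ψ x (φ x)⟫_ℝ‖ ≤ ∫ x in Ω, A * (‖p.1 x‖ * ‖q.2 x‖) := by
        refine norm_integral_le_of_norm_le (i1.const_mul A) ?_
        filter_upwards [h2, k3, ae_restrict_mem hm] with x a b hx
        rw [a, b]
        refine (norm_inner_le_norm _ _).trans ?_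
        refine mul_le_mul (hw.bd x hx) ?_ (norm_nonneg _) hA
        refine (ContinuousLinearMap.le_opNorm _ _).trans ?_
        rw [mul_comm]
        gcongr
        exact norm_fderiv_le_jac x
      rw [Real.norm_eq_abs, integral_const_mul] at e2
      refine e2.trans ?_
      rw [mul_assoc]
      gcongr
    -- density
    have hcl : ∀ p ∈ graphW Ω, p ∈ closure (preW Ω : Set (L2V Ω × L2M Ω)) := by
      intro p hp
      unfold graphW at hp
      rwa [← SetLike.mem_coe, Submodule.topologicalClosure_coe] at hp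
    have hstep : ∀ p ∈ preW Ω, ∀ q ∈ graphW Ω, |β p.1 q.1| ≤ A * ‖p.1‖ * ‖q.2‖ := by
      intro p hp q hq
      have hc : IsClosed {q : L2V Ω × L2M Ω | |β p.1 q.1| ≤ A * ‖p.1‖ * ‖q.2‖} := by
        refine isClosed_le ?_ ?_
        · exact continuous_abs.comp ((β p.1).continuous.comp continuous_fst)
        · exact continuous_const.mul continuous_snd.norm
      exact closure_minimal (fun q hq => ht p hp q hq) hc (hcl q hq)
    intro p hp q hq
    have hc : IsClosed {p : L2V Ω × L2M Ω | |β p.1 q.1| ≤ A * ‖p.1‖ * ‖q.2‖} := by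
      refine isClosed_le ?_ ?_
      · exact continuous_abs.comp ((β.flip q.1).continuous.comp continuous_fst)
      · exact (continuous_const.mul continuous_fst.norm).mul continuous_const
    exact closure_minimal (fun p hp => hstep p hp q hq) hc (hcl p hp)
  · intro J hJ p hp
    rw [hβ, L2.inner_def]
    refine integral_congr_ae ?_
    filter_upwards [tensL_coe hm hp, hJ] with x a b
    rw [a, b, CA.tens_jac]
  · intro A' N' w' β' V V' hw' hβ' hV hV' p hp
    set β := (innerSL ℝ).comp T with hβd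
    have hz := graphW_induction (Ω := Ω) (fun p => β p.1 V' + β' p.1 V) (by
      refine Continuous.continuousOn ?_
      exact ((β.flip V').continuous.comp continuous_fst).add
        ((β'.flip V).continuous.comp continuous_fst)) (by
      rintro p ⟨φ, h1, h2, h3⟩
      have e1 : β p.1 V' = ∫ x in Ω, ⟪fderiv ℝ w x (φ x), w' x⟫_ℝ := by
        rw [hβ]
        refine integral_congr_ae ?_
        filter_upwards [h2, hV'] with x a b
        rw [a, b]
      have e2 : β' p.1 V = ∫ x in Ω, ⟪w x, fderiv ℝ w' x (φ x)⟫_ℝ := by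
        rw [hβ']
        refine integral_congr_ae ?_
        filter_upwards [h2, hV] with x a b
        rw [a, b, real_inner_comm]
      show β p.1 V' + β' p.1 V = 0
      rw [e1, e2, CA.ibp_form hw.smooth hw.compact hw'.smooth h1]
      ring) hp
    have hz' : β p.1 V' + β' p.1 V = 0 := hz
    linarith

end Pool.Agent.T2H10.LO
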