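import Pool.Agent.T2H10.LO.Stm

/-!
Eigenfunctions of the Stokes operator and the nonlinear term at smooth fields: integration by parts
and density.
-/

set_option autoImplicit false
set_option maxSynthPendingDepth 3
set_option linter.unusedSectionVars false

open MeasureTheory Set Filter Topology
open scoped InnerProductSpace ENNReal ContDiff NNReal

namespace Pool.Agent.T2H10.LO

open H772R2.NS
open Pool.Agent.W795.TQ Pool.Agent.Y303.NF

namespace ConvB

variable {Ω : Set E3}

theorem jac_smooth {v : E3 → E3} (hv : ContDiff ℝ ∞ v) (i j : Fin 3) :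
    ContDiff ℝ ∞ (fun x => jac v x (i, j)) := by
  have e : (fun x => jac v x (i, j)) = fun x => fderiv ℝ (fun y => v y i) x (ev j) := by
    funext x
    rw [fderiv_coord hv, jac_apply]
  rw [e]
  exact ((contDiff_coord hv i).fderiv_right (m := ∞) (by simp)).clm_apply contDiff_const

/-- integration by parts for the Laplace operator -/
theorem ibp_lap {v ψ : E3 → E3} (hv : ContDiff ℝ ∞ v) (hψ : IsTest Ω ψ) :
    ∫ x, ⟪jac v x, jac ψ x⟫_ℝ = - ∫ x, ∑ i, Pool.Agent.Y303.LV.lap v x i * ψ x i := by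
  have hψc : ∀ j, Continuous (fun x => ψ x j) := fun j => (contDiff_coord hψ.smooth j).continuous
  have hψs : ∀ j, HasCompactSupport (fun x => ψ x j) := fun j => hasCompactSupport_coord hψ.compact j
  have hdψ : ∀ i j, Continuous (fun x => fderiv ℝ (fun y => ψ y i) x (ev j)) := fun i j =>
    ((contDiff_coord hψ.smooth i).continuous_fderiv (by simp)).clm_apply continuous_const
  have hdψs : ∀ i j, HasCompactSupport (fun x => fderiv ℝ (fun y => ψ y i) x (ev j)) := by
    intro i j
    refine ((hψs i).fderiv ℝ).mono (fun x hx => ?_)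
    intro h0
    apply hx
    simp [h0]
  have hJ := jac_smooth hv
  have hdJ : ∀ i j, Continuous (fun x => fderiv ℝ (fun y => jac v y (i, j)) x (ev j)) :=
    fun i j => ((hJ i j).continuous_fderiv (by simp)).clm_apply continuous_const
  have i1 : ∀ i j, Integrable (fun x => jac v x (i, j) * fderiv ℝ (fun y => ψ y i) x (ev j)) :=
    fun i j => ((hJ i j).continuous.mul (hdψ i j)).integrable_of_hasCompactSupport
      (hdψs i j).mul_left
  have i2 : ∀ i j, Integrable (fun x => fderiv ℝ (fun y => jac v y (i, j)) x (ev j) * ψ x i) :=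
    fun i j => ((hdJ i j).mul (hψc i)).integrable_of_hasCompactSupport (hψs i).mul_left
  have e : ∀ i j, ∫ x, jac v x (i, j) * fderiv ℝ (fun y => ψ y i) x (ev j)
      = - ∫ x, fderiv ℝ (fun y => jac v y (i, j)) x (ev j) * ψ x i := by
    intro i j
    exact integral_mul_fderiv_eq_neg_fderiv_mul_of_integrable (μ := volume) (v := ev j)
      (f := fun x => jac v x (i, j)) (g := fun y => ψ y i) (i2 i j) (i1 i j)
      (((hJ i j).continuous.mul (hψc i)).integrable_of_hasCompactSupport (hψs i).mul_left)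
      (fun x _ => ((hJ i j).differentiable (by simp)) x)
      (fun x _ => ((contDiff_coord hψ.smooth i).differentiable (by simp)) x)
  have hL : ∀ x, ⟪jac v x, jac ψ x⟫_ℝ
      = ∑ i, ∑ j, jac v x (i, j) * fderiv ℝ (fun y => ψ y i) x (ev j) := by
    intro x
    rw [inner_M3]
    refine Finset.sum_congr rfl fun i _ => Finset.sum_congr rfl fun j _ => ?_
    rw [fderiv_coord hψ.smooth, jac_apply ψ]
  have hR : ∀ x, ∑ i, Pool.Agent.Y303.LV.lap v x i * ψ x i
      = ∑ i, ∑ j, fderiv ℝ (fun y => jac v y (i, j)) x (ev j) * ψ x i := by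
    intro x
    refine Finset.sum_congr rfl fun i _ => ?_
    rw [Pool.Agent.Y303.LV.lap, Finset.sum_mul]
  simp only [hL, hR]
  rw [integral_finsetSum _ (fun i _ => integrable_finsetSum _ (fun j _ => i1 i j)),
    integral_finsetSum _ (fun i _ => integrable_finsetSum _ (fun j _ => i2 i j)),
    ← Finset.sum_neg_distrib]
  refine Finset.sum_congr rfl fun i _ => ?_
  rw [integral_finsetSum _ (fun j _ => i1 i j), integral_finsetSum _ (fun j _ => i2 i j),
    ← Finset.sum_neg_distrib]
  exact Finset.sum_congr rfl fun j _ => e i j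

theorem coord_off {ψ : E3 → E3} (hψ : IsTest Ω ψ) {x : E3} (hx : x ∉ Ω) : ψ x = 0 ∧ jac ψ x = 0 :=
  ⟨image_eq_zero_of_notMem_tsupport fun h => hx (hψ.supp h),
    image_eq_zero_of_notMem_tsupport fun h => hx (hψ.supp (tsupport_jac_subset h))⟩

/-- integration by parts for the quadratic term -/
theorem ibp_tens {φ ψ : E3 → E3} (h : ContDiff ℝ ∞ φ) (hdiv : ∀ x ∈ Ω, ∑ i, jac φ x (i, i) = 0)
    (k : IsTest Ω ψ) :
    ∫ x, ⟪tens (φ x), jac ψ x⟫_ℝ = - ∫ x, ⟪jac φ x, Pool.Agent.W52.TQ.tns (ψ x) (φ x)⟫_ℝ := by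
  have hφc : ∀ j, Continuous (fun x => φ x j) := fun j => (contDiff_coord h j).continuous
  have hψc : ∀ j, Continuous (fun x => ψ x j) := fun j => (contDiff_coord k.smooth j).continuous
  have hψs : ∀ j, HasCompactSupport (fun x => ψ x j) := fun j => hasCompactSupport_coord k.compact j
  have hdψ : ∀ i j, Continuous (fun x => fderiv ℝ (fun y => ψ y i) x (ev j)) := fun i j =>
    ((contDiff_coord k.smooth i).continuous_fderiv (by simp)).clm_apply continuous_const
  have hdψs : ∀ i j, HasCompactSupport (fun x => fderiv ℝ (fun y => ψ y i) x (ev j)) := by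
    intro i j
    refine ((hψs i).fderiv ℝ).mono (fun x hx => ?_)
    intro h0
    apply hx
    simp [h0]
  have hprod : ∀ i j, ContDiff ℝ ∞ (fun x => φ x i * φ x j) := fun i j =>
    (contDiff_coord h i).mul (contDiff_coord h j)
  have hdprod : ∀ i j, Continuous (fun x => fderiv ℝ (fun x => φ x i * φ x j) x (ev j)) :=
    fun i j => ((hprod i j).continuous_fderiv (by simp)).clm_apply continuous_const
  have hd : ∀ i j x, fderiv ℝ (fun x => φ x i * φ x j) x (ev j) =
      φ x i * jac φ x (j, j) + φ x j * jac φ x (i, j) := by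
    intro i j x
    have h1 : DifferentiableAt ℝ (fun x => φ x i) x :=
      ((contDiff_coord h i).differentiable (by simp)) x
    have h2 : DifferentiableAt ℝ (fun x => φ x j) x :=
      ((contDiff_coord h j).differentiable (by simp)) x
    rw [fderiv_fun_mul h1 h2]
    simp only [add_apply, smul_apply, smul_eq_mul]
    rw [fderiv_coord h, fderiv_coord h, jac_apply, jac_apply]
  have hint1 : ∀ i j, Integrable (fun x => (φ x i * φ x j) * fderiv ℝ (fun y => ψ y i) x (ev j)) :=
    fun i j => (((hprod i j).continuous).mul (hdψ i j)).integrable_of_hasCompactSupport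
        (hdψs i j).mul_left
  have hint2 : ∀ i j, Integrable
      (fun x => fderiv ℝ (fun x => φ x i * φ x j) x (ev j) * ψ x i) :=
    fun i j => ((hdprod i j).mul (hψc i)).integrable_of_hasCompactSupport (hψs i).mul_left
  have hibp : ∀ i j, ∫ x, (φ x i * φ x j) * fderiv ℝ (fun y => ψ y i) x (ev j)
      = - ∫ x, fderiv ℝ (fun x => φ x i * φ x j) x (ev j) * ψ x i := by
    intro i j
    apply integral_mul_fderiv_eq_neg_fderiv_mul_of_integrable
    · exact hint2 i j
    · exact hint1 i j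
    · exact (((hprod i j).continuous).mul (hψc i)).integrable_of_hasCompactSupport
        (hψs i).mul_left
    · intro x _
      exact ((hprod i j).differentiable (by simp)) x
    · intro x _
      exact ((contDiff_coord k.smooth i).differentiable (by simp)) x
  have hL : ∀ x, ⟪tens (φ x), jac ψ x⟫_ℝ =
      ∑ i, ∑ j, (φ x i * φ x j) * fderiv ℝ (fun y => ψ y i) x (ev j) := by
    intro x
    rw [inner_M3]
    refine Finset.sum_congr rfl fun i _ => Finset.sum_congr rfl fun j _ => ?_
    rw [fderiv_coord k.smooth]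
    rfl
  have hR : ∀ x, ⟪jac φ x, Pool.Agent.W52.TQ.tns (ψ x) (φ x)⟫_ℝ =
      ∑ i, ∑ j, fderiv ℝ (fun x => φ x i * φ x j) x (ev j) * ψ x i := by
    intro x
    rw [inner_M3]
    refine Finset.sum_congr rfl fun i _ => ?_
    simp only [hd]
    have hz : ∑ j, φ x i * jac φ x (j, j) * ψ x i = 0 := by
      rw [← Finset.sum_mul, ← Finset.mul_sum]
      by_cases hx : x ∈ Ω
      · rw [hdiv x hx, mul_zero, zero_mul]
      · rw [(coord_off k hx).1]
        simp
    have e1 : ∑ j, (φ x i * jac φ x (j, j) + φ x j * jac φ x (i, j)) * ψ x i =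
        ∑ j, φ x i * jac φ x (j, j) * ψ x i + ∑ j, φ x j * jac φ x (i, j) * ψ x i := by
      rw [← Finset.sum_add_distrib]
      exact Finset.sum_congr rfl fun j _ => by ring
    rw [e1, hz, zero_add]
    refine Finset.sum_congr rfl fun j _ => ?_
    simp only [Pool.Agent.W52.TQ.tns]
    ring
  simp only [hL, hR]
  rw [integral_finsetSum _ (fun i _ => integrable_finsetSum _ (fun j _ => hint1 i j)),
    integral_finsetSum _ (fun i _ => integrable_finsetSum _ (fun j _ => hint2 i j)),
    ← Finset.sum_neg_distrib]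
  refine Finset.sum_congr rfl fun i _ => ?_
  rw [integral_finsetSum _ (fun j _ => hint1 i j), integral_finsetSum _ (fun j _ => hint2 i j),
    ← Finset.sum_neg_distrib]
  exact Finset.sum_congr rfl fun j _ => hibp i j

theorem fderiv_sum (v : E3 → E3) (x y : E3) (i : Fin 3) :
    (fderiv ℝ v x y) i = ∑ j, y j * jac v x (i, j) := by
  have h1 : y = ∑ j, y j • ev j := by
    ext l
    simp [ev, Finset.sum_apply, Pi.single_apply]
  conv_lhs => rw [h1]
  rw [map_sum]
  simp only [map_smul]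
  rw [show ((∑ j, y j • fderiv ℝ v x (ev j) : E3) i) = ∑ j, (y j • fderiv ℝ v x (ev j)) i from by
    simp [Finset.sum_apply]]
  refine Finset.sum_congr rfl fun j _ => ?_
  rw [jac_apply]
  rfl

theorem set_eq {f : E3 → ℝ} (hf : ∀ x, x ∉ Ω → f x = 0) : ∫ x in Ω, f x = ∫ x, f x :=
  setIntegral_eq_integral_of_forall_compl_eq_zero hf

theorem part1 {A N : ℝ} {w : E3 → E3} (hw : Field Ω A N w) {V : L2V Ω} {J : L2M Ω}
    (hV : V =ᵐ[volume.restrict Ω] w) (hJ : J =ᵐ[volume.restrict Ω] jac w)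
    {p : L2V Ω × L2M Ω} (hp : p ∈ graphW Ω) : ⟪J, p.2⟫_ℝ = N ^ 2 * ⟪V, p.1⟫_ℝ := by
  rw [← real_inner_smul_left]
  refine H772R2.NSR.compat_ext (w := J) (h := N ^ 2 • V) ?_ p hp
  rintro q ⟨ψ, k1, k2, k3⟩
  rw [real_inner_smul_left]
  have e1 : ⟪J, q.2⟫_ℝ = ∫ x, ⟪jac w x, jac ψ x⟫_ℝ := by
    rw [L2.inner_def, ← set_eq (Ω := Ω) (f := fun x => ⟪jac w x, jac ψ x⟫_ℝ) (fun x hx => by
      simp only [(coord_off k1 hx).2, inner_zero_right])]
    refine integral_congr_ae ?_
    filter_upwards [hJ, k3] with x a b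
    rw [a, b]
  have e2 : ⟪V, q.1⟫_ℝ = ∫ x, ⟪w x, ψ x⟫_ℝ := by
    rw [L2.inner_def, ← set_eq (Ω := Ω) (f := fun x => ⟪w x, ψ x⟫_ℝ) (fun x hx => by
      simp only [(coord_off k1 hx).1, inner_zero_right])]
    refine integral_congr_ae ?_
    filter_upwards [hV, k2] with x a b
    rw [a, b]
  rw [e1, e2, ibp_lap hw.smooth k1, ← integral_neg, ← integral_const_mul]
  refine integral_congr_ae (Eventually.of_forall fun x => ?_)
  simp only []
  by_cases hx : x ∈ Ω
  · rw [inner_E3, Finset.mul_sum, ← Finset.sum_neg_distrib]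
    refine Finset.sum_congr rfl fun i _ => ?_
    rw [hw.lap x hx i]
    ring
  · rw [(coord_off k1 hx).1]
    simp

theorem part2 (hΩ : IsOpen Ω) (hb : Bornology.IsBounded Ω) {v : E3 → E3} (hv : ContDiff ℝ ∞ v)
    (hdiv : ∀ x ∈ Ω, ∑ i, jac v x (i, i) = 0) {q : L2V Ω × L2M Ω} (hq : q ∈ graphW Ω)
    (hqv : q.1 =ᵐ[volume.restrict Ω] v) {p : L2V Ω × L2M Ω} (hp : p ∈ graphW Ω) :
    ⟪tensL q.1, p.2⟫_ℝ = -∫ x in Ω, ⟪fderiv ℝ v x (v x), p.1 x⟫_ℝ := by
  have hm : MeasurableSet Ω := hΩ.measurableSet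
  have hgc : Continuous (fun x => fderiv ℝ v x (v x)) :=
    (hv.continuous_fderiv (by simp)).clm_apply hv.continuous
  have hg2 : MemLp (fun x => fderiv ℝ v x (v x)) 2 (volume.restrict Ω) := by
    have : IsFiniteMeasure (volume.restrict Ω) := by
      refine ⟨?_⟩
      rw [Measure.restrict_apply_univ]
      exact hb.measure_lt_top
    obtain ⟨C, hC⟩ := (hb.isCompact_closure.image hgc).isBounded.exists_norm_le
    refine MemLp.of_bound hgc.aestronglyMeasurable C ?_
    refine (ae_restrict_iff' hm).2 (Eventually.of_forall fun x hx => ?_)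
    exact hC _ ⟨x, subset_closure hx, rfl⟩
  have e0 : ∀ r : L2V Ω, -∫ x in Ω, ⟪fderiv ℝ v x (v x), r x⟫_ℝ = ⟪-hg2.toLp _, r⟫_ℝ := by
    intro r
    rw [inner_neg_left, L2.inner_def]
    congr 1
    refine integral_congr_ae ?_
    filter_upwards [hg2.coeFn_toLp] with x a
    rw [a]
  rw [e0]
  refine H772R2.NSR.compat_ext (w := tensL q.1) (h := -hg2.toLp _) ?_ p hp
  rintro r ⟨ψ, k1, k2, k3⟩
  rw [← e0]
  have e1 : ⟪tensL q.1, r.2⟫_ℝ = ∫ x, ⟪tens (v x), jac ψ x⟫_ℝ := by
    rw [L2.inner_def, ← set_eq (Ω := Ω) (f := fun x => ⟪tens (v x), jac ψ x⟫_ℝ) (fun x hx => by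
      simp only [(coord_off k1 hx).2, inner_zero_right])]
    refine integral_congr_ae ?_
    filter_upwards [tensL_coe hm hq, hqv, k3] with x a b c
    rw [a, b, c]
  have e2 : ∫ x in Ω, ⟪fderiv ℝ v x (v x), r.1 x⟫_ℝ = ∫ x, ⟪fderiv ℝ v x (v x), ψ x⟫_ℝ := by
    rw [← set_eq (Ω := Ω) (f := fun x => ⟪fderiv ℝ v x (v x), ψ x⟫_ℝ) (fun x hx => by
      simp only [(coord_off k1 hx).1, inner_zero_right])]
    refine integral_congr_ae ?_
    filter_upwards [k2] with x a
    rw [a]
  rw [e1, e2, ibp_tens hv hdiv k1]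
  congr 1
  refine integral_congr_ae (Eventually.of_forall fun x => ?_)
  simp only []
  rw [inner_E3, inner_M3]
  refine Finset.sum_congr rfl fun i _ => ?_
  rw [fderiv_sum, Finset.sum_mul]
  refine Finset.sum_congr rfl fun j _ => ?_
  simp only [Pool.Agent.W52.TQ.tns]
  ring

end ConvB

theorem cb_s : S_cb := fun _ hΩ hb =>
  ⟨fun _ _ _ hw _ _ hV hJ _ hp => ConvB.part1 hw hV hJ hp,
    fun _ hv hdiv _ hq hqv _ hp => ConvB.part2 hΩ hb hv hdiv hq hqv hp⟩

end Pool.Agent.T2H10.LO
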