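import Pool.Agent.T2H10.LO.Par
import Pool.Agent.T2H10.Sub
import Pool.Agent.T2H10.Ene

/-!
Perturbations of lower order of the Navier-Stokes equations: definitions.
-/

set_option autoImplicit false
set_option maxSynthPendingDepth 3

open MeasureTheory Set Filter Topology
open scoped InnerProductSpace ENNReal ContDiff NNReal

namespace Pool.Agent.T2H10.LO

open H772R2.NS
open Pool.Agent.T2H10 (Md)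
open Pool.Agent.T2H10.Md
open Pool.Agent.W795.TQ Pool.Agent.Y303.NF
open H772R2.NSR (Frame)

section abs

variable {H K : Type} [NormedAddCommGroup H] [InnerProductSpace ℝ H] [CompleteSpace H]
  [NormedAddCommGroup K] [InnerProductSpace ℝ K] [CompleteSpace K]

/-- Exact eigenfunctions `V i` of the Stokes operator with gradients `J i` and eigenvalues
`N i ^ 2`, with uniform bounds. Here `β i u v = ∫ v · (u · ∇) w_i`, where `w_i` is the field with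
the class `V i`. -/
structure Modes (W : Submodule ℝ (H × K)) (m : H → K) (A : ℝ) (V : Md → H) (J : Md → K)
    (N : Md → ℝ) (β : Md → H →L[ℝ] H →L[ℝ] ℝ) : Prop where
  mem : ∀ i, (V i, J i) ∈ W
  one : ∀ i, 1 ≤ N i
  unit : ∀ i, ‖V i‖ = 1
  ne : ∀ i j, i ≠ j → N i ≠ N j
  eig : ∀ i, ∀ p ∈ W, ⟪J i, p.2⟫_ℝ = N i ^ 2 * ⟪V i, p.1⟫_ℝ
  b1 : ∀ i, ∀ u v, |β i u v| ≤ A * N i * ‖u‖ * ‖v‖
  b2 : ∀ i, ∀ p ∈ W, ∀ q ∈ W, |β i p.1 q.1| ≤ A * ‖p.1‖ * ‖q.2‖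
  self : ∀ i, ∀ p ∈ W, ⟪m p.1, J i⟫_ℝ = β i p.1 p.1
  anti : ∀ i j, ∀ p ∈ W, β i p.1 (V j) = -β j p.1 (V i)
  adv : ∀ (F : Finset Md) (c : Md → ℝ), ∀ p ∈ W,
    ⟪m (∑ i ∈ F, c i • V i), p.2⟫_ℝ = -∑ i ∈ F, c i * β i (∑ j ∈ F, c j • V j) p.1

/-- The estimates: lower order, small constant. -/
structure Low (W : Submodule ℝ (H × K)) (δ ε : ℝ) (Q : K →L[ℝ] K →L[ℝ] K →L[ℝ] ℝ) : Prop where
  f1 : ∀ p ∈ W, ∀ q ∈ W, ∀ c : K,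
    |Q p.2 q.2 c| ≤ ε * (‖p.1‖ ^ (1 - δ) * ‖p.2‖ ^ δ * ‖q.2‖ * ‖c‖)
  f2 : ∀ p ∈ W, ∀ q ∈ W, ∀ c : K,
    |Q p.2 q.2 c| ≤ ε * (‖p.2‖ * (‖q.1‖ ^ (1 - δ) * ‖q.2‖ ^ δ) * ‖c‖)
  f3 : ∀ p ∈ W, ∀ q ∈ W, ∀ r ∈ W,
    |Q p.2 q.2 r.2| ≤ ε * (‖p.2‖ * ‖q.2‖ * (‖r.1‖ ^ (1 - δ) * ‖r.2‖ ^ δ))

/-- The frequencies are sparse. -/
structure Sparse (N : Md → ℝ) (δ σ : ℝ) : Prop where
  s0 : 0 ≤ σ
  s1 : σ ≤ 1
  sum : ∀ F : Finset Md, ∑ i ∈ F, N i ^ (-(δ / 2)) ≤ σ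

/-- The bounds for the coefficients of the cascade. -/
structure Coef (N : Md → ℝ) (δ : ℝ) (kk g : ℕ → ℝ) : Prop where
  k0 : ∀ n, 0 ≤ kk n
  kP : ∀ n, kk n ≤ N (P n) ^ (2 + δ / 2)
  kS : ∀ n, kk n ≤ N (S n) ^ (2 + δ / 2)
  kP' : ∀ n, kk n ≤ N (P (n + 1)) ^ (2 + δ / 2)
  g0 : ∀ n, 0 ≤ g n
  gS : ∀ n, 2 ^ n * g n ≤ N (S n) ^ (2 + δ / 2)
  gZ : ∀ n, 2 ^ n * g n ≤ N Z ^ (2 + δ / 2)

/-- The first part of the perturbation: it cancels the action of the nonlinear term on the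
modes. -/
structure Part1 (W : Submodule ℝ (H × K)) (m : H → K) (V : Md → H) (J : Md → K)
    (Q : K →L[ℝ] K →L[ℝ] K →L[ℝ] ℝ) : Prop where
  anti : ∀ a b c, Q a b c = -Q a c b
  mode : ∀ i, ∀ p ∈ W, Q p.2 p.2 (J i) = ⟪m p.1, J i⟫_ℝ
  ini : ∀ (F : Finset Md) (c : Md → ℝ), ∀ p ∈ W,
    Q (∑ i ∈ F, c i • J i) (∑ i ∈ F, c i • J i) p.2 = ⟪m (∑ i ∈ F, c i • V i), p.2⟫_ℝ

/-- The second part of the perturbation: the cascade. -/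
structure Part2 (W : Submodule ℝ (H × K)) (V : Md → H) (J : Md → K) (kk g : ℕ → ℝ)
    (Q : K →L[ℝ] K →L[ℝ] K →L[ℝ] ℝ) : Prop where
  anti : ∀ a b c, Q a b c = -Q a c b
  hP0 : ∀ p ∈ W, Q p.2 p.2 (J (P 0)) = kk 0 * ⟪p.1, V (S 0)⟫_ℝ ^ 2
  hP : ∀ n, ∀ p ∈ W, Q p.2 p.2 (J (P (n + 1)))
    = kk (n + 1) * ⟪p.1, V (S (n + 1))⟫_ℝ ^ 2 - kk n * ⟪p.1, V (S n)⟫_ℝ ^ 2
  hS : ∀ n, ∀ p ∈ W, Q p.2 p.2 (J (S n))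
    = -(kk n * ⟪p.1, V (S n)⟫_ℝ * (⟪p.1, V (P n)⟫_ℝ - ⟪p.1, V (P (n + 1))⟫_ℝ))
      - g n * ⟪p.1, V Z⟫_ℝ ^ 2
  hZ : ∀ p ∈ W, |Q p.2 p.2 (J Z)| ≤ (∑' n, g n) * ‖p.1‖ * |⟪p.1, V Z⟫_ℝ|
  ini : ∀ (F : Finset Md) (c : Md → ℝ), ∃ h : H, ∀ p ∈ W,
    Q (∑ i ∈ F, c i • J i) (∑ i ∈ F, c i • J i) p.2 = ⟪h, p.1⟫_ℝ

open Classical in
/-- the gradient of `v` (zero, if `v` has none) -/
noncomputable def gr (W : Submodule ℝ (H × K)) (v : H) : K :=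
  if h : ∃ z, (v, z) ∈ W then Classical.choose h else 0

/-- the quadratic term with the perturbation: `⟪mQ v, c⟫ = ⟪m v, c⟫ - Q (∇v) (∇v) c` -/
noncomputable def mQ (W : Submodule ℝ (H × K)) (m : H → K)
    (Q : K →L[ℝ] K →L[ℝ] K →L[ℝ] ℝ) (v : H) : K :=
  m v - (InnerProductSpace.toDual ℝ K).symm (Q (gr W v) (gr W v))

end abs

/-- the spherical shell -/
def shell : Set E3 := {x | 1 < ‖x‖ ∧ ‖x‖ < 2}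

/-- A field whose restriction to `Ω` is a normalised eigenfunction of the Stokes operator with the
eigenvalue `N ^ 2`, with bounds. -/
structure Field (Ω : Set E3) (A N : ℝ) (w : E3 → E3) : Prop where
  smooth : ContDiff ℝ ∞ w
  compact : HasCompactSupport w
  bd : ∀ x ∈ Ω, ‖w x‖ ≤ A
  bd1 : ∀ x ∈ Ω, ‖fderiv ℝ w x‖ ≤ A * N
  lap : ∀ x ∈ Ω, ∀ i, Pool.Agent.Y303.LV.lap w x i = -(N ^ 2) * w x i
  div : ∀ x ∈ Ω, ∑ i, jac w x (i, i) = 0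
  nrm : ∫ x in Ω, ‖w x‖ ^ 2 = 1
  gr : ∃ p ∈ graphW Ω, p.1 =ᵐ[volume.restrict Ω] w ∧ p.2 =ᵐ[volume.restrict Ω] jac w

/-- The form `∫_Ω v · (u · ∇) w`. -/
def IsB (Ω : Set E3) (w : E3 → E3) (β : L2V Ω →L[ℝ] L2V Ω →L[ℝ] ℝ) : Prop :=
  ∀ u v, β u v = ∫ x in Ω, ⟪fderiv ℝ w x (u x), v x⟫_ℝ

/-- `e₃ × x = (-x₁, x₀, 0)` -/
noncomputable def rot (x : E3) : E3 := WithLp.toLp 2 ![-x 1, x 0, 0]

/-- the toroidal field `g(|x|²) e₃ × x` -/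
noncomputable def tor (g : ℝ → ℝ) (x : E3) : E3 := g (‖x‖ ^ 2) • rot x

end Pool.Agent.T2H10.LO
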