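import Pool.Agent.T2H10.LO.Stm

/-!
Eigenfunctions of the Stokes operator in the shell, for all scales.
-/

set_option autoImplicit false
set_option maxSynthPendingDepth 3
set_option linter.unusedSectionVars false

open MeasureTheory Set Filter Topology
open scoped InnerProductSpace ENNReal ContDiff NNReal

namespace Pool.Agent.T2H10.LO

open H772R2.NS
open Pool.Agent.T2H10 (Md)
open Pool.Agent.T2H10.Md

theorem fields (h1 : S_tor) (h2 : S_prof) (h3 : S_mem) (h4 : S_rad) :
    ∃ A : ℝ, 1 ≤ A ∧ ∀ M : ℝ, 10 ≤ M → ∃ N ∈ Icc M (M + 5), ∃ w : E3 → E3,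
      Field shell A N w ∧ ∀ x, ‖x‖ = 1 ∨ ‖x‖ = 2 → w x = 0 := by
  obtain ⟨c, A, hc, hA, hall⟩ := h2
  have hpi := Real.pi_pos
  set D : ℝ := √(8 * Real.pi / 3 * c) with hD
  have hD0 : 0 < D := Real.sqrt_pos.mpr (by positivity)
  have hA1 : 0 < A / D := by positivity
  refine ⟨max 1 (9 * (A / D)), le_max_left _ _, fun M hM => ?_⟩
  obtain ⟨k, hk, g, g1, g2, g3, g4, g5, g6⟩ := hall M hM
  have hk10 : 10 ≤ k := hM.trans hk.1
  have hk0 : 0 < k := by linarith
  set I : ℝ := 8 * Real.pi / 3 * ∫ r in (1 : ℝ)..2, g (r ^ 2) ^ 2 * r ^ 4 with hI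
  have hI1 : (D * k) ^ 2 ≤ I := by
    rw [mul_pow, hD, Real.sq_sqrt (by positivity), hI, mul_assoc]
    gcongr
  have hI0 : 0 < I := lt_of_lt_of_le (by positivity) hI1
  set l : ℝ := 1 / √I with hl
  have hsI : 0 < √I := Real.sqrt_pos.mpr hI0
  have hl0 : 0 < l := by positivity
  have hDk : D * k ≤ √I := Real.le_sqrt_of_sq_le hI1
  have hlk : l ≤ 1 / (D * k) := one_div_le_one_div_of_le (by positivity) hDk
  set G : ℝ → ℝ := fun s => l * g s with hG
  have hGs : ContDiff ℝ ∞ G := contDiff_const.mul g1
  have hGd : ∀ s, deriv G s = l * deriv g s := fun s => by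
    rw [hG, deriv_const_mul _ (g1.differentiable (by simp) s)]
  have hGd' : deriv G = fun s => l * deriv g s := funext hGd
  have hGdd : ∀ s, deriv (deriv G) s = l * deriv (deriv g) s := fun s => by
    rw [hGd', deriv_const_mul]
    have : ContDiff ℝ ∞ (deriv g) := by
      have := (contDiff_infty_iff_deriv.mp g1).2
      exact this
    exact this.differentiable (by simp) s
  have hGb : ∀ s ∈ Icc (1 : ℝ) 4, |G s| ≤ A / D := by
    intro s hs
    rw [hG]
    simp only
    rw [abs_mul, abs_of_pos hl0]
    calc l * |g s| ≤ 1 / (D * k) * (A * k) := by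
          have := (g5 s hs).1
          gcongr
      _ = A / D := by field_simp
  have hGb1 : ∀ s ∈ Icc (1 : ℝ) 4, |deriv G s| ≤ A / D * k := by
    intro s hs
    rw [hGd, abs_mul, abs_of_pos hl0]
    calc l * |deriv g s| ≤ 1 / (D * k) * (A * k ^ 2) := by
          have := (g5 s hs).2.1
          gcongr
      _ = A / D * k := by field_simp
  obtain ⟨t1, t2, t3, t4, t5, t6⟩ := h1 G hGs
  have hsh : ∀ x ∈ shell, ‖x‖ ^ 2 ∈ Icc (1 : ℝ) 4 := by
    intro x hx
    obtain ⟨hx1, hx2⟩ := hx
    constructor <;> nlinarith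
  refine ⟨k, hk, tor G, ⟨t1, t2 fun s hs => ?_, ?_, ?_, ?_, fun x _ => t5 x, ?_, ?_⟩, ?_⟩
  · rw [hG]; simp [g2 s hs]
  · intro x hx
    have k1 := hGb _ (hsh x hx)
    have k2 := t3 x
    have k3 := hx.2.le
    have k4 : |G (‖x‖ ^ 2)| * ‖x‖ ≤ A / D * 2 := by gcongr
    refine k2.trans (k4.trans ?_)
    refine le_trans ?_ (le_max_right _ _)
    linarith
  · intro x hx
    have k1 := hGb _ (hsh x hx)
    have k2 := hGb1 _ (hsh x hx)
    have k3 := t4 x
    have k4 : ‖x‖ ^ 2 ≤ 4 := (hsh x hx).2
    have k5 : 2 * |deriv G (‖x‖ ^ 2)| * ‖x‖ ^ 2 ≤ 2 * (A / D * k) * 4 := by gcongr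
    have k6 : |G (‖x‖ ^ 2)| + 2 * |deriv G (‖x‖ ^ 2)| * ‖x‖ ^ 2 ≤ 9 * (A / D) * k := by
      nlinarith
    refine k3.trans (k6.trans ?_)
    have := le_max_right 1 (9 * (A / D))
    gcongr
  · intro x hx i
    rw [t6]
    have k1 := (g5 _ (hsh x hx)).2.2
    have e : 10 * deriv G (‖x‖ ^ 2) + 4 * ‖x‖ ^ 2 * deriv (deriv G) (‖x‖ ^ 2)
        = l * (10 * deriv g (‖x‖ ^ 2) + 4 * ‖x‖ ^ 2 * deriv (deriv g) (‖x‖ ^ 2)) := by
      rw [hGd, hGdd]; ring
    rw [e, k1]
    simp only [tor, PiLp.smul_apply, smul_eq_mul, hG]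
    ring
  · rw [h4 G hGs]
    have e : ∫ r in (1 : ℝ)..2, G (r ^ 2) ^ 2 * r ^ 4
        = l ^ 2 * ∫ r in (1 : ℝ)..2, g (r ^ 2) ^ 2 * r ^ 4 := by
      rw [← intervalIntegral.integral_const_mul]
      refine intervalIntegral.integral_congr fun r _ => ?_
      simp only [hG]
      ring
    rw [e]
    have e2 : 8 * Real.pi / 3 * (l ^ 2 * ∫ r in (1 : ℝ)..2, g (r ^ 2) ^ 2 * r ^ 4) = l ^ 2 * I := by
      rw [hI]; ring
    rw [e2, hl, div_pow, one_pow, Real.sq_sqrt hI0.le]
    field_simp
  · exact h3 G hGs (by simp [hG, g3]) (by simp [hG, g4])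
  · intro x hx
    have : G (‖x‖ ^ 2) = 0 := by
      rcases hx with h | h
      · rw [h]; simp [hG, g3]
      · rw [h]
        have : (2 : ℝ) ^ 2 = 4 := by norm_num
        rw [this]
        simp [hG, g4]
    simp [tor, this]

theorem shell_open : IsOpen shell :=
  (isOpen_lt continuous_const continuous_norm).inter (isOpen_lt continuous_norm continuous_const)

theorem shell_bdd : Bornology.IsBounded shell := by
  refine Metric.isBounded_ball (x := (0 : E3)) (r := 2) |>.subset fun x hx => ?_
  rw [mem_ball_zero_iff]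
  exact hx.2

/-- the scales -/
structure Scale (M0 R : ℝ) (N : Md → ℝ) : Prop where
  P1 : ∀ n, M0 * R ^ n ≤ N (P n)
  P2 : ∀ n, N (P n) ≤ 2 * (M0 * R ^ n)
  S1 : ∀ n, M0 * R ^ n ≤ N (S n)
  S2 : ∀ n, N (S n) ≤ 2 * (M0 * R ^ n)
  Z1 : M0 ≤ N Z
  Z2 : N Z ≤ 2 * M0
  ne : ∀ i j, i ≠ j → N i ≠ N j

theorem family {A : ℝ} (h : ∀ M : ℝ, 10 ≤ M → ∃ N ∈ Icc M (M + 5), ∃ w : E3 → E3,
      Field shell A N w ∧ ∀ x, ‖x‖ = 1 ∨ ‖x‖ = 2 → w x = 0) {M0 R : ℝ} (hM : 20 ≤ M0)
    (hR : 4 ≤ R) : ∃ (N : Md → ℝ) (w : Md → E3 → E3), Scale M0 R N ∧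
      (∀ i, Field shell A (N i) (w i)) ∧ ∀ i x, ‖x‖ = 1 ∨ ‖x‖ = 2 → w i x = 0 := by
  have hRn : ∀ n, M0 ≤ M0 * R ^ n := fun n => by
    have : 1 ≤ R ^ n := one_le_pow₀ (by linarith)
    nlinarith
  set s : Md → ℝ := fun i => match i with
    | P n => M0 * R ^ n
    | S n => M0 * R ^ n + 6
    | Z => M0 + 12 with hs
  have hs10 : ∀ i, 10 ≤ s i := by
    intro i
    cases i with
    | P n => have := hRn n; simp only [hs]; linarith
    | S n => have := hRn n; simp only [hs]; linarith
    | Z => simp only [hs]; linarith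
  choose N hN w hw hw0 using fun i => h (s i) (hs10 i)
  have hstep : ∀ n m, n < m → M0 * R ^ n + 60 ≤ M0 * R ^ m := by
    intro n m hnm
    have h1 : R ^ (n + 1) ≤ R ^ m := pow_le_pow_right₀ (by linarith) hnm
    have h2 : M0 * R ^ (n + 1) ≤ M0 * R ^ m := by gcongr
    have h3 : R ^ (n + 1) = R * R ^ n := by ring
    rw [h3] at h2
    have h4 := hRn n
    nlinarith
  have hsep : ∀ i j, s i + 6 ≤ s j → N i ≠ N j := by
    intro i j hij
    have h1 := (hN i).2
    have h2 := (hN j).1
    intro h3
    rw [h3] at h1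
    linarith
  refine ⟨N, w, ⟨?_, ?_, ?_, ?_, ?_, ?_, ?_⟩, hw, hw0⟩
  · intro n; exact (hN (P n)).1
  · intro n
    have h1 := (hN (P n)).2
    have h2 := hRn n
    simp only [hs] at h1
    linarith
  · intro n
    have h1 := (hN (S n)).1
    simp only [hs] at h1
    linarith
  · intro n
    have h1 := (hN (S n)).2
    have h2 := hRn n
    simp only [hs] at h1
    linarith
  · have h1 := (hN Z).1
    simp only [hs] at h1
    linarith
  · have h1 := (hN Z).2
    simp only [hs] at h1
    linarith
  · intro i j hij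
    cases i with
    | P n =>
      cases j with
      | P m =>
        rcases lt_trichotomy n m with h1 | h1 | h1
        · exact hsep _ _ (by simp only [hs]; have := hstep n m h1; linarith)
        · exact absurd (by rw [h1]) hij
        · exact (hsep _ _ (by simp only [hs]; have := hstep m n h1; linarith)).symm
      | S m =>
        rcases lt_or_ge m n with h1 | h1
        · exact (hsep _ _ (by simp only [hs]; have := hstep m n h1; linarith)).symm
        · refine hsep _ _ ?_
          simp only [hs]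
          rcases h1.eq_or_lt with h2 | h2
          · rw [h2]
          · have := hstep n m h2; linarith
      | Z =>
        rcases Nat.eq_zero_or_pos n with h1 | h1
        · refine hsep _ _ ?_
          simp only [hs, h1, pow_zero, mul_one]
          linarith
        · refine (hsep _ _ ?_).symm
          simp only [hs]
          have := hstep 0 n h1
          simp only [pow_zero, mul_one] at this
          linarith
    | S n =>
      cases j with
      | P m =>
        rcases lt_or_ge n m with h1 | h1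
        · exact hsep _ _ (by simp only [hs]; have := hstep n m h1; linarith)
        · refine (hsep _ _ ?_).symm
          simp only [hs]
          rcases h1.eq_or_lt with h2 | h2
          · rw [h2]
          · have := hstep m n h2; linarith
      | S m =>
        rcases lt_trichotomy n m with h1 | h1 | h1
        · exact hsep _ _ (by simp only [hs]; have := hstep n m h1; linarith)
        · exact absurd (by rw [h1]) hij
        · exact (hsep _ _ (by simp only [hs]; have := hstep m n h1; linarith)).symm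
      | Z =>
        rcases Nat.eq_zero_or_pos n with h1 | h1
        · refine hsep _ _ ?_
          simp only [hs, h1, pow_zero, mul_one]
          linarith
        · refine (hsep _ _ ?_).symm
          simp only [hs]
          have := hstep 0 n h1
          simp only [pow_zero, mul_one] at this
          linarith
    | Z =>
      cases j with
      | P m =>
        rcases Nat.eq_zero_or_pos m with h1 | h1
        · refine (hsep _ _ ?_).symm
          simp only [hs, h1, pow_zero, mul_one]
          linarith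
        · refine hsep _ _ ?_
          simp only [hs]
          have := hstep 0 m h1
          simp only [pow_zero, mul_one] at this
          linarith
      | S m =>
        rcases Nat.eq_zero_or_pos m with h1 | h1
        · refine (hsep _ _ ?_).symm
          simp only [hs, h1, pow_zero, mul_one]
          linarith
        · refine hsep _ _ ?_
          simp only [hs]
          have := hstep 0 m h1
          simp only [pow_zero, mul_one] at this
          linarith
      | Z => exact absurd rfl hij

end Pool.Agent.T2H10.LO
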