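import Pool.Agent.T2H10.LO.Stm

/-!
Toroidal fields which vanish on the boundary of the shell are in the space `H¹₀,σ`: cut-offs.
-/

set_option autoImplicit false
set_option maxSynthPendingDepth 3

open MeasureTheory Set Filter Topology
open scoped InnerProductSpace ENNReal ContDiff NNReal

namespace Pool.Agent.T2H10.LO

open H772R2.NS

namespace PkgMem

theorem T_deriv_zero_of_neg {x : ℝ} (hx : x < 0) : deriv Real.smoothTransition x = 0 := by
  have h : Real.smoothTransition =ᶠ[𝓝 x] fun _ => (0 : ℝ) := by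
    filter_upwards [Iio_mem_nhds hx] with y hy
    exact Real.smoothTransition.zero_of_nonpos (le_of_lt hy)
  rw [h.deriv_eq]
  simp

theorem T_deriv_zero_of_gt {x : ℝ} (hx : 1 < x) : deriv Real.smoothTransition x = 0 := by
  have h : Real.smoothTransition =ᶠ[𝓝 x] fun _ => (1 : ℝ) := by
    filter_upwards [Ioi_mem_nhds hx] with y hy
    exact Real.smoothTransition.one_of_one_le (le_of_lt hy)
  rw [h.deriv_eq]
  simp

theorem T_smooth : ContDiff ℝ ∞ Real.smoothTransition := Real.smoothTransition.contDiff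

theorem T_bd : ∃ C : ℝ, 0 ≤ C ∧ ∀ x, |deriv Real.smoothTransition x| ≤ C := by
  have hc : Continuous (deriv Real.smoothTransition) := T_smooth.continuous_deriv (by simp)
  obtain ⟨C, hC⟩ := (isCompact_Icc (a := (0 : ℝ)) (b := 1)).exists_bound_of_continuousOn
    hc.continuousOn
  refine ⟨max C 0, le_max_right _ _, fun x => ?_⟩
  by_cases hx : x ∈ Icc (0 : ℝ) 1
  · exact (hC x hx).trans (le_max_left _ _)
  · have h0 : deriv Real.smoothTransition x = 0 := by
      rw [mem_Icc, not_and_or, not_le, not_le] at hx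
      rcases hx with hx | hx
      · exact T_deriv_zero_of_neg hx
      · exact T_deriv_zero_of_gt hx
    rw [h0, abs_zero]
    exact le_max_right _ _

/-- the cut-off -/
noncomputable def cut (n : ℕ) (s : ℝ) : ℝ :=
  Real.smoothTransition (n * (s - 1) - 1) * Real.smoothTransition (n * (4 - s) - 1)

/-- the derivative of the cut-off -/
noncomputable def cut' (n : ℕ) (s : ℝ) : ℝ :=
  n * deriv Real.smoothTransition (n * (s - 1) - 1) * Real.smoothTransition (n * (4 - s) - 1)
  - Real.smoothTransition (n * (s - 1) - 1) * (n * deriv Real.smoothTransition (n * (4 - s) - 1))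

theorem cut_smooth (n : ℕ) : ContDiff ℝ ∞ (cut n) := by
  unfold cut
  refine (T_smooth.comp ?_).mul (T_smooth.comp ?_)
  · exact (contDiff_const.mul (contDiff_id.sub contDiff_const)).sub contDiff_const
  · exact (contDiff_const.mul (contDiff_const.sub contDiff_id)).sub contDiff_const

theorem cut_hasDeriv (n : ℕ) (s : ℝ) : HasDerivAt (cut n) (cut' n s) s := by
  have hT : ∀ y, HasDerivAt Real.smoothTransition (deriv Real.smoothTransition y) y := fun y =>
    ((T_smooth.differentiable (by simp)) y).hasDerivAt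
  have h1 : HasDerivAt (fun s : ℝ => (n : ℝ) * (s - 1) - 1) (n * 1) s :=
    (((hasDerivAt_id s).sub_const 1).const_mul (n : ℝ)).sub_const 1
  have h2 : HasDerivAt (fun s : ℝ => (n : ℝ) * (4 - s) - 1) (n * (-1)) s :=
    (((hasDerivAt_id s).const_sub 4).const_mul (n : ℝ)).sub_const 1
  have h3 := ((hT (n * (s - 1) - 1)).comp s h1).mul ((hT (n * (4 - s) - 1)).comp s h2)
  refine h3.congr_deriv ?_
  unfold cut'
  simp only [Function.comp]
  ring

theorem cut_nonneg (n : ℕ) (s : ℝ) : 0 ≤ cut n s :=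
  mul_nonneg (Real.smoothTransition.nonneg _) (Real.smoothTransition.nonneg _)

theorem cut_le_one (n : ℕ) (s : ℝ) : cut n s ≤ 1 :=
  mul_le_one₀ (Real.smoothTransition.le_one _) (Real.smoothTransition.nonneg _)
    (Real.smoothTransition.le_one _)

theorem cut_zero_left {n : ℕ} {s : ℝ} (h : n * (s - 1) ≤ 1) : cut n s = 0 := by
  unfold cut
  rw [Real.smoothTransition.zero_of_nonpos (by linarith), zero_mul]

theorem cut_zero_right {n : ℕ} {s : ℝ} (h : n * (4 - s) ≤ 1) : cut n s = 0 := by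
  unfold cut
  rw [Real.smoothTransition.zero_of_nonpos (x := n * (4 - s) - 1) (by linarith), mul_zero]

theorem cut_one {n : ℕ} {s : ℝ} (h1 : 2 ≤ n * (s - 1)) (h2 : 2 ≤ n * (4 - s)) : cut n s = 1 := by
  unfold cut
  rw [Real.smoothTransition.one_of_one_le (by linarith),
    Real.smoothTransition.one_of_one_le (by linarith), mul_one]

theorem cut'_zero {n : ℕ} {s : ℝ} (h1 : 2 < n * (s - 1)) (h2 : 2 < n * (4 - s)) :
    cut' n s = 0 := by
  unfold cut'
  rw [T_deriv_zero_of_gt (by linarith), T_deriv_zero_of_gt (by linarith)]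
  ring

theorem cut'_bd {C : ℝ} (hC0 : 0 ≤ C) (hC : ∀ x, |deriv Real.smoothTransition x| ≤ C) {L : ℝ}
    (hL : 0 ≤ L) {s y : ℝ} (hs : s ∈ Icc (1 : ℝ) 4) (h1 : |y| ≤ L * (s - 1))
    (h4 : |y| ≤ L * (4 - s)) (n : ℕ) : |cut' n s * y| ≤ 4 * (C * L) := by
  have key : ∀ r : ℝ, 0 ≤ r → |y| ≤ L * r →
      |n * deriv Real.smoothTransition (n * r - 1)| * |y| ≤ 2 * (C * L) := by
    intro r hr hy
    by_cases h : 1 < n * r - 1
    · rw [T_deriv_zero_of_gt h, mul_zero, abs_zero, zero_mul]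
      positivity
    · push Not at h
      have hn : (0 : ℝ) ≤ n := Nat.cast_nonneg n
      rw [abs_mul, abs_of_nonneg hn]
      calc n * |deriv Real.smoothTransition (n * r - 1)| * |y|
          ≤ n * C * (L * r) := by gcongr; exact hC _
        _ = (n * r) * (C * L) := by ring
        _ ≤ 2 * (C * L) := by
            refine mul_le_mul_of_nonneg_right (by linarith) (by positivity)
  have k1 := key (s - 1) (by linarith [hs.1]) h1
  have k2 := key (4 - s) (by linarith [hs.2]) h4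
  have t1 : |Real.smoothTransition (n * (4 - s) - 1)| ≤ 1 := by
    rw [abs_of_nonneg (Real.smoothTransition.nonneg _)]
    exact Real.smoothTransition.le_one _
  have t2 : |Real.smoothTransition (n * (s - 1) - 1)| ≤ 1 := by
    rw [abs_of_nonneg (Real.smoothTransition.nonneg _)]
    exact Real.smoothTransition.le_one _
  unfold cut'
  rw [sub_mul]
  refine (abs_sub _ _).trans ?_
  have e1 : |n * deriv Real.smoothTransition (n * (s - 1) - 1)
      * Real.smoothTransition (n * (4 - s) - 1) * y| ≤ 2 * (C * L) := by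
    rw [abs_mul, abs_mul]
    calc |n * deriv Real.smoothTransition (n * (s - 1) - 1)|
          * |Real.smoothTransition (n * (4 - s) - 1)| * |y|
        ≤ |n * deriv Real.smoothTransition (n * (s - 1) - 1)| * 1 * |y| := by gcongr
      _ ≤ 2 * (C * L) := by rw [mul_one]; exact k1
  have e2 : |Real.smoothTransition (n * (s - 1) - 1)
      * (n * deriv Real.smoothTransition (n * (4 - s) - 1)) * y| ≤ 2 * (C * L) := by
    rw [abs_mul, abs_mul]
    calc |Real.smoothTransition (n * (s - 1) - 1)|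
          * |n * deriv Real.smoothTransition (n * (4 - s) - 1)| * |y|
        ≤ 1 * |n * deriv Real.smoothTransition (n * (4 - s) - 1)| * |y| := by gcongr
      _ ≤ 2 * (C * L) := by rw [one_mul]; exact k2
  linarith

/-- the Jacobian is bounded by the derivative -/
theorem norm_jac_le {φ : E3 → E3} (x : E3) : ‖jac φ x‖ ≤ 3 * ‖fderiv ℝ φ x‖ := by
  have h1 : ∀ p : Fin 3 × Fin 3, |jac φ x p| ≤ ‖fderiv ℝ φ x‖ := by
    intro p
    rw [jac_apply]
    calc |fderiv ℝ φ x (ev p.2) p.1| ≤ ‖fderiv ℝ φ x (ev p.2)‖ := by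
          simpa using PiLp.norm_apply_le (fderiv ℝ φ x (ev p.2)) p.1
      _ ≤ ‖fderiv ℝ φ x‖ * ‖ev p.2‖ := (fderiv ℝ φ x).le_opNorm _
      _ = ‖fderiv ℝ φ x‖ := by simp
  have h2 : ‖jac φ x‖ ^ 2 ≤ (3 * ‖fderiv ℝ φ x‖) ^ 2 := by
    rw [norm_sq_M3]
    calc ∑ i, ∑ j, jac φ x (i, j) ^ 2 ≤ ∑ i : Fin 3, ∑ j : Fin 3, ‖fderiv ℝ φ x‖ ^ 2 := by
          refine Finset.sum_le_sum (fun i _ => Finset.sum_le_sum (fun j _ => ?_))
          rw [← sq_abs]
          exact pow_le_pow_left₀ (abs_nonneg _) (h1 _) 2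
      _ = (3 * ‖fderiv ℝ φ x‖) ^ 2 := by
          simp
          ring
  exact (pow_le_pow_iff_left₀ (norm_nonneg _) (by positivity) (by norm_num)).mp h2

/-- the difference of the functions -/
noncomputable def dif (g : ℝ → ℝ) (n : ℕ) (s : ℝ) : ℝ := (cut n s - 1) * g s

/-- the function with the cut-off -/
noncomputable def gc (g : ℝ → ℝ) (n : ℕ) (s : ℝ) : ℝ := cut n s * g s

theorem dif_smooth {g : ℝ → ℝ} (hg : ContDiff ℝ ∞ g) (n : ℕ) : ContDiff ℝ ∞ (dif g n) :=
  ((cut_smooth n).sub contDiff_const).mul hg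

theorem gc_smooth {g : ℝ → ℝ} (hg : ContDiff ℝ ∞ g) (n : ℕ) : ContDiff ℝ ∞ (gc g n) :=
  (cut_smooth n).mul hg

theorem dif_deriv {g : ℝ → ℝ} (hg : ContDiff ℝ ∞ g) (n : ℕ) (s : ℝ) :
    deriv (dif g n) s = cut' n s * g s + (cut n s - 1) * deriv g s := by
  have h1 : HasDerivAt (fun s => cut n s - 1) (cut' n s) s := (cut_hasDeriv n s).sub_const 1
  have h2 : HasDerivAt g (deriv g s) s := ((hg.differentiable (by simp)) s).hasDerivAt
  exact (h1.mul h2).deriv

theorem tor_gc (g : ℝ → ℝ) (n : ℕ) : tor (gc g n) = tor (dif g n) + tor g := by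
  funext x
  simp only [tor, gc, dif, Pi.add_apply]
  rw [← add_smul]
  congr 1
  ring

theorem tor_sub (g : ℝ → ℝ) (n : ℕ) : tor (gc g n) - tor g = tor (dif g n) := by
  rw [tor_gc]
  abel

theorem jac_sub (h : S_tor) {g : ℝ → ℝ} (hg : ContDiff ℝ ∞ g) (n : ℕ) :
    jac (tor (gc g n)) - jac (tor g) = jac (tor (dif g n)) := by
  funext x
  rw [tor_gc, Pi.sub_apply, jac_add (h _ (dif_smooth hg n)).1 (h _ hg).1]
  abel

theorem shell_sq {x : E3} (hx : x ∈ shell) : 1 < ‖x‖ ^ 2 ∧ ‖x‖ ^ 2 < 4 := by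
  obtain ⟨h1, h2⟩ := hx
  constructor <;> nlinarith [norm_nonneg x]

theorem shell_meas : MeasurableSet shell := by
  unfold shell
  exact (measurableSet_lt measurable_const measurable_norm).inter
    (measurableSet_lt measurable_norm measurable_const)

theorem shell_fin : IsFiniteMeasure ((volume : Measure E3).restrict shell) := by
  refine ⟨?_⟩
  rw [Measure.restrict_apply_univ]
  have hsub : shell ⊆ Metric.ball (0 : E3) 2 := by
    intro x hx
    rw [mem_ball_zero_iff]
    exact hx.2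
  exact (measure_mono hsub).trans_lt measure_ball_lt_top

/-- the bounds for the difference -/
theorem dif_bd (h : S_tor) {g : ℝ → ℝ} (hg : ContDiff ℝ ∞ g) (h1 : g 1 = 0) (h4 : g 4 = 0) :
    ∃ K : ℝ, 0 ≤ K ∧ ∀ n : ℕ, ∀ x ∈ shell,
      ‖tor (dif g n) x‖ ≤ K ∧ ‖jac (tor (dif g n)) x‖ ≤ K := by
  obtain ⟨C, hC0, hC⟩ := T_bd
  have hc' : Continuous (deriv g) := hg.continuous_deriv (by simp)
  obtain ⟨L0, hL0⟩ := (isCompact_Icc (a := (1 : ℝ)) (b := 4)).exists_bound_of_continuousOn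
    hc'.continuousOn
  obtain ⟨L, hL, hLd⟩ : ∃ L : ℝ, 0 ≤ L ∧ ∀ s ∈ Icc (1 : ℝ) 4, |deriv g s| ≤ L :=
    ⟨max L0 0, le_max_right _ _, fun s hs => (hL0 s hs).trans (le_max_left _ _)⟩
  have hlip : ∀ s ∈ Icc (1 : ℝ) 4, ∀ t ∈ Icc (1 : ℝ) 4, |g t - g s| ≤ L * |t - s| := by
    intro s hs t ht
    have := (convex_Icc (1 : ℝ) 4).norm_image_sub_le_of_norm_deriv_le (f := g) (C := L)
      (fun x _ => (hg.differentiable (by simp)) x) (fun x hx => hLd x hx) hs ht
    simpa using this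
  have hg1 : ∀ s ∈ Icc (1 : ℝ) 4, |g s| ≤ L * (s - 1) := by
    intro s hs
    have := hlip 1 ⟨le_refl _, by norm_num⟩ s hs
    rwa [h1, sub_zero, abs_of_nonneg (by linarith [hs.1] : (0 : ℝ) ≤ s - 1)] at this
  have hg4 : ∀ s ∈ Icc (1 : ℝ) 4, |g s| ≤ L * (4 - s) := by
    intro s hs
    have := hlip s hs 4 ⟨by norm_num, le_refl _⟩
    rwa [h4, zero_sub, abs_neg, abs_of_nonneg (by linarith [hs.2] : (0 : ℝ) ≤ 4 - s)] at this
  refine ⟨3 * (3 * L + 2 * (4 * (C * L) + L) * 4), by positivity, fun n x hx => ?_⟩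
  obtain ⟨hx1, hx2⟩ := shell_sq hx
  have hsI : ‖x‖ ^ 2 ∈ Icc (1 : ℝ) 4 := ⟨hx1.le, hx2.le⟩
  have hcut : |cut n (‖x‖ ^ 2) - 1| ≤ 1 := by
    rw [abs_le]
    constructor <;> linarith [cut_nonneg n (‖x‖ ^ 2), cut_le_one n (‖x‖ ^ 2)]
  have hgL : |g (‖x‖ ^ 2)| ≤ 3 * L := by
    refine (hg1 _ hsI).trans ?_
    nlinarith
  have hd : |dif g n (‖x‖ ^ 2)| ≤ 3 * L := by
    unfold dif
    rw [abs_mul]
    calc |cut n (‖x‖ ^ 2) - 1| * |g (‖x‖ ^ 2)| ≤ 1 * (3 * L) := by gcongr
      _ = 3 * L := one_mul _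
  have hd' : |deriv (dif g n) (‖x‖ ^ 2)| ≤ 4 * (C * L) + L := by
    rw [dif_deriv hg]
    refine (abs_add_le _ _).trans (add_le_add ?_ ?_)
    · exact cut'_bd hC0 hC hL hsI (hg1 _ hsI) (hg4 _ hsI) n
    · rw [abs_mul]
      calc |cut n (‖x‖ ^ 2) - 1| * |deriv g (‖x‖ ^ 2)| ≤ 1 * L := by
            gcongr
            exact hLd _ hsI
        _ = L := one_mul _
  obtain ⟨-, -, t1, t2, -, -⟩ := h _ (dif_smooth hg n)
  have hx2' : ‖x‖ ≤ 2 := hx.2.le
  constructor
  · calc ‖tor (dif g n) x‖ ≤ |dif g n (‖x‖ ^ 2)| * ‖x‖ := t1 x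
      _ ≤ (3 * L) * 2 := by gcongr
      _ ≤ _ := by nlinarith [mul_nonneg hC0 hL]
  · refine (norm_jac_le x).trans ?_
    gcongr
    calc ‖fderiv ℝ (tor (dif g n)) x‖
        ≤ |dif g n (‖x‖ ^ 2)| + 2 * |deriv (dif g n) (‖x‖ ^ 2)| * ‖x‖ ^ 2 := t2 x
      _ ≤ 3 * L + 2 * (4 * (C * L) + L) * 4 := by gcongr

/-- pointwise, the difference is eventually zero -/
theorem dif_ev (h : S_tor) {g : ℝ → ℝ} (hg : ContDiff ℝ ∞ g) {x : E3} (hx : x ∈ shell) :
    ∀ᶠ n : ℕ in atTop, tor (dif g n) x = 0 ∧ jac (tor (dif g n)) x = 0 := by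
  obtain ⟨hx1, hx2⟩ := shell_sq hx
  have e1 : ∀ᶠ n : ℕ in atTop, 2 < (n : ℝ) * (‖x‖ ^ 2 - 1) := by
    have : Tendsto (fun n : ℕ => (n : ℝ) * (‖x‖ ^ 2 - 1)) atTop atTop :=
      tendsto_natCast_atTop_atTop.atTop_mul_const (by linarith)
    exact this.eventually_gt_atTop 2
  have e2 : ∀ᶠ n : ℕ in atTop, 2 < (n : ℝ) * (4 - ‖x‖ ^ 2) := by
    have : Tendsto (fun n : ℕ => (n : ℝ) * (4 - ‖x‖ ^ 2)) atTop atTop :=
      tendsto_natCast_atTop_atTop.atTop_mul_const (by linarith)
    exact this.eventually_gt_atTop 2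
  filter_upwards [e1, e2] with n h1 h2
  have hd : dif g n (‖x‖ ^ 2) = 0 := by
    unfold dif
    rw [cut_one h1.le h2.le, sub_self, zero_mul]
  have hd' : deriv (dif g n) (‖x‖ ^ 2) = 0 := by
    rw [dif_deriv hg, cut_one h1.le h2.le, cut'_zero h1 h2]
    ring
  obtain ⟨-, -, t1, t2, -, -⟩ := h _ (dif_smooth hg n)
  constructor
  · have := t1 x
    rw [hd, abs_zero, zero_mul] at this
    exact norm_le_zero_iff.mp this
  · have h3 := t2 x
    rw [hd, hd', abs_zero, mul_zero, zero_mul, add_zero] at h3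
    have h4 := (norm_jac_le (φ := tor (dif g n)) x).trans
      (mul_le_mul_of_nonneg_left h3 (by norm_num : (0 : ℝ) ≤ 3))
    rw [mul_zero] at h4
    exact norm_le_zero_iff.mp h4

theorem test (h : S_tor) {g : ℝ → ℝ} (hg : ContDiff ℝ ∞ g) (n : ℕ) :
    IsTest shell (tor (gc g n)) := by
  obtain ⟨t1, t2, -, -, t5, -⟩ := h _ (gc_smooth hg n)
  refine ⟨t1, t2 ?_, ?_, t5⟩
  · intro s hs
    unfold gc
    rw [cut_zero_right, zero_mul]
    have : (n : ℝ) * (4 - s) ≤ 0 :=
      mul_nonpos_of_nonneg_of_nonpos (Nat.cast_nonneg n) (by linarith)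
    linarith
  · have hsub : tsupport (tor (gc g n)) ⊆
        {x : E3 | 1 ≤ (n : ℝ) * (‖x‖ ^ 2 - 1) ∧ 1 ≤ (n : ℝ) * (4 - ‖x‖ ^ 2)} := by
      refine closure_minimal ?_ ?_
      · intro x hx
        by_contra hcon
        apply hx
        rw [mem_ofPred_eq, not_and_or, not_le, not_le] at hcon
        have : cut n (‖x‖ ^ 2) = 0 := by
          rcases hcon with hc | hc
          · exact cut_zero_left hc.le
          · exact cut_zero_right hc.le
        simp [tor, gc, this]
      · have q1 : Continuous fun x : E3 => (n : ℝ) * (‖x‖ ^ 2 - 1) := by fun_prop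
        have q2 : Continuous fun x : E3 => (n : ℝ) * (4 - ‖x‖ ^ 2) := by fun_prop
        exact (isClosed_le continuous_const q1).inter (isClosed_le continuous_const q2)
    intro x hx
    obtain ⟨h1, h2⟩ := hsub hx
    have hn : (0 : ℝ) ≤ n := Nat.cast_nonneg n
    have h3 : 0 < ‖x‖ ^ 2 - 1 := by
      by_contra hcon
      push Not at hcon
      have := mul_nonpos_of_nonneg_of_nonpos hn hcon
      linarith
    have h4 : 0 < 4 - ‖x‖ ^ 2 := by
      by_contra hcon
      push Not at hcon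
      have := mul_nonpos_of_nonneg_of_nonpos hn hcon
      linarith
    exact ⟨by nlinarith [norm_nonneg x], by nlinarith [norm_nonneg x]⟩

/-- dominated convergence -/
theorem conv {X : Type} [NormedAddCommGroup X] {f : ℕ → E3 → X}
    (hm : ∀ n, AEStronglyMeasurable (f n) (volume.restrict shell)) {K : ℝ}
    (hK : ∀ n, ∀ x ∈ shell, ‖f n x‖ ≤ K) (hz : ∀ x ∈ shell, ∀ᶠ n in atTop, f n x = 0) :
    Tendsto (fun n => eLpNorm (f n) 2 (volume.restrict shell)) atTop (𝓝 0) := by
  have := shell_fin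
  have h1 : Tendsto (fun n => ∫⁻ x in shell, ‖f n x‖ₑ ^ (2 : ℝ)) atTop
      (𝓝 (∫⁻ x in shell, (0 : ℝ≥0∞))) := by
    refine tendsto_lintegral_of_dominated_convergence' (fun _ => ENNReal.ofReal K ^ (2 : ℝ))
      (fun n => (hm n).enorm.pow_const _) ?_ ?_ ?_
    · intro n
      filter_upwards [ae_restrict_mem shell_meas] with x hx
      gcongr
      rw [← ofReal_norm]
      exact ENNReal.ofReal_le_ofReal (hK n x hx)
    · rw [lintegral_const]
      exact ENNReal.mul_ne_top (ENNReal.rpow_ne_top_of_nonneg (by norm_num) ENNReal.ofReal_ne_top)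
        (measure_ne_top _ _)
    · filter_upwards [ae_restrict_mem shell_meas] with x hx
      refine tendsto_const_nhds.congr' ?_
      filter_upwards [hz x hx] with n hn
      rw [hn, enorm_zero, ENNReal.zero_rpow_of_pos (by norm_num)]
  rw [lintegral_zero] at h1
  have h2 : Tendsto (fun n => (∫⁻ x in shell, ‖f n x‖ₑ ^ (2 : ℝ)) ^ ((1 : ℝ) / 2)) atTop
      (𝓝 ((0 : ℝ≥0∞) ^ ((1 : ℝ) / 2))) :=
    (ENNReal.continuous_rpow_const.tendsto 0).comp h1
  rw [ENNReal.zero_rpow_of_pos (by norm_num)] at h2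
  refine h2.congr (fun n => ?_)
  rw [eLpNorm_eq_lintegral_rpow_enorm_toReal (by norm_num) (by norm_num)]
  norm_num

theorem memLp_cont {X : Type} [NormedAddCommGroup X] {f : E3 → X} (hf : Continuous f) :
    MemLp f 2 (volume.restrict shell) := by
  have := shell_fin
  obtain ⟨C, hC⟩ := (isCompact_closedBall (0 : E3) 2).exists_bound_of_continuousOn
    hf.continuousOn
  have hs : AEStronglyMeasurable f (volume.restrict shell) := hf.aestronglyMeasurable
  refine MemLp.of_bound hs C ?_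
  filter_upwards [ae_restrict_mem shell_meas] with x hx
  refine hC x ?_
  rw [mem_closedBall_zero_iff]
  exact hx.2.le

end PkgMem

open PkgMem in
/-- Toroidal fields which vanish on the boundary of the shell are in the space. -/
theorem mem_s (h : S_tor) : S_mem := by
  intro g hg h1 h4
  have hgs : ContDiff ℝ ∞ (tor g) := (h g hg).1
  have m1 : MemLp (tor g) 2 (volume.restrict shell) := memLp_cont hgs.continuous
  have m2 : MemLp (jac (tor g)) 2 (volume.restrict shell) := memLp_cont (continuous_jac hgs)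
  refine ⟨(m1.toLp _, m2.toLp _), ?_, m1.coeFn_toLp, m2.coeFn_toLp⟩
  have n1 : ∀ n, MemLp (tor (gc g n)) 2 (volume.restrict shell) := fun n =>
    memLp_cont (h _ (gc_smooth hg n)).1.continuous
  have n2 : ∀ n, MemLp (jac (tor (gc g n))) 2 (volume.restrict shell) := fun n =>
    memLp_cont (continuous_jac (h _ (gc_smooth hg n)).1)
  obtain ⟨K, hK0, hK⟩ := dif_bd h hg h1 h4
  have d1 : ∀ n, Continuous (tor (dif g n)) := fun n => (h _ (dif_smooth hg n)).1.continuous
  have d2 : ∀ n, Continuous (jac (tor (dif g n))) := fun n =>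
    continuous_jac (h _ (dif_smooth hg n)).1
  have c1 : Tendsto (fun n => (n1 n).toLp (tor (gc g n))) atTop (𝓝 (m1.toLp (tor g))) := by
    rw [Lp.tendsto_Lp_iff_tendsto_eLpNorm'']
    simp only [tor_sub]
    exact conv (fun n => (d1 n).aestronglyMeasurable) (fun n x hx => (hK n x hx).1)
      (fun x hx => (dif_ev h hg hx).mono (fun n hn => hn.1))
  have c2 : Tendsto (fun n => (n2 n).toLp (jac (tor (gc g n)))) atTop
      (𝓝 (m2.toLp (jac (tor g)))) := by
    rw [Lp.tendsto_Lp_iff_tendsto_eLpNorm'']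
    simp only [jac_sub h hg]
    exact conv (fun n => (d2 n).aestronglyMeasurable) (fun n x hx => (hK n x hx).2)
      (fun x hx => (dif_ev h hg hx).mono (fun n hn => hn.2))
  rw [mem_graphW]
  refine mem_closure_of_tendsto (c1.prodMk_nhds c2) (Eventually.of_forall (fun n => ?_))
  exact ⟨tor (gc g n), test h hg n, (n1 n).coeFn_toLp, (n2 n).coeFn_toLp⟩

end Pool.Agent.T2H10.LO
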