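import Pool.Agent.T2H10.LO.Stm

/-!
Strong solutions of the perturbed equations satisfy the chain of ordinary differential
equations; there is no strong solution up to the time `TT / (k0 Am)`.
-/

set_option autoImplicit false
set_option maxSynthPendingDepth 3
set_option maxHeartbeats 1000000
set_option linter.unusedSectionVars false

open MeasureTheory Set Filter Topology
open scoped InnerProductSpace ENNReal ContDiff NNReal

namespace Pool.Agent.T2H10.LO

open H772R2.NS
open Pool.Agent.T2H10 (Md)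
open Pool.Agent.T2H10.Md
open Pool.Agent.W795.TQ Pool.Agent.Y303.NF
open H772R2.NSR (Frame prim_cont)

namespace NsH

theorem ftc {x g : ℝ → ℝ} {T : ℝ} (hT : 0 ≤ T) (hg : ContinuousOn g (Icc 0 T))
    (h : ∀ t ∈ Icc 0 T, x t - x 0 = ∫ s in (0 : ℝ)..t, g s) :
    ∀ t ∈ Icc 0 T, HasDerivWithinAt x (g t) (Icc 0 T) t := by
  intro t ht
  set G : ℝ → ℝ := IccExtend hT ((Icc 0 T).domRestrict g) with hG
  have hGc : Continuous G := (continuousOn_iff_continuous_domRestrict.mp hg).Icc_extend'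
  have hGe : ∀ s ∈ Icc 0 T, G s = g s := by
    intro s hs
    rw [hG, IccExtend_of_mem hT _ hs]
    rfl
  have h1 : HasDerivAt (fun t => x 0 + ∫ s in (0 : ℝ)..t, G s) (G t) t :=
    (hGc.integral_hasStrictDerivAt 0 t).hasDerivAt.const_add (x 0)
  rw [hGe t ht] at h1
  refine h1.hasDerivWithinAt.congr_of_mem (fun s hs => ?_) ht
  have h2 : ∫ r in (0 : ℝ)..s, G r = ∫ r in (0 : ℝ)..s, g r := by
    refine intervalIntegral.integral_congr fun r hr => ?_
    rw [uIcc_of_le hs.1] at hr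
    exact hGe r ⟨hr.1, hr.2.trans hs.2⟩
  rw [h2, ← h s hs]
  ring

theorem resc {x g : ℝ → ℝ} {S s A : ℝ} (hs : 0 < s)
    (h : ∀ t ∈ Icc 0 (S / s), HasDerivWithinAt x (g t) (Icc 0 (S / s)) t) :
    ∀ t ∈ Icc 0 S, HasDerivWithinAt (fun t => x (t / s) / A) (g (t / s) / s / A) (Icc 0 S) t := by
  intro t ht
  have hmaps : MapsTo (fun t => t / s) (Icc 0 S) (Icc 0 (S / s)) := by
    intro r hr
    exact ⟨div_nonneg hr.1 hs.le, div_le_div_of_nonneg_right hr.2 hs.le⟩
  have h1 := h (t / s) (hmaps ht)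
  have h2 : HasDerivWithinAt (fun t => t / s) (1 / s) (Icc 0 S) t :=
    ((hasDerivAt_id t).div_const s).hasDerivWithinAt
  have h3 := (HasDerivWithinAt.comp t h1 h2 hmaps).div_const A
  have e : g (t / s) * (1 / s) / A = g (t / s) / s / A := by ring
  rw [e] at h3
  exact h3

theorem gg_pos [Par] (n : ℕ) : 0 < gg n := Real.exp_pos _

theorem two_pow_le_exp (n : ℕ) : (2 : ℝ) ^ n ≤ Real.exp n := by
  have h2 : (2 : ℝ) ≤ Real.exp 1 := by
    have := Real.add_one_le_exp (1 : ℝ)
    linarith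
  have h3 : Real.exp (n : ℝ) = Real.exp 1 ^ n := by
    rw [← Real.exp_nat_mul, mul_one]
  rw [h3]
  exact pow_le_pow_left₀ (by norm_num) h2 _

theorem gg0_eq [Par] : gg 0 = Real.exp (-(100000 * NN)) := by
  unfold gg Lam LL
  norm_num

theorem gg0_small [Par] : gg 0 ≤ 1 / 10 ^ 30 / NN := by
  have h1 := one_le_NN
  have hN : 0 < NN := by linarith
  rw [gg0_eq, Real.exp_neg, div_div, one_div]
  refine inv_anti₀ (by positivity) ?_
  have e : Real.exp (100000 * NN) = Real.exp (99999 * NN) * Real.exp NN := by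
    rw [← Real.exp_add]
    congr 1
    ring
  have h2 : (10 : ℝ) ^ 30 ≤ Real.exp (99999 * NN) := by
    calc (10 : ℝ) ^ 30 ≤ 2 ^ 100 := by norm_num
      _ ≤ 2 ^ 99999 := pow_le_pow_right₀ (by norm_num) (by norm_num)
      _ ≤ Real.exp (99999 : ℕ) := two_pow_le_exp _
      _ ≤ Real.exp (99999 * NN) := by
        refine Real.exp_le_exp.mpr ?_
        push_cast
        linarith
  have h3 : NN ≤ Real.exp NN := by
    have := Real.add_one_le_exp NN
    linarith
  rw [e]
  exact mul_le_mul h2 h3 hN.le (Real.exp_pos _).le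

theorem gg_le [Par] (n : ℕ) : gg n ≤ gg 0 * (1 / 2) ^ n := by
  have h1 := one_le_NN
  have hN : 0 < NN := by linarith
  have h2 : Real.exp (-(LL * n)) ≤ (1 / 2) ^ n := by
    have h3 : (2 : ℝ) ^ n ≤ Real.exp (LL * n) := by
      refine (two_pow_le_exp n).trans (Real.exp_le_exp.mpr ?_)
      unfold LL
      have hn : (0 : ℝ) ≤ n := Nat.cast_nonneg n
      nlinarith
    rw [Real.exp_neg, one_div, inv_pow]
    exact inv_anti₀ (by positivity) h3
  have h4 : gg n ≤ gg 0 * Real.exp (-(LL * n)) := by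
    unfold gg Lam
    rw [← Real.exp_add]
    refine Real.exp_le_exp.mpr ?_
    have hn : (0 : ℝ) ≤ n := Nat.cast_nonneg n
    have hL : 0 < LL := by unfold LL; positivity
    push_cast
    nlinarith [mul_nonneg hL.le hn, mul_nonneg hL.le (mul_nonneg hn hn)]
  exact h4.trans (mul_le_mul_of_nonneg_left h2 (gg_pos 0).le)

theorem tsum_gg [Par] {k0 : ℝ} (hk : 0 < k0) :
    ∑' n, k0 * (4 * gg n * 10 ^ 7) ≤ k0 * (8 * 10 ^ 7 * gg 0) := by
  refine Real.tsum_le_of_sum_range_le (fun n => ?_) (fun n => ?_)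
  · have := gg_pos n
    positivity
  · have h1 : ∀ n : ℕ, ∑ i ∈ Finset.range n, (1 / 2 : ℝ) ^ i ≤ 2 := by
      intro n
      have := sum_geometric_two_le n
      exact this
    have hg := gg_pos 0
    calc ∑ i ∈ Finset.range n, k0 * (4 * gg i * 10 ^ 7)
        ≤ ∑ i ∈ Finset.range n, k0 * (4 * 10 ^ 7) * gg 0 * (1 / 2) ^ i := by
          refine Finset.sum_le_sum fun i _ => ?_
          have h2 := gg_le i
          have h3 : k0 * (4 * gg i * 10 ^ 7) = k0 * (4 * 10 ^ 7) * gg i := by ring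
          rw [h3, mul_assoc (k0 * (4 * 10 ^ 7)) (gg 0)]
          exact mul_le_mul_of_nonneg_left h2 (by positivity)
      _ = k0 * (4 * 10 ^ 7) * gg 0 * ∑ i ∈ Finset.range n, (1 / 2 : ℝ) ^ i := by
          rw [Finset.mul_sum]
      _ ≤ k0 * (4 * 10 ^ 7) * gg 0 * 2 := mul_le_mul_of_nonneg_left (h1 n) (by positivity)
      _ = _ := by ring

theorem bet0_sq [Par] : bet 0 ^ 2 = gg 0 := by
  unfold bet gg
  rw [← Real.exp_nat_mul]
  congr 1
  push_cast
  ring

theorem TT_eq [Par] : TT = 300000 * NN := by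
  unfold TT LL
  ring

theorem TT_pos [Par] : 0 < TT := by
  have := one_le_NN
  rw [TT_eq]
  linarith

end NsH

theorem ns_s : S_ns := by
  intro hchain H K _ _ _ _ _ _ _ W m C C' A V J N β k0 Q1 Q2 Q ν Am u u1 z z1 Fr Fr' hQ hmQ
    Mo q1 q2 hk hν hA hP hS hZ h4P h4S St hu0
  have hNN := one_le_NN
  have hNNp : 0 < NN := by linarith
  set s : ℝ := k0 * Am with hs
  have hs0 : 0 < s := by positivity
  set T : ℝ := TT / s with hTdef
  have hT0 : 0 < T := div_pos NsH.TT_pos hs0
  have hzc : ContinuousOn z (Icc 0 T) := prim_cont St.z1m St.pz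
  -- orthonormality
  have hVV : ∀ i j, i ≠ j → ⟪V i, V j⟫_ℝ = 0 := by
    intro i j hij
    have h1 := Mo.eig i (V j, J j) (Mo.mem j)
    have h2 := Mo.eig j (V i, J i) (Mo.mem i)
    simp only at h1 h2
    rw [real_inner_comm (J i) (J j), real_inner_comm (V i) (V j)] at h2
    rw [h1] at h2
    have h3 : (N i ^ 2 - N j ^ 2) * ⟪V i, V j⟫_ℝ = 0 := by
      rw [sub_mul, h2, sub_self]
    rcases mul_eq_zero.mp h3 with h4 | h4
    · exfalso
      have h5 := Mo.one i
      have h6 := Mo.one j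
      have h7 : N i = N j := by nlinarith
      exact Mo.ne i j hij h7
    · exact h4
  have hV1 : ∀ i, ⟪V i, V i⟫_ℝ = 1 := by
    intro i
    rw [real_inner_self_eq_norm_sq, Mo.unit i, one_pow]
  have hJn : ∀ i, ‖J i‖ = N i := by
    intro i
    have h1 := Mo.eig i (V i, J i) (Mo.mem i)
    simp only at h1
    rw [hV1, mul_one, real_inner_self_eq_norm_sq] at h1
    have h5 := Mo.one i
    exact (pow_left_inj₀ (norm_nonneg _) (by linarith) (by norm_num)).mp h1
  set x : Md → ℝ → ℝ := fun i t => ⟪u t, V i⟫_ℝ with hx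
  set g : Md → ℝ → ℝ := fun i t => -(ν * ⟪z t, J i⟫_ℝ) - Q2 (z t) (z t) (J i) with hg
  have hgc : ∀ i, ContinuousOn (g i) (Icc 0 T) := by
    intro i
    have h1 : ContinuousOn (fun t => ⟪z t, J i⟫_ℝ) (Icc 0 T) := hzc.inner continuousOn_const
    have h2 : ContinuousOn (fun t => Q2 (z t) (z t) (J i)) (Icc 0 T) := by
      have h3 : ContinuousOn (fun t => Q2 (z t)) (Icc 0 T) :=
        Q2.continuous.comp_continuousOn hzc
      exact (h3.clm_apply hzc).clm_apply continuousOn_const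
    exact (h1.const_mul ν).neg.sub h2
  have hge : ∀ i, ∀ t ∈ Icc 0 T, ⟪(0 : K) - ν • z t + mQ W m Q (u t), J i⟫_ℝ = g i t := by
    intro i t ht
    have h1 := hmQ _ (St.mem t ht) (J i)
    have h2 := q1.mode i _ (St.mem t ht)
    simp only at h1 h2
    rw [inner_add_left, inner_sub_left, inner_zero_left, real_inner_smul_left, h1, hQ, h2]
    simp only [hg]
    ring
  have hder : ∀ i, ∀ t ∈ Icc 0 T, HasDerivWithinAt (x i) (g i t) (Icc 0 T) t := by
    intro i
    refine NsH.ftc hT0.le (hgc i) fun t ht => ?_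
    have h1 := St.weak _ (Mo.mem i) t ht
    rw [inner_sub_left] at h1
    simp only at h1
    simp only [hx]
    rw [h1]
    refine intervalIntegral.integral_congr fun r hr => ?_
    rw [uIcc_of_le ht.1] at hr
    exact hge i r ⟨hr.1, hr.2.trans ht.2⟩
  have hJx : ∀ i, ∀ t ∈ Icc 0 T, ⟪z t, J i⟫_ℝ = N i ^ 2 * x i t := by
    intro i t ht
    have h1 := Mo.eig i _ (St.mem t ht)
    simp only at h1
    rw [real_inner_comm, h1, real_inner_comm (u t)]
  have hgv : ∀ i, ∀ t ∈ Icc 0 T, g i t = -(ν * N i ^ 2) * x i t - Q2 (z t) (z t) (J i) := by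
    intro i t ht
    simp only [hg]
    rw [hJx i t ht]
    ring
  -- initial values
  have hw : √(1 / 10 ^ 7 : ℝ) ^ 2 = 1 / 10 ^ 7 := Real.sq_sqrt (by norm_num)
  set w1 : ℝ := √(1 / 10 ^ 7 : ℝ) with hw1
  have hw0 : 0 < w1 := Real.sqrt_pos.mpr (by norm_num)
  have hini : ∀ i, x i 0 = Am * (⟪V (P 0), V i⟫_ℝ + bet 0 * ⟪V (S 0), V i⟫_ℝ
      + w1 * ⟪V Z, V i⟫_ℝ) := by
    intro i
    simp only [hx, hu0, ini0]
    rw [real_inner_smul_left, inner_add_left, inner_add_left, real_inner_smul_left,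
      real_inner_smul_left]
  -- energy
  have hu0n : ‖u 0‖ ^ 2 ≤ Am ^ 2 * (1 + 1 / 10 ^ 6) := by
    have e1 : ‖u 0‖ ^ 2 = Am ^ 2 * (1 + bet 0 ^ 2 + w1 ^ 2) := by
      rw [← real_inner_self_eq_norm_sq, hu0]
      simp only [ini0, real_inner_smul_left, real_inner_smul_right, inner_add_left,
        inner_add_right]
      rw [hV1, hV1, hV1, hVV (P 0) (S 0) (by simp), hVV (P 0) Z (by simp),
        hVV (S 0) (P 0) (by simp), hVV (S 0) Z (by simp), hVV Z (P 0) (by simp),
        hVV Z (S 0) (by simp)]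
      ring
    rw [e1, NsH.bet0_sq, hw]
    have h2 := NsH.gg0_small
    have h3 : 1 / 10 ^ 30 / NN ≤ 1 / 10 ^ 30 := div_le_self (by norm_num) hNN
    have : 1 + gg 0 + 1 / 10 ^ 7 ≤ 1 + 1 / 10 ^ 6 := by linarith
    exact mul_le_mul_of_nonneg_left this (by positivity)
  have hun : ∀ t ∈ Icc 0 T, ‖u t‖ ^ 2 ≤ Am ^ 2 * (1 + 1 / 10 ^ 6) := by
    intro t ht
    have h1 := St.energy t ht
    have h2 : 0 ≤ ∫ s in (0 : ℝ)..t, ‖z s‖ ^ 2 :=
      intervalIntegral.integral_nonneg ht.1 fun s _ => by positivity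
    have h3 : ∫ s in (0 : ℝ)..t, ⟪(0 : K), z s⟫_ℝ = 0 := by simp
    rw [h3] at h1
    have h4 : 0 ≤ ν * ∫ s in (0 : ℝ)..t, ‖z s‖ ^ 2 := mul_nonneg hν.le h2
    linarith
  have hmaps : ∀ t ∈ Icc 0 TT, t / s ∈ Icc 0 T := fun t ht =>
    ⟨div_nonneg ht.1 hs0.le, div_le_div_of_nonneg_right ht.2 hs0.le⟩
  -- Bessel
  have hort : Orthonormal ℝ (fun q : Bool × ℕ => if q.1 then V (P q.2) else V (S q.2)) := by
    rw [orthonormal_iff_ite]
    rintro ⟨b, n⟩ ⟨c, k⟩
    rcases b <;> rcases c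
    · by_cases h : n = k
      · subst h
        simp [Mo.unit]
      · simp only [Bool.false_eq_true, if_false, Prod.mk.injEq, true_and, if_neg h]
        exact hVV _ _ (by simpa using h)
    · simp [hVV (S n) (P k) (by simp)]
    · simp [hVV (P n) (S k) (by simp)]
    · by_cases h : n = k
      · subst h
        simp [Mo.unit]
      · simp only [if_true, Prod.mk.injEq, true_and, if_neg h]
        exact hVV _ _ (by simpa using h)
  have hbes : ∀ n, ∀ t ∈ Icc 0 T, x (P n) t ^ 2 + x (S n) t ^ 2 + x (P (n + 1)) t ^ 2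
      + x (S (n + 1)) t ^ 2 + x (P (n + 2)) t ^ 2 ≤ Am ^ 2 * (1 + 1 / 10 ^ 6) := by
    intro n t ht
    have h1 := hort.sum_inner_products_le (x := u t)
      (s := {(true, n), (false, n), (true, n + 1), (false, n + 1), (true, n + 2)})
    rw [Finset.sum_insert (by simp), Finset.sum_insert (by simp), Finset.sum_insert (by simp),
      Finset.sum_insert (by simp), Finset.sum_singleton] at h1
    simp only [if_true, Bool.false_eq_true, if_false, Real.norm_eq_abs, sq_abs] at h1
    have e : ∀ i, ⟪V i, u t⟫_ℝ = x i t := fun i => real_inner_comm _ _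
    simp only [e] at h1
    have h2 := hun t ht
    linarith
  -- gradient bounds
  obtain ⟨B, hB⟩ := (isCompact_Icc.image_of_continuousOn hzc).isBounded.exists_norm_le
  have hB' : ∀ t ∈ Icc 0 T, ‖z t‖ ≤ B := fun t ht => hB _ ⟨t, ht, rfl⟩
  have hgrb : ∀ (i : Md) (n : ℕ), 4 ^ n ≤ N i → ∀ t ∈ Icc 0 T, |x i t| * 4 ^ n ≤ B := by
    intro i n h2 t ht
    have h5 := Mo.one i
    have h6 := abs_real_inner_le_norm (z t) (J i)
    rw [hJx i t ht, hJn, abs_mul, abs_of_nonneg (by positivity : 0 ≤ N i ^ 2)] at h6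
    have h7 : N i * (N i * |x i t|) ≤ N i * ‖z t‖ := by
      calc N i * (N i * |x i t|) = N i ^ 2 * |x i t| := by ring
        _ ≤ ‖z t‖ * N i := h6
        _ = _ := by ring
    have h8 : N i * |x i t| ≤ ‖z t‖ := le_of_mul_le_mul_left h7 (by linarith)
    calc |x i t| * 4 ^ n ≤ |x i t| * N i := mul_le_mul_of_nonneg_left h2 (abs_nonneg _)
      _ = N i * |x i t| := by ring
      _ ≤ ‖z t‖ := h8
      _ ≤ B := hB' t ht
  -- the slow mode
  set ρ : ℝ := 3 / 2 / 10 ^ 6 / NN with hρ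
  have hρ0 : 0 < ρ := by positivity
  set zz : ℝ → ℝ := fun t => x Z (t / s) / Am / w1 with hzz
  have hzd : ∀ t ∈ Icc 0 TT, HasDerivWithinAt zz (g Z (t / s) / s / Am / w1) (Icc 0 TT) t :=
    fun t ht => (NsH.resc (A := Am) hs0 (hder Z) t ht).div_const w1
  have hz0 : zz 0 = 1 := by
    simp only [hzz, zero_div]
    rw [hini, hV1, hVV (P 0) Z (by simp), hVV (S 0) Z (by simp)]
    field_simp
    ring
  have hzb : ∀ t ∈ Icc 0 TT, |g Z (t / s) / s / Am / w1| ≤ ρ * |zz t| := by
    intro t ht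
    have ht' := hmaps t ht
    rw [hgv _ _ ht']
    have h1 := q2.hZ _ (St.mem _ ht')
    simp only at h1
    have h2 : ‖u (t / s)‖ ≤ 2 * Am := by
      have h3 := hun _ ht'
      have h4 : ‖u (t / s)‖ ^ 2 ≤ (2 * Am) ^ 2 := by nlinarith [sq_nonneg Am]
      exact (pow_le_pow_iff_left₀ (norm_nonneg _) (by positivity) (by norm_num)).mp h4
    have hgg := NsH.gg_pos 0
    have e : |⟪u (t / s), V Z⟫_ℝ| = Am * w1 * |zz t| := by
      simp only [hzz, hx]
      have : ⟪u (t / s), V Z⟫_ℝ = Am * w1 * (⟪u (t / s), V Z⟫_ℝ / Am / w1) := by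
        field_simp
      rw [this, abs_mul, abs_of_pos (by positivity : 0 < Am * w1)]
      congr 2
      field_simp
    have h3 : |Q2 (z (t / s)) (z (t / s)) (J Z)|
        ≤ k0 * (16 * 10 ^ 7 * gg 0) * Am * (Am * w1 * |zz t|) := by
      refine h1.trans ?_
      rw [e]
      have h4 := NsH.tsum_gg hk
      have h5 : (∑' n, k0 * (4 * gg n * 10 ^ 7)) * ‖u (t / s)‖
          ≤ k0 * (8 * 10 ^ 7 * gg 0) * (2 * Am) :=
        mul_le_mul h4 h2 (norm_nonneg _) (by positivity)
      calc (∑' n, k0 * (4 * gg n * 10 ^ 7)) * ‖u (t / s)‖ * (Am * w1 * |zz t|)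
          ≤ k0 * (8 * 10 ^ 7 * gg 0) * (2 * Am) * (Am * w1 * |zz t|) :=
            mul_le_mul_of_nonneg_right h5 (by positivity)
        _ = _ := by ring
    have h4 : x Z (t / s) = w1 * Am * zz t := by
      simp only [hzz]
      field_simp
    have h5 : (-(ν * N Z ^ 2) * x Z (t / s) - Q2 (z (t / s)) (z (t / s)) (J Z)) / s / Am / w1
        = -(ν * N Z ^ 2 / s) * zz t - Q2 (z (t / s)) (z (t / s)) (J Z) / s / Am / w1 := by
      rw [h4]
      field_simp
    rw [h5]
    refine (abs_sub _ _).trans ?_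
    have h6 : |-(ν * N Z ^ 2 / s) * zz t| ≤ 1 / (10 ^ 6 * NN) * |zz t| := by
      rw [abs_mul, abs_neg, abs_of_nonneg (by positivity : 0 ≤ ν * N Z ^ 2 / s)]
      exact mul_le_mul_of_nonneg_right hZ (abs_nonneg _)
    have h7 : |Q2 (z (t / s)) (z (t / s)) (J Z) / s / Am / w1| ≤ 16 * 10 ^ 7 * gg 0 * |zz t| := by
      rw [abs_div, abs_div, abs_div, abs_of_pos hs0, abs_of_pos hA, abs_of_pos hw0]
      have : |Q2 (z (t / s)) (z (t / s)) (J Z)| / s / Am / w1
          ≤ k0 * (16 * 10 ^ 7 * gg 0) * Am * (Am * w1 * |zz t|) / s / Am / w1 := by gcongr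
      refine this.trans (le_of_eq ?_)
      simp only [hs]
      field_simp
    have h8 : 16 * 10 ^ 7 * gg 0 ≤ 1 / 2 / 10 ^ 6 / NN := by
      have h9 := NsH.gg0_small
      calc 16 * 10 ^ 7 * gg 0 ≤ 16 * 10 ^ 7 * (1 / 10 ^ 30 / NN) :=
            mul_le_mul_of_nonneg_left h9 (by norm_num)
        _ = 16 * 10 ^ 7 / 10 ^ 30 / NN := by ring
        _ ≤ _ := by
          refine div_le_div_of_nonneg_right ?_ hNNp.le
          norm_num
    have h9 : 16 * 10 ^ 7 * gg 0 * |zz t| ≤ 1 / 2 / 10 ^ 6 / NN * |zz t| :=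
      mul_le_mul_of_nonneg_right h8 (abs_nonneg _)
    have h10 : ρ * |zz t| = 1 / (10 ^ 6 * NN) * |zz t| + 1 / 2 / 10 ^ 6 / NN * |zz t| := by
      rw [hρ]
      field_simp
      ring
    linarith
  have h2ρ : 2 * ρ * TT ≤ 1 := by
    rw [hρ, NsH.TT_eq]
    have : 2 * (3 / 2 / 10 ^ 6 / NN) * (300000 * NN) = 9 / 10 := by
      field_simp
      norm_num
    rw [this]
    norm_num
  have hzsq : ∀ t ∈ Icc 0 TT, 1 / 4 ≤ zz t ^ 2 ∧ zz t ^ 2 ≤ 4 := by
    intro t ht
    have hd : ∀ r ∈ Icc 0 t, HasDerivWithinAt (fun r => zz r ^ 2)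
        (2 * zz r * (g Z (r / s) / s / Am / w1)) (Icc 0 t) r := by
      intro r hr
      have h1 := (hzd r ⟨hr.1, hr.2.trans ht.2⟩).mono (Icc_subset_Icc_right ht.2)
      have h2 := h1.mul h1
      have e : (fun r => zz r ^ 2) = zz * zz := by
        funext r
        simp only [Pi.mul_apply]
        ring
      rw [e]
      refine h2.congr_deriv ?_
      ring
    have hb : ∀ r ∈ Icc 0 t, |2 * zz r * (g Z (r / s) / s / Am / w1)| ≤ 2 * ρ * zz r ^ 2 := by
      intro r hr
      have h1 := hzb r ⟨hr.1, hr.2.trans ht.2⟩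
      rw [abs_mul, abs_mul, abs_two]
      calc 2 * |zz r| * |g Z (r / s) / s / Am / w1| ≤ 2 * |zz r| * (ρ * |zz r|) := by gcongr
        _ = 2 * ρ * (|zz r| * |zz r|) := by ring
        _ = _ := by rw [abs_mul_abs_self]; ring
    have htT : 2 * ρ * t ≤ 1 :=
      (mul_le_mul_of_nonneg_left ht.2 (by positivity)).trans h2ρ
    constructor
    · have h1 := gron_low (c := -(2 * ρ)) ht.1 hd (fun r hr => by
        have h2 := (abs_le.mp (hb r hr)).1
        linarith)
      rw [hz0, one_pow, mul_one] at h1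
      have h2 : (1 : ℝ) / 4 ≤ Real.exp (-(2 * ρ) * (t - 0)) := by
        have h3 : -(1 : ℝ) ≤ -(2 * ρ) * (t - 0) := by linarith
        have h4 : (1 : ℝ) / 4 ≤ Real.exp (-1) := by
          rw [Real.exp_neg, one_div]
          refine inv_anti₀ (Real.exp_pos _) ?_
          have := Real.exp_one_lt_d9
          linarith
        exact h4.trans (Real.exp_le_exp.mpr h3)
      exact h2.trans h1
    · have h1 := gron_up (c := 2 * ρ) (Γ := 0) ht.1 (by positivity) le_rfl hd
        (fun r hr => by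
          have h2 := (abs_le.mp (hb r hr)).2
          linarith)
      rw [hz0] at h1
      have h2 : Real.exp (2 * ρ * (t - 0)) ≤ 4 := by
        have h3 : 2 * ρ * (t - 0) ≤ 1 := by linarith
        have h4 : Real.exp 1 ≤ 4 := by
          have := Real.exp_one_lt_d9
          linarith
        exact (Real.exp_le_exp.mpr h3).trans h4
      rw [one_pow, zero_mul, add_zero, mul_one] at h1
      exact h1.trans h2
  refine hchain (fun n t => x (P n) (t / s) / Am) (fun n t => x (S n) (t / s) / Am)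
    (fun n => ν * N (P n) ^ 2 / s) (fun n => ν * N (S n) ^ 2 / s)
    (fun n t => 4 * gg n * zz t ^ 2) (B / Am) ?_
  have hzx : ∀ t, x Z (t / s) ^ 2 = Am ^ 2 * (zz t ^ 2 / 10 ^ 7) := by
    intro t
    have : x Z (t / s) = Am * (w1 * zz t) := by
      simp only [hzz]
      field_simp
    rw [this, mul_pow, mul_pow, hw]
    ring
  constructor
  · intro n; positivity
  · intro n
    exact hP n
  · intro n; positivity
  · intro n
    exact hS n
  · intro n t ht
    have ht' := hmaps t ht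
    have h1 := NsH.resc (A := Am) hs0 (hder (P n)) t ht
    refine h1.congr_deriv ?_
    rw [hgv _ _ ht']
    cases n with
    | zero =>
      have h2 := q2.hP0 _ (St.mem _ ht')
      simp only at h2
      rw [h2]
      simp only [feed, hx, hs]
      field_simp
      ring
    | succ n =>
      have h2 := q2.hP n _ (St.mem _ ht')
      simp only at h2
      rw [h2]
      simp only [feed, hx, hs]
      field_simp
      ring
  · intro n t ht
    have ht' := hmaps t ht
    have h1 := NsH.resc (A := Am) hs0 (hder (S n)) t ht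
    refine h1.congr_deriv ?_
    rw [hgv _ _ ht']
    have h2 := q2.hS n _ (St.mem _ ht')
    simp only at h2
    rw [h2]
    have h3 := hzx t
    simp only [hx] at h3
    rw [h3]
    simp only [hx, hs]
    field_simp
    ring
  · intro n t ht
    have := (hzsq t ht).1
    have h1 := NsH.gg_pos n
    nlinarith
  · intro n t ht
    have := (hzsq t ht).2
    have h1 := NsH.gg_pos n
    nlinarith
  · intro n t ht
    have h1 := hbes n _ (hmaps t ht)
    have e : ∀ y : ℝ, (y / Am) ^ 2 = y ^ 2 / Am ^ 2 := fun y => div_pow _ _ _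
    simp only [e]
    rw [← add_div, ← add_div, ← add_div, ← add_div, div_le_iff₀ (by positivity)]
    linarith
  · intro n t ht
    have h1 := hgrb (P n) n (h4P n) _ (hmaps t ht)
    rw [abs_div, abs_of_pos hA, div_mul_eq_mul_div]
    exact div_le_div_of_nonneg_right h1 hA.le
  · intro n t ht
    have h1 := hgrb (S n) n (h4S n) _ (hmaps t ht)
    rw [abs_div, abs_of_pos hA, div_mul_eq_mul_div]
    exact div_le_div_of_nonneg_right h1 hA.le
  · simp only [zero_div]
    rw [hini, hV1, hVV (S 0) (P 0) (by simp), hVV Z (P 0) (by simp)]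
    field_simp
    ring
  · intro n
    simp only [zero_div]
    rw [hini, hVV (P 0) (P (n + 1)) (by simp), hVV (S 0) (P (n + 1)) (by simp),
      hVV Z (P (n + 1)) (by simp)]
    simp
  · simp only [zero_div]
    rw [hini, hV1, hVV (P 0) (S 0) (by simp), hVV Z (S 0) (by simp)]
    field_simp
    ring
  · intro n
    simp only [zero_div]
    rw [hini, hVV (P 0) (S (n + 1)) (by simp), hVV (S 0) (S (n + 1)) (by simp),
      hVV Z (S (n + 1)) (by simp)]
    simp

end Pool.Agent.T2H10.LO
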