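import Pool.Agent.T2H10.LO.Stm

/-!
Radial profiles: eigenfunctions of the Stokes operator in a spherical shell.
-/

set_option autoImplicit false
set_option maxSynthPendingDepth 3

open MeasureTheory Set Filter Topology
open scoped ContDiff

namespace Pool.Agent.T2H10.LO

namespace Prof

/-- the frequency -/
theorem exists_k (M : ℝ) (hM : 10 ≤ M) : ∃ k ∈ Icc M (M + 5), ∃ n : ℕ,
    k + Real.arctan k = Real.arctan (2 * k) + n * Real.pi := by
  have hpi := Real.pi_pos
  have hpi2 : Real.pi < 3.15 := Real.pi_lt_d2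
  have h0 : 0 ≤ M / Real.pi := by positivity
  set n : ℕ := ⌈M / Real.pi⌉₊ with hn
  have h1 : M ≤ n * Real.pi := by
    have := Nat.le_ceil (M / Real.pi)
    rwa [div_le_iff₀ hpi] at this
  have h2 : n * Real.pi < M + Real.pi := by
    have := Nat.ceil_lt_add_one h0
    have h3 : (n : ℝ) * Real.pi < (M / Real.pi + 1) * Real.pi := by
      exact mul_lt_mul_of_pos_right this hpi
    have h4 : (M / Real.pi + 1) * Real.pi = M + Real.pi := by field_simp
    linarith
  have hc : ContinuousOn (fun k : ℝ => k - n * Real.pi + Real.arctan k - Real.arctan (2 * k))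
      (Icc (n * Real.pi) (n * Real.pi + Real.pi / 2)) := by
    apply Continuous.continuousOn
    fun_prop
  have hI := intermediate_value_Icc (by linarith) hc
  have h5 : (0 : ℝ) ∈ Icc ((fun k : ℝ => k - n * Real.pi + Real.arctan k - Real.arctan (2 * k))
      (n * Real.pi)) ((fun k : ℝ => k - n * Real.pi + Real.arctan k - Real.arctan (2 * k))
      (n * Real.pi + Real.pi / 2)) := by
    have hn0 : 0 ≤ (n : ℝ) * Real.pi := by positivity
    constructor
    · have : Real.arctan (n * Real.pi) ≤ Real.arctan (2 * (n * Real.pi)) :=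
        Real.arctan_strictMono.monotone (by linarith)
      simp only
      linarith
    · have h6 : 0 ≤ Real.arctan (n * Real.pi + Real.pi / 2) := by
        rw [Real.arctan_nonneg]
        linarith
      have h7 := Real.arctan_lt_pi_div_two (2 * (n * Real.pi + Real.pi / 2))
      simp only
      linarith
  obtain ⟨k, hk, hk0⟩ := hI h5
  refine ⟨k, ⟨by linarith [hk.1], by linarith [hk.2]⟩, n, ?_⟩
  simp only at hk0
  linarith

theorem zero_of (x : ℝ) : x * Real.cos (Real.arctan x) - Real.sin (Real.arctan x) = 0 := by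
  rw [Real.cos_arctan, Real.sin_arctan]
  ring

theorem zero_of' (x t : ℝ) (n : ℕ) (h : t = Real.arctan x + n * Real.pi) :
    x * Real.cos t - Real.sin t = 0 := by
  rw [h, Real.cos_add_nat_mul_pi, Real.sin_add_nat_mul_pi]
  have := zero_of x
  linear_combination (-1) ^ n * this

/-- the phase -/
noncomputable def th (k r : ℝ) : ℝ := k * (r - 1) + Real.arctan k

noncomputable def f0 (k r : ℝ) : ℝ := k * Real.cos (th k r) / r ^ 2 - Real.sin (th k r) / r ^ 3

noncomputable def f1 (k r : ℝ) : ℝ := -(k ^ 2 * Real.sin (th k r)) / r ^ 2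
  - 3 * k * Real.cos (th k r) / r ^ 3 + 3 * Real.sin (th k r) / r ^ 4

noncomputable def f2 (k r : ℝ) : ℝ := -(k ^ 3 * Real.cos (th k r)) / r ^ 2
  + 5 * k ^ 2 * Real.sin (th k r) / r ^ 3
  + 12 * k * Real.cos (th k r) / r ^ 4 - 12 * Real.sin (th k r) / r ^ 5

theorem hth (k r : ℝ) : HasDerivAt (th k) k r := by
  unfold th
  have := ((hasDerivAt_id r).sub_const 1).const_mul k
  simpa using this.add_const (Real.arctan k)

theorem hcos (k r : ℝ) : HasDerivAt (fun r => Real.cos (th k r)) (-Real.sin (th k r) * k) r :=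
  (hth k r).cos

theorem hsin (k r : ℝ) : HasDerivAt (fun r => Real.sin (th k r)) (Real.cos (th k r) * k) r :=
  (hth k r).sin

theorem hpow (r : ℝ) (n : ℕ) : HasDerivAt (fun r : ℝ => r ^ n) (n * r ^ (n - 1)) r :=
  hasDerivAt_pow n r

theorem hf0 (k r : ℝ) (hr : r ≠ 0) : HasDerivAt (f0 k) (f1 k r) r := by
  unfold f0
  have h1 := ((hcos k r).const_mul k).div (hpow r 2) (pow_ne_zero 2 hr)
  have h2 := (hsin k r).div (hpow r 3) (pow_ne_zero 3 hr)
  refine (h1.sub h2).congr_deriv ?_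
  unfold f1
  field_simp
  push_cast
  ring

theorem hf1 (k r : ℝ) (hr : r ≠ 0) : HasDerivAt (f1 k) (f2 k r) r := by
  unfold f1
  have h0 : HasDerivAt (fun r => -(k ^ 2 * Real.sin (th k r)))
    (-(k ^ 2 * (Real.cos (th k r) * k))) r := ((hsin k r).const_mul (k ^ 2)).neg
  have h1 := h0.div (hpow r 2) (pow_ne_zero 2 hr)
  have h2 := ((hcos k r).const_mul (3 * k)).div (hpow r 3) (pow_ne_zero 3 hr)
  have h3 := ((hsin k r).const_mul 3).div (hpow r 4) (pow_ne_zero 4 hr)
  refine ((h1.sub h2).add h3).congr_deriv ?_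
  unfold f2
  field_simp
  push_cast
  ring

theorem ode (k r : ℝ) (hr : r ≠ 0) : f2 k r + 4 * f1 k r / r = -(k ^ 2) * f0 k r := by
  unfold f2 f1 f0
  field_simp
  ring

/-- the profile near `[1, 4]` -/
noncomputable def h0 (k s : ℝ) : ℝ := f0 k (√s)

theorem hsqrt (s : ℝ) (hs : 0 < s) : HasDerivAt (fun s => √s) (1 / (2 * √s)) s :=
  Real.hasDerivAt_sqrt hs.ne'

theorem hh0 (k s : ℝ) (hs : 0 < s) : HasDerivAt (h0 k) (f1 k (√s) / (2 * √s)) s := by
  have h := (hf0 k (√s) (Real.sqrt_ne_zero'.mpr hs)).comp s (hsqrt s hs)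
  have e : f1 k (√s) / (2 * √s) = f1 k (√s) * (1 / (2 * √s)) := by ring
  rw [e]
  exact h

theorem hh1 (k s : ℝ) (hs : 0 < s) : HasDerivAt (fun s => f1 k (√s) / (2 * √s))
    (f2 k (√s) / (4 * s) - f1 k (√s) / (4 * s * √s)) s := by
  have hq := Real.sqrt_ne_zero'.mpr hs
  have h : HasDerivAt (fun s => f1 k (√s)) (f2 k (√s) * (1 / (2 * √s))) s :=
    (hf1 k (√s) hq).comp s (hsqrt s hs)
  have h2 := h.div ((hsqrt s hs).const_mul 2) (by positivity)
  refine h2.congr_deriv ?_
  have e : √s ^ 2 = s := Real.sq_sqrt hs.le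
  rw [show f2 k (√s) / (4 * s) - f1 k (√s) / (4 * s * √s)
    = f2 k (√s) / (4 * √s ^ 2) - f1 k (√s) / (4 * √s ^ 2 * √s) by rw [e]]
  field_simp
  ring

theorem bd0 (k r : ℝ) (hk : 1 ≤ k) (hr : 1 ≤ r) : |f0 k r| ≤ 2 * k := by
  unfold f0
  have hr0 : (0 : ℝ) < r := by linarith
  have a1 : |k * Real.cos (th k r) / r ^ 2| ≤ k := by
    rw [abs_div, abs_mul, abs_of_nonneg (by linarith : (0:ℝ) ≤ k), abs_of_pos (by positivity : (0:ℝ) < r ^ 2)]
    rw [div_le_iff₀ (by positivity)]
    have := Real.abs_cos_le_one (th k r)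
    have h1 : (1 : ℝ) ≤ r ^ 2 := one_le_pow₀ hr
    calc k * |Real.cos (th k r)| ≤ k * 1 := by gcongr
      _ ≤ k * r ^ 2 := by gcongr
  have a2 : |Real.sin (th k r) / r ^ 3| ≤ 1 := by
    rw [abs_div, abs_of_pos (by positivity : (0:ℝ) < r ^ 3)]
    rw [div_le_iff₀ (by positivity)]
    have := Real.abs_sin_le_one (th k r)
    have h1 : (1 : ℝ) ≤ r ^ 3 := one_le_pow₀ hr
    linarith
  calc _ ≤ _ := abs_sub _ _
    _ ≤ k + 1 := add_le_add a1 a2
    _ ≤ 2 * k := by linarith

theorem bd1 (k r : ℝ) (hk : 10 ≤ k) (hr : 1 ≤ r) : |f1 k r / (2 * r)| ≤ 2 * k ^ 2 := by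
  have hr0 : (0 : ℝ) < r := by linarith
  have key : ∀ (a t : ℝ) (n : ℕ), 0 ≤ a → |t| ≤ 1 → |a * t / r ^ n| ≤ a := by
    intro a t n ha ht
    rw [abs_div, abs_mul, abs_of_nonneg ha, abs_of_pos (by positivity : (0:ℝ) < r ^ n)]
    rw [div_le_iff₀ (by positivity)]
    have h1 : (1 : ℝ) ≤ r ^ n := one_le_pow₀ hr
    calc a * |t| ≤ a * 1 := by gcongr
      _ ≤ a * r ^ n := by gcongr
  have b : |f1 k r| ≤ 2 * k ^ 2 := by
    unfold f1
    have a1 := key (k ^ 2) (Real.sin (th k r)) 2 (by positivity) (Real.abs_sin_le_one _)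
    have a2 := key (3 * k) (Real.cos (th k r)) 3 (by linarith) (Real.abs_cos_le_one _)
    have a3 := key 3 (Real.sin (th k r)) 4 (by norm_num) (Real.abs_sin_le_one _)
    have e : -(k ^ 2 * Real.sin (th k r)) / r ^ 2 = -(k ^ 2 * Real.sin (th k r) / r ^ 2) := by ring
    rw [e]
    rw [abs_le] at a1 a2 a3 ⊢
    constructor <;> nlinarith
  rw [abs_div, abs_of_pos (by positivity : (0:ℝ) < 2 * r), div_le_iff₀ (by positivity)]
  have : (0 : ℝ) ≤ k ^ 2 := by positivity
  nlinarith

/-- the cut-off -/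
noncomputable def chi (s : ℝ) : ℝ :=
  Real.smoothTransition (4 * s - 1) * Real.smoothTransition ((9 - s) / 4)

theorem chi_smooth : ContDiff ℝ ∞ chi := by
  unfold chi
  refine ContDiff.mul ?_ ?_
  · exact Real.smoothTransition.contDiff.comp (by fun_prop)
  · exact Real.smoothTransition.contDiff.comp (by fun_prop)

theorem chi_one (s : ℝ) (h : 1 / 2 ≤ s) (h' : s ≤ 5) : chi s = 1 := by
  unfold chi
  rw [Real.smoothTransition.one_of_one_le (by linarith), Real.smoothTransition.one_of_one_le (by linarith)]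
  norm_num

theorem chi_low (s : ℝ) (h : s ≤ 1 / 4) : chi s = 0 := by
  unfold chi
  rw [Real.smoothTransition.zero_of_nonpos (by linarith)]
  norm_num

theorem chi_high (s : ℝ) (h : 9 ≤ s) : chi s = 0 := by
  unfold chi
  rw [Real.smoothTransition.zero_of_nonpos (x := (9 - s) / 4) (by linarith)]
  norm_num

noncomputable def g (k s : ℝ) : ℝ := chi s * h0 k s

theorem h0_smooth (k s : ℝ) (hs : 0 < s) : ContDiffAt ℝ ∞ (h0 k) s := by
  unfold h0 f0 th
  have h1 : ContDiffAt ℝ ∞ (fun s : ℝ => √s) s := Real.contDiffAt_sqrt hs.ne'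
  have hq : √s ≠ 0 := Real.sqrt_ne_zero'.mpr hs
  have h2 : ContDiffAt ℝ ∞ (fun s : ℝ => k * (√s - 1) + Real.arctan k) s := by
    fun_prop
  refine ContDiffAt.sub ?_ ?_
  · refine ContDiffAt.div ?_ (h1.pow 2) (pow_ne_zero 2 hq)
    exact contDiffAt_const.mul h2.cos
  · refine ContDiffAt.div ?_ (h1.pow 3) (pow_ne_zero 3 hq)
    exact h2.sin

theorem g_smooth (k : ℝ) : ContDiff ℝ ∞ (g k) := by
  rw [contDiff_iff_contDiffAt]
  intro s
  rcases lt_or_ge 0 s with hs | hs
  · exact chi_smooth.contDiffAt.mul (h0_smooth k s hs)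
  · have : g k =ᶠ[𝓝 s] fun _ => 0 := by
      have : Iio (1 / 4 : ℝ) ∈ 𝓝 s := Iio_mem_nhds (by linarith)
      filter_upwards [this] with t ht
      unfold g
      rw [chi_low t (le_of_lt ht), zero_mul]
    exact (contDiffAt_const (c := (0 : ℝ))).congr_of_eventuallyEq this

theorem g_eq (k s : ℝ) (h : 1 / 2 ≤ s) (h' : s ≤ 5) : g k s = h0 k s := by
  unfold g
  rw [chi_one s h h', one_mul]

theorem g_ev (k s : ℝ) (h : 1 / 2 < s) (h' : s < 5) : g k =ᶠ[𝓝 s] h0 k := by
  filter_upwards [Ioo_mem_nhds h h'] with t ht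
  exact g_eq k t ht.1.le ht.2.le

theorem g_d (k s : ℝ) (h : 1 / 2 < s) (h' : s < 5) : deriv (g k) s = f1 k (√s) / (2 * √s) := by
  rw [(g_ev k s h h').deriv_eq]
  exact (hh0 k s (by linarith)).deriv

theorem g_dd (k s : ℝ) (h : 1 / 2 < s) (h' : s < 5) : deriv (deriv (g k)) s =
    f2 k (√s) / (4 * s) - f1 k (√s) / (4 * s * √s) := by
  have : deriv (g k) =ᶠ[𝓝 s] fun s => f1 k (√s) / (2 * √s) := by
    filter_upwards [Ioo_mem_nhds h h'] with t ht
    exact g_d k t ht.1 ht.2
  rw [this.deriv_eq]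
  exact (hh1 k s (by linarith)).deriv

theorem g_ode (k s : ℝ) (h : 1 ≤ s) (h' : s ≤ 4) :
    10 * deriv (g k) s + 4 * s * deriv (deriv (g k)) s = -(k ^ 2) * g k s := by
  rw [g_d k s (by linarith) (by linarith), g_dd k s (by linarith) (by linarith),
    g_eq k s (by linarith) (by linarith)]
  unfold h0
  have hs : 0 < s := by linarith
  have hq : √s ≠ 0 := Real.sqrt_ne_zero'.mpr hs
  rw [← ode k (√s) hq]
  have e : s = √s ^ 2 := (Real.sq_sqrt hs.le).symm
  have hs' : s ≠ 0 := hs.ne'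
  field_simp
  ring

theorem low (k r : ℝ) (hr : 1 ≤ r) :
    k ^ 2 * Real.cos (th k r) ^ 2 / 2 - 1 ≤ f0 k r ^ 2 * r ^ 4 := by
  have hr0 : 0 < r := by linarith
  have e : f0 k r ^ 2 * r ^ 4 = (k * Real.cos (th k r) - Real.sin (th k r) / r) ^ 2 := by
    unfold f0
    field_simp
  rw [e]
  set a := k * Real.cos (th k r)
  set b := Real.sin (th k r) / r
  have hb : b ^ 2 ≤ 1 := by
    have : b ^ 2 = Real.sin (th k r) ^ 2 / r ^ 2 := by
      simp only [b]; rw [div_pow]
    rw [this, div_le_one (by positivity)]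
    have h1 := Real.sin_sq_le_one (th k r)
    have h2 : (1 : ℝ) ≤ r ^ 2 := one_le_pow₀ hr
    linarith
  have ha : k ^ 2 * Real.cos (th k r) ^ 2 = a ^ 2 := by simp only [a]; ring
  rw [ha]
  nlinarith [sq_nonneg (a - 2 * b)]

theorem int_low (k : ℝ) (hk : 10 ≤ k) :
    1 / 8 * k ^ 2 ≤ ∫ r in (1 : ℝ)..2, (k ^ 2 * Real.cos (th k r) ^ 2 / 2 - 1) := by
  have hk0 : k ≠ 0 := by positivity
  have hd : ∀ r ∈ uIcc (1 : ℝ) 2, HasDerivAt
      (fun r => k ^ 2 / 4 * r + k / 4 * (Real.sin (th k r) * Real.cos (th k r)) - r)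
      (k ^ 2 * Real.cos (th k r) ^ 2 / 2 - 1) r := by
    intro r _
    have h1 := (((hasDerivAt_id r).const_mul (k ^ 2 / 4)).add
      (((hsin k r).mul (hcos k r)).const_mul (k / 4))).sub (hasDerivAt_id r)
    refine h1.congr_deriv ?_
    have := Real.sin_sq_add_cos_sq (th k r)
    have e : Real.sin (th k r) ^ 2 = 1 - Real.cos (th k r) ^ 2 := by linarith
    linear_combination (-(k ^ 2) / 4) * e
  have hc : Continuous (fun r => k ^ 2 * Real.cos (th k r) ^ 2 / 2 - 1) := by
    unfold th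
    fun_prop
  rw [intervalIntegral.integral_eq_sub_of_hasDerivAt hd (hc.intervalIntegrable _ _)]
  have b1 : ∀ t : ℝ, |Real.sin t * Real.cos t| ≤ 1 / 2 := by
    intro t
    rw [abs_le]
    have := Real.sin_sq_add_cos_sq t
    constructor <;> nlinarith [sq_nonneg (Real.sin t + Real.cos t), sq_nonneg (Real.sin t - Real.cos t)]
  have a1 := abs_le.mp (b1 (th k 1))
  have a2 := abs_le.mp (b1 (th k 2))
  have c1 : k / 4 * (Real.sin (th k 2) * Real.cos (th k 2)) ≥ k / 4 * (-(1 / 2)) := by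
    apply mul_le_mul_of_nonneg_left a2.1; positivity
  have c2 : k / 4 * (Real.sin (th k 1) * Real.cos (th k 1)) ≤ k / 4 * (1 / 2) := by
    apply mul_le_mul_of_nonneg_left a1.2; positivity
  nlinarith

end Prof

open Prof in
theorem prof_s : S_prof := by
  refine ⟨1 / 8, 2, by norm_num, by norm_num, fun M hM => ?_⟩
  obtain ⟨k, hk, n, hn⟩ := exists_k M hM
  have hk10 : 10 ≤ k := by linarith [hk.1]
  refine ⟨k, hk, g k, g_smooth k, ?_, ?_, ?_, ?_, ?_⟩
  · intro s hs
    unfold g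
    rw [chi_high s hs, zero_mul]
  · rw [g_eq k 1 (by norm_num) (by norm_num)]
    unfold h0 f0 th
    have := zero_of k
    simp only [Real.sqrt_one, sub_self, mul_zero, zero_add, one_pow, div_one]
    linarith
  · rw [g_eq k 4 (by norm_num) (by norm_num)]
    have e : √(4 : ℝ) = 2 := by
      rw [show (4 : ℝ) = 2 ^ 2 by norm_num]
      exact Real.sqrt_sq (by norm_num)
    unfold h0
    rw [e]
    have ht : th k 2 = Real.arctan (2 * k) + n * Real.pi := by
      unfold th
      linarith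
    have := zero_of' (2 * k) (th k 2) n ht
    unfold f0
    linear_combination this / 8
  · intro s hs
    have hs1 : 1 ≤ √s := by
      rw [show (1 : ℝ) = √1 from Real.sqrt_one.symm]
      exact Real.sqrt_le_sqrt hs.1
    refine ⟨?_, ?_, g_ode k s hs.1 hs.2⟩
    · rw [g_eq k s (by linarith [hs.1]) (by linarith [hs.2])]
      exact bd0 k _ (by linarith) hs1
    · rw [g_d k s (by linarith [hs.1]) (by linarith [hs.2])]
      exact bd1 k _ hk10 hs1
  · refine (int_low k hk10).trans ?_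
    apply intervalIntegral.integral_mono_on (by norm_num)
    · apply Continuous.intervalIntegrable
      unfold th
      fun_prop
    · apply Continuous.intervalIntegrable
      have := (g_smooth k).continuous
      fun_prop
    · intro r hr
      have e : g k (r ^ 2) = f0 k r := by
        rw [g_eq k _ (by nlinarith [hr.1]) (by nlinarith [hr.1, hr.2])]
        unfold h0
        rw [Real.sqrt_sq (by linarith [hr.1])]
      rw [e]
      exact low k r hr.1

end Pool.Agent.T2H10.LO
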