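import Pool.Agent.T2H10.LO.Stm

/-!
The first part of the perturbation.
-/

set_option autoImplicit false
set_option maxSynthPendingDepth 3
set_option linter.unusedSectionVars false

open MeasureTheory Set Filter Topology
open scoped InnerProductSpace ENNReal ContDiff NNReal

namespace Pool.Agent.T2H10.LO

open H772R2.NS
open Pool.Agent.T2H10 (Md)
open Pool.Agent.T2H10.Md
open Pool.Agent.W795.TQ Pool.Agent.Y303.NF
open H772R2.NSR (Frame)

namespace Q1

variable {H K : Type} [NormedAddCommGroup H] [InnerProductSpace ℝ H] [CompleteSpace H]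
  [NormedAddCommGroup K] [InnerProductSpace ℝ K] [CompleteSpace K]

/-- The projection on the gradients and the inverse gradient. -/
theorem exists_SP {W : Submodule ℝ (H × K)} {m : H → K} {C : ℝ} (Fr : Frame W m C) :
    ∃ (S : K →L[ℝ] H) (P : K →L[ℝ] K), (∀ G, (S G, P G) ∈ W) ∧ (∀ p ∈ W, S p.2 = p.1) ∧
      (∀ p ∈ W, ∀ G, ⟪p.2, P G⟫_ℝ = ⟪p.2, G⟫_ℝ) ∧ (∀ G, ‖P G‖ ≤ ‖G‖) ∧ (∀ G, ‖S G‖ ≤ C * ‖G‖) := by
  classical
  have : CompleteSpace W := Fr.closedW.completeSpace_coe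
  set L : W →L[ℝ] K := (ContinuousLinearMap.snd ℝ H K) ∘L W.subtypeL with hL
  have hLv : ∀ p : W, L p = (p : H × K).2 := fun p => rfl
  set c : ℝ := max C 1 with hc
  have hc1 : 1 ≤ c := le_max_right _ _
  have hbd : ∀ p : W, ‖p‖ ≤ c * ‖L p‖ := by
    intro p
    have h1 := Fr.poinc _ p.2
    have : ‖p‖ = max ‖(p : H × K).1‖ ‖(p : H × K).2‖ := rfl
    rw [this, hLv]
    apply max_le
    · exact h1.trans (mul_le_mul_of_nonneg_right (le_max_left _ _) (norm_nonneg _))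
    · have := norm_nonneg (p : H × K).2
      nlinarith
  have hinj : Function.Injective L := by
    rw [injective_iff_map_eq_zero]
    intro p hp
    have := hbd p
    rw [hp, norm_zero, mul_zero] at this
    exact norm_le_zero_iff.mp this
  have hanti : AntilipschitzWith ⟨c, by positivity⟩ L :=
    ContinuousLinearMap.antilipschitz_of_bound L hbd
  have hcl : IsClosed (Set.range L) := hanti.isClosed_range L.uniformContinuous
  set R : Submodule ℝ K := LinearMap.range (L : W →ₗ[ℝ] K) with hR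
  have hRcl : IsClosed (R : Set K) := by
    have : (R : Set K) = Set.range L := by
      ext x; simp [hR]
    rw [this]; exact hcl
  have : CompleteSpace R := hRcl.completeSpace_coe
  set e : W ≃ₗ[ℝ] R := LinearEquiv.ofInjective (L : W →ₗ[ℝ] K) hinj with he
  have hev : ∀ y : R, L (e.symm y) = y := by
    intro y
    have := congrArg Subtype.val (e.apply_symm_apply y)
    exact this
  have hmem : ∀ y : R, (((e.symm y : W) : H × K).1, (y : K)) ∈ W := by
    intro y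
    have h1 := (e.symm y).2
    have h2 := hev y
    rw [hLv] at h2
    rw [← h2]
    exact h1
  set S0 : R →L[ℝ] H := LinearMap.mkContinuous
    ((LinearMap.fst ℝ H K) ∘ₗ W.subtype ∘ₗ (e.symm : R →ₗ[ℝ] W)) C (by
      intro y
      exact Fr.poinc _ (hmem y)) with hS0
  have hS0v : ∀ y : R, S0 y = ((e.symm y : W) : H × K).1 := fun y => rfl
  refine ⟨S0 ∘L R.orthogonalProjectionOnto, R.subtypeL ∘L R.orthogonalProjectionOnto, ?_, ?_, ?_, ?_, ?_⟩
  · intro G
    exact hmem _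
  · intro p hp
    have hpR : p.2 ∈ R := ⟨⟨p, hp⟩, rfl⟩
    have h1 : R.orthogonalProjectionOnto p.2 = ⟨p.2, hpR⟩ := by
      apply Subtype.ext
      exact Submodule.starProjection_eq_self_iff.mpr hpR
    have h2 : e.symm ⟨p.2, hpR⟩ = ⟨p, hp⟩ := by
      rw [LinearEquiv.symm_apply_eq]
      rfl
    change S0 (R.orthogonalProjectionOnto p.2) = p.1
    rw [h1, hS0v, h2]
  · intro p hp G
    have hpR : p.2 ∈ R := ⟨⟨p, hp⟩, rfl⟩
    have h1 := R.inner_orthogonalProjectionOnto_eq_of_mem_left ⟨p.2, hpR⟩ G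
    exact h1
  · intro G
    exact R.norm_orthogonalProjectionOnto_apply_le G
  · intro G
    have h1 := Fr.poinc _ (hmem (R.orthogonalProjectionOnto G))
    refine h1.trans ?_
    exact mul_le_mul_of_nonneg_left (R.norm_orthogonalProjectionOnto_apply_le G) Fr.C0.le

/-- interpolation -/
theorem interp {x y z s : ℝ} (hz : 0 ≤ z) (h1 : z ≤ x) (h2 : z ≤ y) (hs : 0 ≤ s) (hs1 : s ≤ 1) :
    z ≤ x ^ (1 - s) * y ^ s := by
  have e : z = z ^ (1 - s) * z ^ s := by
    rw [← Real.rpow_add_of_nonneg hz (by linarith) hs]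
    simp
  rw [e]
  exact mul_le_mul (Real.rpow_le_rpow hz h1 (by linarith)) (Real.rpow_le_rpow hz h2 hs)
    (Real.rpow_nonneg hz _) (Real.rpow_nonneg (hz.trans h1) _)

theorem tri_norm (T : K →L[ℝ] K →L[ℝ] K →L[ℝ] ℝ) (M : ℝ) (hM : 0 ≤ M)
    (h : ∀ a b c, |T a b c| ≤ M * ‖a‖ * ‖b‖ * ‖c‖) : ‖T‖ ≤ M := by
  refine T.opNorm_le_bound hM fun a => ?_
  refine (T a).opNorm_le_bound (by positivity) fun b => ?_
  refine (T a b).opNorm_le_bound (by positivity) fun c => ?_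
  exact h a b c

theorem tri_hasSum {ι : Type} {f : ι → K →L[ℝ] K →L[ℝ] K →L[ℝ] ℝ}
    {T : K →L[ℝ] K →L[ℝ] K →L[ℝ] ℝ} (h : HasSum f T) (a b c : K) :
    HasSum (fun k => f k a b c) (T a b c) := by
  have h1 := (ContinuousLinearMap.apply ℝ (K →L[ℝ] K →L[ℝ] ℝ) a).hasSum h
  have h2 := (ContinuousLinearMap.apply ℝ (K →L[ℝ] ℝ) b).hasSum h1
  exact (ContinuousLinearMap.apply ℝ ℝ c).hasSum h2

theorem hs_congr {ι : Type} {f g : ι → ℝ} {a : ℝ} (h : HasSum f a) (e : ∀ k, g k = f k) :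
    HasSum g a := by
  rwa [show g = f from funext e]

/-- the coordinates -/
noncomputable def xx (J : Md → K) (N : Md → ℝ) (k : Md) : K →L[ℝ] ℝ :=
  (N k ^ 2)⁻¹ • innerSL ℝ (J k)

/-- the diagonal terms -/
noncomputable def TA (J : Md → K) (N : Md → ℝ) (β : Md → H →L[ℝ] H →L[ℝ] ℝ) (S : K →L[ℝ] H)
    (k : Md) : K →L[ℝ] K →L[ℝ] K →L[ℝ] ℝ :=
  ((ContinuousLinearMap.smulRightL ℝ K (K →L[ℝ] ℝ)).flip (xx J N k)) ∘L
      ((β k).bilinearComp S S) -
    ((ContinuousLinearMap.smulRightL ℝ K (K →L[ℝ] ℝ)) (xx J N k)) ∘L ((β k).bilinearComp S S)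

/-- the off diagonal terms -/
noncomputable def TD (V : Md → H) (J : Md → K) (N : Md → ℝ) (β : Md → H →L[ℝ] H →L[ℝ] ℝ)
    (S : K →L[ℝ] H) (k l : Md) : K →L[ℝ] K →L[ℝ] K →L[ℝ] ℝ :=
  (((β k).flip (V l)) ∘L S).smulRight ((xx J N l).smulRight (xx J N k))

theorem xx_apply (J : Md → K) (N : Md → ℝ) (k : Md) (G : K) :
    xx J N k G = (N k ^ 2)⁻¹ * ⟪J k, G⟫_ℝ := rfl

theorem TA_apply (J : Md → K) (N : Md → ℝ) (β : Md → H →L[ℝ] H →L[ℝ] ℝ) (S : K →L[ℝ] H)
    (k : Md) (a b c : K) : TA J N β S k a b c =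
      xx J N k c * β k (S a) (S b) - xx J N k b * β k (S a) (S c) := by
  change β k (S a) (S b) * xx J N k c - xx J N k b * β k (S a) (S c) = _
  ring

theorem TD_apply (V : Md → H) (J : Md → K) (N : Md → ℝ) (β : Md → H →L[ℝ] H →L[ℝ] ℝ)
    (S : K →L[ℝ] H) (k l : Md) (a b c : K) : TD V J N β S k l a b c =
      β k (S a) (V l) * (xx J N l b * xx J N k c) := by
  rfl

/-- the data -/
structure Dat (W : Submodule ℝ (H × K)) (m : H → K) (C A δ σ : ℝ) (V : Md → H) (J : Md → K)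
    (N : Md → ℝ) (β : Md → H →L[ℝ] H →L[ℝ] ℝ) (S : K →L[ℝ] H) (P : K →L[ℝ] K) : Prop where
  Fr : Frame W m C
  hA : 0 ≤ A
  d0 : 0 < δ
  d1 : δ ≤ 1 / 2
  Mo : Modes W m A V J N β
  Sp : Sparse N δ σ
  SP : ∀ G, (S G, P G) ∈ W
  S1 : ∀ p ∈ W, S p.2 = p.1
  PP : ∀ p ∈ W, ∀ G, ⟪p.2, P G⟫_ℝ = ⟪p.2, G⟫_ℝ
  Pn : ∀ G, ‖P G‖ ≤ ‖G‖
  Sn : ∀ G, ‖S G‖ ≤ C * ‖G‖

section dat

variable {W : Submodule ℝ (H × K)} {m : H → K} {C A δ σ : ℝ} {V : Md → H} {J : Md → K}
    {N : Md → ℝ} {β : Md → H →L[ℝ] H →L[ℝ] ℝ} {S : K →L[ℝ] H} {P : K →L[ℝ] K}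

theorem Dat.N0 (D : Dat W m C A δ σ V J N β S P) (k : Md) : 0 < N k :=
  lt_of_lt_of_le one_pos (D.Mo.one k)

theorem Dat.orth (D : Dat W m C A δ σ V J N β S P) {i j : Md} (h : i ≠ j) :
    ⟪J i, J j⟫_ℝ = 0 := by
  have h1 := D.Mo.eig i _ (D.Mo.mem j)
  have h2 := D.Mo.eig j _ (D.Mo.mem i)
  simp only at h1 h2
  rw [real_inner_comm] at h2
  have h3 : ⟪V j, V i⟫_ℝ = ⟪V i, V j⟫_ℝ := real_inner_comm _ _
  rw [h3, h1] at h2
  have h4 : (N i ^ 2 - N j ^ 2) * ⟪V i, V j⟫_ℝ = 0 := by rw [sub_mul, h2]; ring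
  have h5 : N i ^ 2 - N j ^ 2 ≠ 0 := by
    have a1 := D.Mo.ne i j h
    have a2 := D.N0 i
    have a3 := D.N0 j
    intro hh
    apply a1
    nlinarith
  rw [h1]
  rcases mul_eq_zero.mp h4 with h | h
  · exact absurd h h5
  · rw [h, mul_zero]

theorem Dat.JJ (D : Dat W m C A δ σ V J N β S P) (i : Md) : ⟪J i, J i⟫_ℝ = N i ^ 2 := by
  have h1 := D.Mo.eig i _ (D.Mo.mem i)
  simp only at h1
  rw [h1, real_inner_self_eq_norm_sq, D.Mo.unit i]
  ring

theorem Dat.Jn (D : Dat W m C A δ σ V J N β S P) (i : Md) : ‖J i‖ = N i := by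
  have h1 := D.JJ i
  rw [real_inner_self_eq_norm_sq] at h1
  exact (sq_eq_sq₀ (norm_nonneg _) (D.N0 i).le).mp h1

open Classical in
theorem Dat.xJ (D : Dat W m C A δ σ V J N β S P) (k i : Md) :
    xx J N k (J i) = if k = i then 1 else 0 := by
  rw [xx_apply]
  have := D.N0 k
  split_ifs with h
  · subst h
    rw [D.JJ k]
    field_simp
  · rw [D.orth h, mul_zero]

theorem Dat.xW (D : Dat W m C A δ σ V J N β S P) (k : Md) {p : H × K} (hp : p ∈ W) :
    xx J N k p.2 = ⟪V k, p.1⟫_ℝ := by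
  rw [xx_apply, D.Mo.eig k p hp]
  have := D.N0 k
  field_simp

theorem Dat.xP (D : Dat W m C A δ σ V J N β S P) (k : Md) (G : K) :
    xx J N k (P G) = xx J N k G := by
  rw [xx_apply, xx_apply, D.PP _ (D.Mo.mem k) G]

theorem Dat.xn (D : Dat W m C A δ σ V J N β S P) (k : Md) (G : K) :
    |xx J N k G| ≤ ‖G‖ / N k := by
  have h0 := D.N0 k
  rw [xx_apply, abs_mul, abs_of_nonneg (by positivity)]
  have h1 := abs_real_inner_le_norm (J k) G
  rw [D.Jn k] at h1
  calc (N k ^ 2)⁻¹ * |⟪J k, G⟫_ℝ| ≤ (N k ^ 2)⁻¹ * (N k * ‖G‖) := by gcongr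
    _ = ‖G‖ / N k := by field_simp

theorem Dat.xV (D : Dat W m C A δ σ V J N β S P) (k : Md) {p : H × K} (hp : p ∈ W) :
    |xx J N k p.2| ≤ ‖p.1‖ := by
  rw [D.xW k hp]
  have h1 := abs_real_inner_le_norm (V k) p.1
  rwa [D.Mo.unit k, one_mul] at h1

/-- the bound with two frequencies -/
theorem Dat.bV (D : Dat W m C A δ σ V J N β S P) (k l : Md) {p : H × K} (hp : p ∈ W) {s : ℝ}
    (hs : 0 ≤ s) (hs1 : s ≤ 1) :
    |β k p.1 (V l)| ≤ A * ‖p.1‖ * (N k ^ (1 - s) * N l ^ s) := by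
  have h1 := D.Mo.b1 k p.1 (V l)
  have h2 := D.Mo.b2 k p hp _ (D.Mo.mem l)
  simp only at h2
  rw [D.Mo.unit l, mul_one] at h1
  rw [D.Jn l] at h2
  have hA := D.hA
  have hk := D.N0 k
  have hl := D.N0 l
  have h3 : min (N k) (N l) ≤ N k ^ (1 - s) * N l ^ s :=
    interp (le_min hk.le hl.le) (min_le_left _ _) (min_le_right _ _) hs hs1
  have h4 : |β k p.1 (V l)| ≤ A * ‖p.1‖ * min (N k) (N l) := by
    rcases min_choice (N k) (N l) with h | h <;> rw [h]
    · calc _ ≤ A * N k * ‖p.1‖ := h1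
        _ = _ := by ring
    · exact h2
  exact h4.trans (mul_le_mul_of_nonneg_left h3 (by positivity))

/-- `N k ^ (-δ/2)` -/
noncomputable def nn (N : Md → ℝ) (δ : ℝ) (k : Md) : ℝ := N k ^ (-(δ / 2))

theorem Dat.n0 (D : Dat W m C A δ σ V J N β S P) (k : Md) : 0 < nn N δ k :=
  Real.rpow_pos_of_pos (D.N0 k) _

theorem Dat.nle (D : Dat W m C A δ σ V J N β S P) (k : Md) {s : ℝ} (hs : s ≤ -(δ / 2)) :
    N k ^ s ≤ nn N δ k :=
  Real.rpow_le_rpow_of_exponent_le (D.Mo.one k) hs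

theorem Dat.ninv (D : Dat W m C A δ σ V J N β S P) (k : Md) : (N k)⁻¹ ≤ nn N δ k := by
  rw [← Real.rpow_neg_one]
  exact D.nle k (by have := D.d1; linarith)

theorem Dat.nsum (D : Dat W m C A δ σ V J N β S P) : Summable (nn N δ) :=
  summable_of_sum_le (fun k => (D.n0 k).le) D.Sp.sum

theorem Dat.ntsum (D : Dat W m C A δ σ V J N β S P) : ∑' k, nn N δ k ≤ σ :=
  Real.tsum_le_of_sum_le (fun k => (D.n0 k).le) D.Sp.sum

theorem Dat.nprod (D : Dat W m C A δ σ V J N β S P) :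
    HasSum (fun x : Md × Md => nn N δ x.1 * nn N δ x.2) ((∑' k, nn N δ k) * ∑' k, nn N δ k) := by
  have h1 := D.nsum.mul_of_nonneg D.nsum (fun k => (D.n0 k).le) (fun k => (D.n0 k).le)
  have h2 : (∑' k, nn N δ k) * ∑' k, nn N δ k = ∑' x : Md × Md, nn N δ x.1 * nn N δ x.2 :=
    D.nsum.tsum_mul_tsum D.nsum h1
  rw [h2]
  exact h1.hasSum

theorem Dat.TA_le (D : Dat W m C A δ σ V J N β S P) (k : Md) (a b c : K) :
    |TA J N β S k a b c| ≤ 2 * (A * ‖S a‖ * ‖b‖ * ‖c‖) * nn N δ k := by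
  have hA := D.hA
  have h0 := D.N0 k
  have hn := D.ninv k
  have key : ∀ b c : K, |xx J N k c * β k (S a) (S b)| ≤ (A * ‖S a‖ * ‖b‖ * ‖c‖) * nn N δ k := by
    intro b c
    have h1 := D.Mo.b2 k _ (D.SP a) _ (D.SP b)
    simp only at h1
    have h2 := D.xn k c
    have h3 := D.Pn b
    rw [abs_mul]
    calc |xx J N k c| * |β k (S a) (S b)| ≤ (‖c‖ / N k) * (A * ‖S a‖ * ‖b‖) := by
          apply mul_le_mul h2 (h1.trans (by gcongr)) (abs_nonneg _) (by positivity)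
      _ = (A * ‖S a‖ * ‖b‖ * ‖c‖) * (N k)⁻¹ := by field_simp
      _ ≤ _ := by gcongr
  rw [TA_apply]
  have h1 := key b c
  have h2 := key c b
  calc _ ≤ |xx J N k c * β k (S a) (S b)| + |xx J N k b * β k (S a) (S c)| := abs_sub _ _
    _ ≤ _ := by linarith

theorem Dat.TD_le (D : Dat W m C A δ σ V J N β S P) (k l : Md) (a b c : K) :
    |TD V J N β S k l a b c| ≤ (A * ‖S a‖ * ‖b‖ * ‖c‖) * (nn N δ k * nn N δ l) := by
  have hA := D.hA
  have hk := D.N0 k
  have hl := D.N0 l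
  have h1 := D.bV k l (D.SP a) (s := 1 / 2) (by norm_num) (by norm_num)
  simp only at h1
  have h2 := D.xn k c
  have h3 := D.xn l b
  rw [TD_apply, abs_mul, abs_mul]
  have e1 : ∀ x : ℝ, 0 < x → x ^ (1 / 2 : ℝ) / x = x ^ (-(1 / 2) : ℝ) := by
    intro x hx
    rw [div_eq_mul_inv, ← Real.rpow_neg_one x, ← Real.rpow_add hx]
    norm_num
  calc |β k (S a) (V l)| * (|xx J N l b| * |xx J N k c|)
      ≤ (A * ‖S a‖ * (N k ^ (1 - 1 / 2 : ℝ) * N l ^ (1 / 2 : ℝ))) *
          ((‖b‖ / N l) * (‖c‖ / N k)) := by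
        apply mul_le_mul h1 _ (by positivity) (by positivity)
        exact mul_le_mul h3 h2 (abs_nonneg _) (by positivity)
    _ = (A * ‖S a‖ * ‖b‖ * ‖c‖) * ((N k ^ (1 / 2 : ℝ) / N k) * (N l ^ (1 / 2 : ℝ) / N l)) := by
        rw [show (1 - 1 / 2 : ℝ) = 1 / 2 by norm_num]
        field_simp
    _ = (A * ‖S a‖ * ‖b‖ * ‖c‖) * (N k ^ (-(1 / 2) : ℝ) * N l ^ (-(1 / 2) : ℝ)) := by
        rw [e1 _ hk, e1 _ hl]
    _ ≤ _ := by
        have h4 := D.nle k (s := -(1 / 2)) (by have := D.d1; linarith)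
        have h5 := D.nle l (s := -(1 / 2)) (by have := D.d1; linarith)
        have := D.n0 k
        gcongr

theorem Dat.sumA (D : Dat W m C A δ σ V J N β S P) : Summable (TA J N β S) := by
  have hA := D.hA
  have hC := D.Fr.C0
  refine Summable.of_norm_bounded (g := fun k => 2 * (A * C) * nn N δ k)
    (D.nsum.mul_left _) fun k => ?_
  have hn := D.n0 k
  refine tri_norm _ _ (by positivity) fun a b c => ?_
  refine (D.TA_le k a b c).trans ?_
  have := D.Sn a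
  calc 2 * (A * ‖S a‖ * ‖b‖ * ‖c‖) * nn N δ k
      ≤ 2 * (A * (C * ‖a‖) * ‖b‖ * ‖c‖) * nn N δ k := by gcongr
    _ = _ := by ring

theorem Dat.sumD (D : Dat W m C A δ σ V J N β S P) :
    Summable (fun x : Md × Md => TD V J N β S x.1 x.2) := by
  have hA := D.hA
  have hC := D.Fr.C0
  refine Summable.of_norm_bounded (g := fun x : Md × Md => (A * C) * (nn N δ x.1 * nn N δ x.2))
    (D.nprod.summable.mul_left _) fun x => ?_
  have h1 := D.n0 x.1
  have h2 := D.n0 x.2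
  refine tri_norm _ _ (by positivity) fun a b c => ?_
  refine (D.TD_le x.1 x.2 a b c).trans ?_
  have := D.Sn a
  calc (A * ‖S a‖ * ‖b‖ * ‖c‖) * (nn N δ x.1 * nn N δ x.2)
      ≤ (A * (C * ‖a‖) * ‖b‖ * ‖c‖) * (nn N δ x.1 * nn N δ x.2) := by gcongr
    _ = _ := by ring

/-- the form -/
noncomputable def QQ (V : Md → H) (J : Md → K) (N : Md → ℝ) (β : Md → H →L[ℝ] H →L[ℝ] ℝ)
    (S : K →L[ℝ] H) : K →L[ℝ] K →L[ℝ] K →L[ℝ] ℝ :=
  ∑' k, TA J N β S k - ∑' x : Md × Md, TD V J N β S x.1 x.2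

theorem Dat.hA' (D : Dat W m C A δ σ V J N β S P) (a b c : K) :
    HasSum (fun k => TA J N β S k a b c) ((∑' k, TA J N β S k) a b c) :=
  tri_hasSum D.sumA.hasSum a b c

theorem Dat.hD' (D : Dat W m C A δ σ V J N β S P) (a b c : K) :
    HasSum (fun x : Md × Md => TD V J N β S x.1 x.2 a b c)
      ((∑' x : Md × Md, TD V J N β S x.1 x.2) a b c) :=
  tri_hasSum D.sumD.hasSum a b c

theorem QQ_apply (V : Md → H) (J : Md → K) (N : Md → ℝ) (β : Md → H →L[ℝ] H →L[ℝ] ℝ)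
    (S : K →L[ℝ] H) (a b c : K) : QQ V J N β S a b c =
      (∑' k, TA J N β S k) a b c - (∑' x : Md × Md, TD V J N β S x.1 x.2) a b c := rfl

theorem Dat.bound (D : Dat W m C A δ σ V J N β S P) {a b c : K} {M : ℝ} (hM : 0 ≤ M)
    (h1 : ∀ k, |TA J N β S k a b c| ≤ 2 * M * nn N δ k)
    (h2 : ∀ k l, |TD V J N β S k l a b c| ≤ M * (nn N δ k * nn N δ l)) :
    |QQ V J N β S a b c| ≤ 3 * M * σ := by
  set s := ∑' k, nn N δ k with hs
  have hs0 : 0 ≤ s := tsum_nonneg fun k => (D.n0 k).le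
  have hs1 : s ≤ σ := D.ntsum
  have a1 : |(∑' k, TA J N β S k) a b c| ≤ 2 * M * s := by
    rw [← (D.hA' a b c).tsum_eq]
    exact tsum_of_norm_bounded (D.nsum.hasSum.mul_left _)
      fun k => by rw [Real.norm_eq_abs]; exact h1 k
  have a2 : |(∑' x : Md × Md, TD V J N β S x.1 x.2) a b c| ≤ M * (s * s) := by
    rw [← (D.hD' a b c).tsum_eq]
    exact tsum_of_norm_bounded (D.nprod.mul_left _)
      fun x => by rw [Real.norm_eq_abs]; exact h2 x.1 x.2
  rw [QQ_apply]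
  have h3 : s * s ≤ σ := by
    have := D.Sp.s1
    nlinarith
  calc _ ≤ |(∑' k, TA J N β S k) a b c| + |(∑' x : Md × Md, TD V J N β S x.1 x.2) a b c| :=
        abs_sub _ _
    _ ≤ 2 * M * s + M * (s * s) := add_le_add a1 a2
    _ ≤ 2 * M * σ + M * σ := by gcongr
    _ = _ := by ring

theorem Dat.anti (D : Dat W m C A δ σ V J N β S P) (a b c : K) :
    QQ V J N β S a b c = -QQ V J N β S a c b := by
  have h1 : (∑' k, TA J N β S k) a b c = -(∑' k, TA J N β S k) a c b := by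
    refine (D.hA' a b c).unique (hs_congr (D.hA' a c b).neg fun k => ?_)
    rw [TA_apply, TA_apply]
    ring
  have h2 : (∑' x : Md × Md, TD V J N β S x.1 x.2) a b c
      = -(∑' x : Md × Md, TD V J N β S x.1 x.2) a c b := by
    refine (D.hD' a b c).unique ?_
    have h3 := (D.hD' a c b).neg
    have h4 := (Equiv.prodComm Md Md).hasSum_iff.mpr h3
    refine hs_congr h4 fun x => ?_
    change TD V J N β S x.1 x.2 a b c = -TD V J N β S x.2 x.1 a c b
    rw [TD_apply, TD_apply, D.Mo.anti x.1 x.2 _ (D.SP a)]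
    ring
  rw [QQ_apply, QQ_apply, h1, h2]
  ring

theorem Dat.mode (D : Dat W m C A δ σ V J N β S P) (i : Md) {p : H × K} (hp : p ∈ W) :
    QQ V J N β S p.2 p.2 (J i) = ⟪m p.1, J i⟫_ℝ := by
  classical
  rw [D.Mo.self i p hp]
  have hSJ : S (J i) = V i := D.S1 _ (D.Mo.mem i)
  have hSp : S p.2 = p.1 := D.S1 _ hp
  set y : Md → ℝ := fun k => xx J N k p.2 * β k p.1 (V i) with hy
  have hys : Summable y := by
    refine Summable.of_norm_bounded (g := fun k => (A * ‖p.1‖ * N i * ‖p.2‖) * nn N δ k)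
      (D.nsum.mul_left _) fun k => ?_
    have h1 := D.Mo.b2 k p hp _ (D.Mo.mem i)
    simp only at h1
    rw [D.Jn i] at h1
    have h2 := D.xn k p.2
    have h3 := D.ninv k
    have hA := D.hA
    have h0 := D.N0 k
    have h0i := D.N0 i
    rw [Real.norm_eq_abs, hy]
    simp only
    rw [abs_mul]
    calc |xx J N k p.2| * |β k p.1 (V i)| ≤ (‖p.2‖ / N k) * (A * ‖p.1‖ * N i) :=
          mul_le_mul h2 h1 (abs_nonneg _) (by positivity)
      _ = (A * ‖p.1‖ * N i * ‖p.2‖) * (N k)⁻¹ := by field_simp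
      _ ≤ _ := by gcongr
  have e1 : (∑' k, TA J N β S k) p.2 p.2 (J i) = β i p.1 p.1 - ∑' k, y k := by
    refine (D.hA' _ _ _).unique ?_
    have h1 : HasSum (fun k => xx J N k (J i) * β k p.1 p.1) (β i p.1 p.1) := by
      have := hasSum_single (f := fun k => xx J N k (J i) * β k p.1 p.1) i (by
        intro k hk
        rw [D.xJ k i, if_neg hk, zero_mul])
      simpa [D.xJ i i] using this
    refine hs_congr (h1.sub hys.hasSum) fun k => ?_
    rw [TA_apply, hSp, hSJ]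
  have e2 : (∑' x : Md × Md, TD V J N β S x.1 x.2) p.2 p.2 (J i) = -∑' k, y k := by
    have h1 := (D.hD' p.2 p.2 (J i)).prod_fiberwise (g := fun k => if k = i then -∑' k, y k else 0)
      (by
        intro k
        by_cases h : k = i
        · subst h
          rw [if_pos rfl]
          refine hs_congr hys.hasSum.neg fun l => ?_
          rw [TD_apply, hSp, D.xJ k k, if_pos rfl, D.Mo.anti k l _ hp, hy]
          ring
        · rw [if_neg h]
          refine hs_congr hasSum_zero fun l => ?_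
          rw [TD_apply, D.xJ k i, if_neg h]
          ring)
    have h2 := hasSum_single (f := fun k => if k = i then -∑' k, y k else (0 : ℝ)) i (by
      intro k hk
      rw [if_neg hk])
    have := h1.unique h2
    simpa using this
  rw [QQ_apply, e1, e2]
  ring

theorem Dat.ini (D : Dat W m C A δ σ V J N β S P) (F : Finset Md) (c : Md → ℝ) {p : H × K}
    (hp : p ∈ W) : QQ V J N β S (∑ i ∈ F, c i • J i) (∑ i ∈ F, c i • J i) p.2
      = ⟪m (∑ i ∈ F, c i • V i), p.2⟫_ℝ := by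
  classical
  rw [D.Mo.adv F c p hp]
  set v := ∑ i ∈ F, c i • V i with hv
  set G := ∑ i ∈ F, c i • J i with hG
  have hvG : (v, G) ∈ W := by
    have : (v, G) = ∑ i ∈ F, c i • (V i, J i) := by
      rw [hv, hG]
      ext <;> simp [Prod.fst_sum, Prod.snd_sum]
    rw [this]
    exact Submodule.sum_mem _ fun i _ => W.smul_mem _ (D.Mo.mem i)
  have hSG : S G = v := D.S1 _ hvG
  have hSp : S p.2 = p.1 := D.S1 _ hp
  have hx : ∀ l, xx J N l G = if l ∈ F then c l else 0 := by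
    intro l
    rw [hG, map_sum]
    simp only [map_smul, D.xJ l, smul_eq_mul, mul_ite, mul_one, mul_zero]
    rw [Finset.sum_ite_eq]
  set y : Md → ℝ := fun k => xx J N k p.2 * β k v v with hy
  have hys : Summable y := by
    refine Summable.of_norm_bounded (g := fun k => (A * ‖v‖ * ‖G‖ * ‖p.2‖) * nn N δ k)
      (D.nsum.mul_left _) fun k => ?_
    have h1 := D.Mo.b2 k _ hvG _ hvG
    simp only at h1
    have h2 := D.xn k p.2
    have h3 := D.ninv k
    have hA := D.hA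
    have h0 := D.N0 k
    rw [Real.norm_eq_abs, hy]
    simp only
    rw [abs_mul]
    calc |xx J N k p.2| * |β k v v| ≤ (‖p.2‖ / N k) * (A * ‖v‖ * ‖G‖) :=
          mul_le_mul h2 h1 (abs_nonneg _) (by positivity)
      _ = (A * ‖v‖ * ‖G‖ * ‖p.2‖) * (N k)⁻¹ := by field_simp
      _ ≤ _ := by gcongr
  have e1 : (∑' k, TA J N β S k) G G p.2 = ∑' k, y k - ∑ k ∈ F, c k * β k v p.1 := by
    refine (D.hA' _ _ _).unique ?_
    have h1 : HasSum (fun k => xx J N k G * β k v p.1) (∑ k ∈ F, c k * β k v p.1) := by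
      have : HasSum (fun k => xx J N k G * β k v p.1) (∑ k ∈ F, xx J N k G * β k v p.1) :=
        hasSum_sum_of_ne_finset_zero (by
          intro k hk
          rw [hx k, if_neg hk, zero_mul])
      have h7 : ∑ k ∈ F, xx J N k G * β k v p.1 = ∑ k ∈ F, c k * β k v p.1 :=
        Finset.sum_congr rfl fun k hk => by rw [hx k, if_pos hk]
      rwa [h7] at this
    refine hs_congr (hys.hasSum.sub h1) fun k => ?_
    rw [TA_apply, hSp, hSG]
  have e2 : (∑' x : Md × Md, TD V J N β S x.1 x.2) G G p.2 = ∑' k, y k := by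
    have h1 := (D.hD' G G p.2).prod_fiberwise (g := y)
      (by
        intro k
        have h2 : HasSum (fun l => TD V J N β S k l G G p.2)
            (∑ l ∈ F, TD V J N β S k l G G p.2) :=
          hasSum_sum_of_ne_finset_zero (by
            intro l hl
            rw [TD_apply, hx l, if_neg hl]
            ring)
        have h3 : β k v v = ∑ l ∈ F, c l * β k v (V l) := by
          have h8 : β k v (∑ l ∈ F, c l • V l) = ∑ l ∈ F, c l * β k v (V l) := by
            rw [map_sum]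
            refine Finset.sum_congr rfl fun l _ => ?_
            rw [map_smul, smul_eq_mul]
          rw [← hv] at h8
          exact h8
        have h9 : ∑ l ∈ F, TD V J N β S k l G G p.2 = y k := by
          rw [hy]
          change _ = xx J N k p.2 * β k v v
          rw [h3, Finset.mul_sum]
          refine Finset.sum_congr rfl fun l hl => ?_
          rw [TD_apply, hx l, if_pos hl, hSG]
          ring
        rwa [h9] at h2)
    exact h1.unique hys.hasSum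
  rw [QQ_apply, e1, e2]
  ring

/-- the estimate in the first argument -/
theorem Dat.f1 (D : Dat W m C A δ σ V J N β S P) {p q : H × K} (hp : p ∈ W) (c : K) :
    |QQ V J N β S p.2 q.2 c|
      ≤ 3 * A * C ^ δ * σ * (‖p.1‖ ^ (1 - δ) * ‖p.2‖ ^ δ * ‖q.2‖ * ‖c‖) := by
  have hA := D.hA
  have hC := D.Fr.C0
  have hSp : S p.2 = p.1 := D.S1 _ hp
  have h1 := D.bound (a := p.2) (b := q.2) (c := c) (M := A * ‖p.1‖ * ‖q.2‖ * ‖c‖)
    (by positivity) (fun k => by have := D.TA_le k p.2 q.2 c; rwa [hSp] at this)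
    (fun k l => by have := D.TD_le k l p.2 q.2 c; rwa [hSp] at this)
  have h2 : ‖p.1‖ ≤ ‖p.1‖ ^ (1 - δ) * (C * ‖p.2‖) ^ δ :=
    interp (norm_nonneg _) le_rfl (D.Fr.poinc p hp) D.d0.le (by have := D.d1; linarith)
  rw [Real.mul_rpow hC.le (norm_nonneg _)] at h2
  have hs := D.Sp.s0
  calc _ ≤ 3 * (A * ‖p.1‖ * ‖q.2‖ * ‖c‖) * σ := h1
    _ ≤ 3 * (A * (‖p.1‖ ^ (1 - δ) * (C ^ δ * ‖p.2‖ ^ δ)) * ‖q.2‖ * ‖c‖) * σ := by gcongr
    _ = _ := by ring

/-- the estimate in the second argument -/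
theorem Dat.f2 (D : Dat W m C A δ σ V J N β S P) {p q : H × K} (hp : p ∈ W) (hq : q ∈ W) (c : K) :
    |QQ V J N β S p.2 q.2 c|
      ≤ 3 * A * C * σ * (‖p.2‖ * (‖q.1‖ ^ (1 - δ) * ‖q.2‖ ^ δ) * ‖c‖) := by
  have hA := D.hA
  have hC := D.Fr.C0
  have d0 := D.d0
  have d1 := D.d1
  have hSp : S p.2 = p.1 := D.S1 _ hp
  have hSq : S q.2 = q.1 := D.S1 _ hq
  set X := ‖q.1‖ ^ (1 - δ) * ‖q.2‖ ^ δ with hX
  have hX0 : 0 ≤ X := by positivity
  have hxq : ∀ k, |xx J N k q.2| ≤ X * N k ^ (-δ) := by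
    intro k
    have h0 := D.N0 k
    have h1 : |xx J N k q.2| ≤ ‖q.1‖ ^ (1 - δ) * (‖q.2‖ / N k) ^ δ :=
      interp (abs_nonneg _) (D.xV k hq) (D.xn k q.2) d0.le (by linarith)
    rw [Real.div_rpow (norm_nonneg _) h0.le] at h1
    rw [Real.rpow_neg h0.le]
    calc _ ≤ _ := h1
      _ = _ := by rw [hX]; ring
  have hnd : ∀ k, N k ^ (-δ) ≤ nn N δ k := fun k => D.nle k (by linarith)
  have h1 := D.bound (a := p.2) (b := q.2) (c := c) (M := A * ‖p.1‖ * X * ‖c‖)
    (by positivity) (fun k => by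
      have h0 := D.N0 k
      have hn0 := D.n0 k
      rw [TA_apply, hSp, hSq]
      have b1 : |β k p.1 q.1| ≤ A * ‖p.1‖ * (N k ^ (1 - δ) * X) := by
        have t1 : |β k p.1 q.1| ≤ A * ‖p.1‖ * (N k * ‖q.1‖) :=
          (D.Mo.b1 k p.1 q.1).trans (le_of_eq (by ring))
        have t2 := D.Mo.b2 k p hp q hq
        have hZ0 : 0 ≤ A * ‖p.1‖ := by positivity
        generalize A * ‖p.1‖ = Z at t1 t2 hZ0 ⊢
        have t3 : |β k p.1 q.1| ≤ (Z * (N k * ‖q.1‖)) ^ (1 - δ) * (Z * ‖q.2‖) ^ δ :=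
          interp (abs_nonneg _) t1 t2 d0.le (by linarith)
        rw [Real.mul_rpow hZ0 (by positivity), Real.mul_rpow hZ0 (norm_nonneg _),
          Real.mul_rpow h0.le (norm_nonneg _)] at t3
        refine t3.trans (le_of_eq ?_)
        have t4 : Z ^ (1 - δ) * Z ^ δ = Z := by
          rw [← Real.rpow_add_of_nonneg hZ0 (by linarith) d0.le]
          simp
        rw [hX]
        calc _ = (Z ^ (1 - δ) * Z ^ δ) *
              (N k ^ (1 - δ) * (‖q.1‖ ^ (1 - δ) * ‖q.2‖ ^ δ)) := by ring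
          _ = _ := by rw [t4]
      have b2 : |xx J N k c * β k p.1 q.1| ≤ (A * ‖p.1‖ * X * ‖c‖) * nn N δ k := by
        rw [abs_mul]
        have t1 := D.xn k c
        have t2 : N k ^ (1 - δ) / N k = N k ^ (-δ) := by
          rw [div_eq_mul_inv, ← Real.rpow_neg_one (N k), ← Real.rpow_add h0]
          congr 1
          ring
        calc _ ≤ (‖c‖ / N k) * (A * ‖p.1‖ * (N k ^ (1 - δ) * X)) :=
              mul_le_mul t1 b1 (abs_nonneg _) (by positivity)
          _ = (A * ‖p.1‖ * X * ‖c‖) * (N k ^ (1 - δ) / N k) := by field_simp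
          _ = (A * ‖p.1‖ * X * ‖c‖) * N k ^ (-δ) := by rw [t2]
          _ ≤ _ := by have := hnd k; gcongr
      have b3 : |xx J N k q.2 * β k p.1 (S c)| ≤ (A * ‖p.1‖ * X * ‖c‖) * nn N δ k := by
        rw [abs_mul]
        have t1 := D.Mo.b2 k p hp _ (D.SP c)
        simp only at t1
        have t2 := D.Pn c
        have t3 := hnd k
        calc _ ≤ (X * N k ^ (-δ)) * (A * ‖p.1‖ * ‖c‖) := by
              apply mul_le_mul (hxq k) (t1.trans (by gcongr)) (abs_nonneg _) (by positivity)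
          _ = (A * ‖p.1‖ * X * ‖c‖) * N k ^ (-δ) := by ring
          _ ≤ _ := by gcongr
      calc _ ≤ |xx J N k c * β k p.1 q.1| + |xx J N k q.2 * β k p.1 (S c)| := abs_sub _ _
        _ ≤ _ := by linarith)
    (fun k l => by
      have hk := D.N0 k
      have hl := D.N0 l
      have hnk := D.n0 k
      have hnl := D.n0 l
      rw [TD_apply, hSp, abs_mul, abs_mul]
      have t1 := D.bV k l hp (s := δ / 2) (by linarith) (by linarith)
      have t2 := D.xn k c
      have t3 := hxq l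
      have t4 : N k ^ (1 - δ / 2) / N k = N k ^ (-(δ / 2)) := by
        rw [div_eq_mul_inv, ← Real.rpow_neg_one (N k), ← Real.rpow_add hk]
        congr 1
        ring
      have t5 : N l ^ (δ / 2) * N l ^ (-δ) = N l ^ (-(δ / 2)) := by
        rw [← Real.rpow_add hl]
        congr 1
        ring
      calc _ ≤ (A * ‖p.1‖ * (N k ^ (1 - δ / 2) * N l ^ (δ / 2))) *
            ((X * N l ^ (-δ)) * (‖c‖ / N k)) := by
            apply mul_le_mul t1 _ (by positivity) (by positivity)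
            exact mul_le_mul t3 t2 (abs_nonneg _) (by positivity)
        _ = (A * ‖p.1‖ * X * ‖c‖) * ((N k ^ (1 - δ / 2) / N k) * (N l ^ (δ / 2) * N l ^ (-δ))) := by
            field_simp
        _ = _ := by rw [t4, t5]; rfl
        _ ≤ _ := le_rfl)
  have hs := D.Sp.s0
  have h2 := D.Fr.poinc p hp
  calc _ ≤ 3 * (A * ‖p.1‖ * X * ‖c‖) * σ := h1
    _ ≤ 3 * (A * (C * ‖p.2‖) * X * ‖c‖) * σ := by gcongr
    _ = _ := by ring

end dat

end Q1

/-- q1: the first part of the perturbation -/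
theorem q1_s : S_q1 := by
  intro H K _ _ _ _ _ _ W m C A δ Fr hA d0 d1
  obtain ⟨S, P, h1, h2, h3, h4, h5⟩ := Q1.exists_SP Fr
  have hC := Fr.C0
  have hCd : 0 < C ^ δ := Real.rpow_pos_of_pos hC δ
  refine ⟨3 * A * C ^ δ + 3 * A * C + 1, by positivity, ?_⟩
  intro V J N β σ Mo Sp
  have D : Q1.Dat W m C A δ σ V J N β S P :=
    ⟨Fr, hA, d0, d1, Mo, Sp, h1, h2, h3, h4, h5⟩
  have hs := Sp.s0
  have f2 : ∀ p ∈ W, ∀ q ∈ W, ∀ c : K, |Q1.QQ V J N β S p.2 q.2 c| ≤
      ((3 * A * C ^ δ + 3 * A * C + 1) * σ) * (‖p.2‖ * (‖q.1‖ ^ (1 - δ) * ‖q.2‖ ^ δ) * ‖c‖) := by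
    intro p hp q hq c
    refine (D.f2 hp hq c).trans ?_
    apply mul_le_mul_of_nonneg_right _ (by positivity)
    apply mul_le_mul_of_nonneg_right _ hs
    have : 0 ≤ 3 * A * C ^ δ := by positivity
    linarith
  refine ⟨Q1.QQ V J N β S, ⟨D.anti, fun i p hp => D.mode i hp, fun F c p hp => D.ini F c hp⟩,
    ⟨?_, f2, ?_⟩⟩
  · intro p hp q hq c
    refine (D.f1 hp c).trans ?_
    apply mul_le_mul_of_nonneg_right _ (by positivity)
    apply mul_le_mul_of_nonneg_right _ hs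
    have : 0 ≤ 3 * A * C := by positivity
    linarith
  · intro p hp q hq r hr
    have h6 := f2 p hp r hr q.2
    rw [D.anti, abs_neg]
    calc _ ≤ _ := h6
      _ = _ := by ring

end Pool.Agent.T2H10.LO
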