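import Pool.Agent.T2H10.LO.Stm

/-!
The second part of the perturbation: the cascade (abstract functional analysis).
-/

set_option autoImplicit false
set_option maxSynthPendingDepth 3
set_option linter.unusedSectionVars false

open MeasureTheory Set Filter Topology
open scoped InnerProductSpace ENNReal ContDiff NNReal

namespace Pool.Agent.T2H10.LO

open H772R2.NS
open Pool.Agent.T2H10 (Md)
open Pool.Agent.T2H10.Md
open H772R2.NSR (Frame)

namespace Q2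

variable {H K : Type} [NormedAddCommGroup H] [InnerProductSpace ℝ H] [CompleteSpace H]
  [NormedAddCommGroup K] [InnerProductSpace ℝ K] [CompleteSpace K]
  {W : Submodule ℝ (H × K)} {m : H → K} {A : ℝ} {V : Md → H} {J : Md → K} {N : Md → ℝ}
  {β : Md → H →L[ℝ] H →L[ℝ] ℝ}

theorem pos (M : Modes W m A V J N β) (i : Md) : 0 < N i := lt_of_lt_of_le one_pos (M.one i)

theorem gramJ (M : Modes W m A V J N β) (i j : Md) : ⟪J i, J j⟫_ℝ = N i ^ 2 * ⟪V i, V j⟫_ℝ :=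
  M.eig i _ (M.mem j)

theorem orthV (M : Modes W m A V J N β) {i j : Md} (h : i ≠ j) : ⟪V i, V j⟫_ℝ = 0 := by
  have h1 := gramJ M i j
  have h2 := gramJ M j i
  rw [real_inner_comm, h1, real_inner_comm (V i) (V j)] at h2
  have h3 : (N i ^ 2 - N j ^ 2) * ⟪V i, V j⟫_ℝ = 0 := by
    rw [sub_mul, sub_eq_zero]; linarith
  rcases mul_eq_zero.1 h3 with h4 | h4
  · exfalso
    have h5 : (N i - N j) * (N i + N j) = 0 := by ring_nf; ring_nf at h4; exact h4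
    rcases mul_eq_zero.1 h5 with h6 | h6
    · exact M.ne i j h (sub_eq_zero.1 h6)
    · have := pos M i
      have := pos M j
      linarith
  · exact h4

theorem selfV (M : Modes W m A V J N β) (i : Md) : ⟪V i, V i⟫_ℝ = 1 := by
  rw [real_inner_self_eq_norm_sq, M.unit i, one_pow]

theorem normJ (M : Modes W m A V J N β) (i : Md) : ‖J i‖ = N i := by
  have h1 := gramJ M i i
  rw [selfV M, mul_one, real_inner_self_eq_norm_sq] at h1
  exact (pow_left_inj₀ (norm_nonneg _) (pos M i).le two_ne_zero).1 h1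

/-- the coordinates -/
noncomputable def xc (J : Md → K) (N : Md → ℝ) (i : Md) : K →L[ℝ] ℝ :=
  (N i ^ 2)⁻¹ • innerSL ℝ (J i)

theorem xc_apply (i : Md) (G : K) : xc J N i G = (N i ^ 2)⁻¹ * ⟪J i, G⟫_ℝ := rfl

theorem xc_W (M : Modes W m A V J N β) (i : Md) {p : H × K} (hp : p ∈ W) :
    xc J N i p.2 = ⟪p.1, V i⟫_ℝ := by
  rw [xc_apply, M.eig i p hp, real_inner_comm, inv_mul_cancel_left₀]
  exact pow_ne_zero _ (pos M i).ne'

theorem xc_J (M : Modes W m A V J N β) (i j : Md) :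
    xc J N i (J j) = if i = j then 1 else 0 := by
  have h := xc_W M i (M.mem j)
  simp only at h
  rw [h]
  split_ifs with h'
  · subst h'; exact selfV M i
  · exact orthV M fun e => h' e.symm

theorem xc_le (M : Modes W m A V J N β) (i : Md) (c : K) :
    |xc J N i c| ≤ ‖c‖ * N i ^ (-1 : ℝ) := by
  have hN := pos M i
  rw [xc_apply, abs_mul, abs_of_pos (inv_pos.2 (pow_pos hN 2)), Real.rpow_neg_one]
  have h1 : |⟪J i, c⟫_ℝ| ≤ N i * ‖c‖ := by
    have := abs_real_inner_le_norm (J i) c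
    rwa [normJ M] at this
  calc (N i ^ 2)⁻¹ * |⟪J i, c⟫_ℝ| ≤ (N i ^ 2)⁻¹ * (N i * ‖c‖) :=
        mul_le_mul_of_nonneg_left h1 (inv_pos.2 (pow_pos hN 2)).le
    _ = ‖c‖ * (N i)⁻¹ := by field_simp

theorem xc_le1 (M : Modes W m A V J N β) (i : Md) {p : H × K} (hp : p ∈ W) :
    |xc J N i p.2| ≤ ‖p.1‖ := by
  rw [xc_W M i hp]
  have := abs_real_inner_le_norm p.1 (V i)
  rwa [M.unit i, mul_one] at this

theorem xc_int (M : Modes W m A V J N β) (i : Md) {p : H × K} (hp : p ∈ W) {δ : ℝ} (h0 : 0 ≤ δ)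
    (h1 : δ ≤ 1) : |xc J N i p.2| ≤ (‖p.1‖ ^ (1 - δ) * ‖p.2‖ ^ δ) * N i ^ (-δ) := by
  have hN := pos M i
  have ha := abs_nonneg (xc J N i p.2)
  have h2 := xc_le M i p.2
  have h3 := xc_le1 M i hp
  calc |xc J N i p.2| = |xc J N i p.2| ^ (1 - δ) * |xc J N i p.2| ^ δ := by
        rw [← Real.rpow_add_of_nonneg ha (by linarith) h0, sub_add_cancel, Real.rpow_one]
    _ ≤ ‖p.1‖ ^ (1 - δ) * (‖p.2‖ * N i ^ (-1 : ℝ)) ^ δ :=
        mul_le_mul (Real.rpow_le_rpow ha h3 (by linarith)) (Real.rpow_le_rpow ha h2 h0)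
          (Real.rpow_nonneg ha _) (Real.rpow_nonneg (norm_nonneg _) _)
    _ = _ := by
        rw [Real.mul_rpow (norm_nonneg _) (Real.rpow_nonneg hN.le _), ← Real.rpow_mul hN.le,
          neg_one_mul, mul_assoc]

/-- trilinear forms of rank one -/
noncomputable def T3 (a b c : K →L[ℝ] ℝ) : K →L[ℝ] K →L[ℝ] K →L[ℝ] ℝ :=
  a.smulRight (b.smulRight c)

theorem T3_apply (a b c : K →L[ℝ] ℝ) (u v w : K) : T3 a b c u v w = a u * (b v * c w) := rfl

theorem norm_le3 {Q : K →L[ℝ] K →L[ℝ] K →L[ℝ] ℝ} {D : ℝ} (hD : 0 ≤ D)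
    (h : ∀ u v w, |Q u v w| ≤ D * (‖u‖ * ‖v‖ * ‖w‖)) : ‖Q‖ ≤ D := by
  refine ContinuousLinearMap.opNorm_le_bound _ hD fun u => ?_
  refine ContinuousLinearMap.opNorm_le_bound _ (by positivity) fun v => ?_
  refine ContinuousLinearMap.opNorm_le_bound _ (by positivity) fun w => ?_
  rw [Real.norm_eq_abs]
  calc _ ≤ _ := h u v w
    _ = _ := by ring

theorem wt {δ k a b c s1 s2 s3 : ℝ} (hδ : 0 ≤ δ) (ha : 1 ≤ a) (hb : 1 ≤ b) (hc : 1 ≤ c)
    (hk : 0 ≤ k) (h1 : 0 ≤ s1) (h2 : 0 ≤ s2) (h3 : 0 ≤ s3) (hs : 2 + δ ≤ s1 + s2 + s3)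
    (ka : k ≤ a ^ (2 + δ / 2)) (kb : k ≤ b ^ (2 + δ / 2)) (kc : k ≤ c ^ (2 + δ / 2)) :
    k * (a ^ (-s1) * (b ^ (-s2) * c ^ (-s3)))
      ≤ a ^ (-(δ / 2)) + b ^ (-(δ / 2)) + c ^ (-(δ / 2)) := by
  obtain ⟨α, hα1, hαa, hαb, hαc, hαk, hαs⟩ : ∃ α : ℝ, 1 ≤ α ∧ α ≤ a ∧ α ≤ b ∧ α ≤ c ∧
      k ≤ α ^ (2 + δ / 2) ∧
      α ^ (-(δ / 2)) ≤ a ^ (-(δ / 2)) + b ^ (-(δ / 2)) + c ^ (-(δ / 2)) := by
    have pa : 0 ≤ a ^ (-(δ / 2)) := Real.rpow_nonneg (by linarith) _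
    have pb : 0 ≤ b ^ (-(δ / 2)) := Real.rpow_nonneg (by linarith) _
    have pc : 0 ≤ c ^ (-(δ / 2)) := Real.rpow_nonneg (by linarith) _
    rcases le_total a b with hab | hab
    · rcases le_total a c with hac | hac
      · exact ⟨a, ha, le_rfl, hab, hac, ka, by linarith⟩
      · exact ⟨c, hc, hac, hac.trans hab, le_rfl, kc, by linarith⟩
    · rcases le_total b c with hbc | hbc
      · exact ⟨b, hb, hab, le_rfl, hbc, kb, by linarith⟩
      · exact ⟨c, hc, hbc.trans hab, hbc, le_rfl, kc, by linarith⟩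
  have hα0 : 0 < α := by linarith
  refine le_trans ?_ hαs
  have ea : a ^ (-s1) ≤ α ^ (-s1) :=
    Real.rpow_le_rpow_of_nonpos hα0 hαa (by linarith)
  have eb : b ^ (-s2) ≤ α ^ (-s2) :=
    Real.rpow_le_rpow_of_nonpos hα0 hαb (by linarith)
  have ec : c ^ (-s3) ≤ α ^ (-s3) :=
    Real.rpow_le_rpow_of_nonpos hα0 hαc (by linarith)
  have pb : 0 ≤ b ^ (-s2) := Real.rpow_nonneg (by linarith) _
  have pa : 0 ≤ a ^ (-s1) := Real.rpow_nonneg (by linarith) _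
  have pc : 0 ≤ c ^ (-s3) := Real.rpow_nonneg (by linarith) _
  calc k * (a ^ (-s1) * (b ^ (-s2) * c ^ (-s3)))
      ≤ α ^ (2 + δ / 2) * (α ^ (-s1) * (α ^ (-s2) * α ^ (-s3))) := by gcongr
    _ = α ^ ((2 + δ / 2) + (-s1 + (-s2 + -s3))) := by
        rw [Real.rpow_add hα0 (2 + δ / 2), Real.rpow_add hα0 (-s1), Real.rpow_add hα0 (-s2)]
    _ ≤ α ^ (-(δ / 2)) := Real.rpow_le_rpow_of_exponent_le hα1 (by linarith)

/-- bounds for the coordinates of a vector -/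
def Bd (J : Md → K) (N : Md → ℝ) (u : K) (X s : ℝ) : Prop :=
  0 ≤ X ∧ 0 ≤ s ∧ ∀ i, |xc J N i u| ≤ X * N i ^ (-s)

theorem term_le (M : Modes W m A V J N β) {δ k s1 s2 s3 X Y Z' : ℝ} {u v w : K} (hδ : 0 ≤ δ)
    (hk : 0 ≤ k) (hu : Bd J N u X s1) (hv : Bd J N v Y s2) (hw : Bd J N w Z' s3)
    (hs : 2 + δ ≤ s1 + s2 + s3) (i j l : Md) (ki : k ≤ N i ^ (2 + δ / 2))
    (kj : k ≤ N j ^ (2 + δ / 2)) (kl : k ≤ N l ^ (2 + δ / 2)) :
    |k * (xc J N i u * (xc J N j v * xc J N l w))| ≤ X * Y * Z' *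
      (N i ^ (-(δ / 2)) + N j ^ (-(δ / 2)) + N l ^ (-(δ / 2))) := by
  obtain ⟨hX, h1, hu⟩ := hu
  obtain ⟨hY, h2, hv⟩ := hv
  obtain ⟨hZ, h3, hw⟩ := hw
  have pi : 0 ≤ N i ^ (-s1) := Real.rpow_nonneg (pos M i).le _
  have pj : 0 ≤ N j ^ (-s2) := Real.rpow_nonneg (pos M j).le _
  have pl : 0 ≤ N l ^ (-s3) := Real.rpow_nonneg (pos M l).le _
  rw [abs_mul, abs_mul, abs_mul, abs_of_nonneg hk]
  calc k * (|xc J N i u| * (|xc J N j v| * |xc J N l w|))
      ≤ k * ((X * N i ^ (-s1)) * ((Y * N j ^ (-s2)) * (Z' * N l ^ (-s3)))) := by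
        gcongr
        · exact hu i
        · exact hv j
        · exact hw l
    _ = X * Y * Z' * (k * (N i ^ (-s1) * (N j ^ (-s2) * N l ^ (-s3)))) := by ring
    _ ≤ _ := by
        refine mul_le_mul_of_nonneg_left ?_ (by positivity)
        exact wt hδ (M.one i) (M.one j) (M.one l) hk h1 h2 h3 hs ki kj kl

/-- the `n`-th part of the form -/
noncomputable def qn (J : Md → K) (N : Md → ℝ) (kk g : ℕ → ℝ) (n : ℕ) :
    K →L[ℝ] K →L[ℝ] K →L[ℝ] ℝ :=
  kk n • (T3 (xc J N (S n)) (xc J N (S n)) (xc J N (P n))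
      - T3 (xc J N (S n)) (xc J N (P n)) (xc J N (S n)))
    - kk n • (T3 (xc J N (S n)) (xc J N (S n)) (xc J N (P (n + 1)))
      - T3 (xc J N (S n)) (xc J N (P (n + 1))) (xc J N (S n)))
    - g n • (T3 (xc J N Z) (xc J N Z) (xc J N (S n)) - T3 (xc J N Z) (xc J N (S n)) (xc J N Z))

theorem qn_apply (kk g : ℕ → ℝ) (n : ℕ) (u v w : K) : qn J N kk g n u v w =
    kk n * (xc J N (S n) u * (xc J N (S n) v * xc J N (P n) w))
    - kk n * (xc J N (S n) u * (xc J N (P n) v * xc J N (S n) w))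
    - (kk n * (xc J N (S n) u * (xc J N (S n) v * xc J N (P (n + 1)) w))
    - kk n * (xc J N (S n) u * (xc J N (P (n + 1)) v * xc J N (S n) w)))
    - (g n * (xc J N Z u * (xc J N Z v * xc J N (S n) w))
    - g n * (xc J N Z u * (xc J N (S n) v * xc J N Z w))) := by
  simp only [qn, _root_.sub_apply, _root_.smul_apply, T3_apply,
    smul_eq_mul]
  ring

theorem qn_anti (kk g : ℕ → ℝ) (n : ℕ) (u v w : K) :
    qn J N kk g n u v w = -qn J N kk g n u w v := by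
  rw [qn_apply, qn_apply]
  ring

/-- the bounds -/
noncomputable def Dn (N : Md → ℝ) (δ σ : ℝ) (n : ℕ) : ℝ :=
  8 * N (S n) ^ (-(δ / 2)) + 2 * N (P n) ^ (-(δ / 2)) + 2 * N (P (n + 1)) ^ (-(δ / 2))
    + 6 * σ * (1 / 2) ^ n

theorem e_nonneg (M : Modes W m A V J N β) (δ : ℝ) (i : Md) : 0 ≤ N i ^ (-(δ / 2)) :=
  Real.rpow_nonneg (pos M i).le _

theorem e_le {δ σ : ℝ} (Sp : Sparse N δ σ) (i : Md) : N i ^ (-(δ / 2)) ≤ σ := by
  have := Sp.sum {i}
  simpa using this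

theorem Dn_nonneg (M : Modes W m A V J N β) {δ σ : ℝ} (Sp : Sparse N δ σ) (n : ℕ) :
    0 ≤ Dn N δ σ n := by
  have h1 := e_nonneg M δ (S n)
  have h2 := e_nonneg M δ (P n)
  have h3 := e_nonneg M δ (P (n + 1))
  have h4 : 0 ≤ 6 * σ * (1 / 2) ^ n := by
    have := Sp.s0
    positivity
  unfold Dn
  linarith

theorem inS : Function.Injective Md.S := fun _ _ h => Md.S.inj h
theorem inP : Function.Injective Md.P := fun _ _ h => Md.P.inj h
theorem inP' : Function.Injective fun n => Md.P (n + 1) := fun _ _ h => by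
  have := Md.P.inj h
  omega

theorem Dn_sum {δ σ : ℝ} (Sp : Sparse N δ σ) (F : Finset ℕ) : ∑ n ∈ F, Dn N δ σ n ≤ 24 * σ := by
  have h1 : ∑ n ∈ F, N (S n) ^ (-(δ / 2)) ≤ σ := by
    have := Sp.sum (F.map ⟨_, inS⟩)
    rwa [Finset.sum_map] at this
  have h2 : ∑ n ∈ F, N (P n) ^ (-(δ / 2)) ≤ σ := by
    have := Sp.sum (F.map ⟨_, inP⟩)
    rwa [Finset.sum_map] at this
  have h3 : ∑ n ∈ F, N (P (n + 1)) ^ (-(δ / 2)) ≤ σ := by
    have := Sp.sum (F.map ⟨_, inP'⟩)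
    rwa [Finset.sum_map] at this
  have h4 : ∑ n ∈ F, (1 / 2 : ℝ) ^ n ≤ 2 := by
    have := summable_geometric_two.sum_le_tsum F fun n _ => by positivity
    rwa [tsum_geometric_two] at this
  unfold Dn
  rw [Finset.sum_add_distrib, Finset.sum_add_distrib, Finset.sum_add_distrib, ← Finset.mul_sum,
    ← Finset.mul_sum, ← Finset.mul_sum, ← Finset.mul_sum]
  have h5 : 6 * σ * ∑ n ∈ F, (1 / 2 : ℝ) ^ n ≤ 6 * σ * 2 :=
    mul_le_mul_of_nonneg_left h4 (by have := Sp.s0; positivity)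
  linarith

variable {δ σ : ℝ} {kk g : ℕ → ℝ}

theorem gterm_le (M : Modes W m A V J N β) {s1 s2 s3 X Y Z' : ℝ} {u v w : K}
    (hδ : 0 ≤ δ) (Sp : Sparse N δ σ) (Co : Coef N δ kk g)
    (hu : Bd J N u X s1) (hv : Bd J N v Y s2) (hw : Bd J N w Z' s3)
    (hs : 2 + δ ≤ s1 + s2 + s3) (n : ℕ) (i j l : Md) (hi : i = Z ∨ i = S n)
    (hj : j = Z ∨ j = S n) (hl : l = Z ∨ l = S n) :
    |g n * (xc J N i u * (xc J N j v * xc J N l w))| ≤ X * Y * Z' * (3 * σ * (1 / 2) ^ n) := by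
  have hg : ∀ i, (i = Z ∨ i = S n) → 2 ^ n * g n ≤ N i ^ (2 + δ / 2) := by
    rintro i (rfl | rfl)
    · exact Co.gZ n
    · exact Co.gS n
  have h := term_le M (k := 2 ^ n * g n) hδ (mul_nonneg (by positivity) (Co.g0 n)) hu hv hw hs
    i j l (hg i hi) (hg j hj) (hg l hl)
  have hX : 0 ≤ X * Y * Z' := mul_nonneg (mul_nonneg hu.1 hv.1) hw.1
  have h2 : |2 ^ n * g n * (xc J N i u * (xc J N j v * xc J N l w))| ≤ X * Y * Z' * (3 * σ) := by
    refine h.trans (mul_le_mul_of_nonneg_left ?_ hX)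
    have h1 := e_le Sp i
    have h2 := e_le Sp j
    have h3 := e_le Sp l
    linarith
  have h3 : g n * (xc J N i u * (xc J N j v * xc J N l w)) =
      (1 / 2) ^ n * (2 ^ n * g n * (xc J N i u * (xc J N j v * xc J N l w))) := by
    have : (1 / 2 : ℝ) ^ n * 2 ^ n = 1 := by rw [← mul_pow]; norm_num
    calc _ = 1 * (g n * (xc J N i u * (xc J N j v * xc J N l w))) := by rw [one_mul]
      _ = ((1 / 2) ^ n * 2 ^ n) * (g n * (xc J N i u * (xc J N j v * xc J N l w))) := by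
        rw [this]
      _ = _ := by ring
  rw [h3, abs_mul, abs_of_nonneg (by positivity : (0 : ℝ) ≤ (1 / 2) ^ n)]
  calc _ ≤ (1 / 2) ^ n * (X * Y * Z' * (3 * σ)) := mul_le_mul_of_nonneg_left h2 (by positivity)
    _ = _ := by ring

theorem qn_le (M : Modes W m A V J N β) {s1 s2 s3 X Y Z' : ℝ} {u v w : K}
    (hδ : 0 ≤ δ) (Sp : Sparse N δ σ) (Co : Coef N δ kk g)
    (hu : Bd J N u X s1) (hv : Bd J N v Y s2) (hw : Bd J N w Z' s3)
    (hs : 2 + δ ≤ s1 + s2 + s3) (n : ℕ) :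
    |qn J N kk g n u v w| ≤ X * Y * Z' * Dn N δ σ n := by
  have t1 := abs_le.1 (term_le M hδ (Co.k0 n) hu hv hw hs (S n) (S n) (P n) (Co.kS n) (Co.kS n)
    (Co.kP n))
  have t2 := abs_le.1 (term_le M hδ (Co.k0 n) hu hv hw hs (S n) (P n) (S n) (Co.kS n) (Co.kP n)
    (Co.kS n))
  have t3 := abs_le.1 (term_le M hδ (Co.k0 n) hu hv hw hs (S n) (S n) (P (n + 1)) (Co.kS n)
    (Co.kS n) (Co.kP' n))
  have t4 := abs_le.1 (term_le M hδ (Co.k0 n) hu hv hw hs (S n) (P (n + 1)) (S n) (Co.kS n)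
    (Co.kP' n) (Co.kS n))
  have t5 := abs_le.1 (gterm_le M hδ Sp Co hu hv hw hs n Z Z (S n) (Or.inl rfl) (Or.inl rfl)
    (Or.inr rfl))
  have t6 := abs_le.1 (gterm_le M hδ Sp Co hu hv hw hs n Z (S n) Z (Or.inl rfl) (Or.inr rfl)
    (Or.inl rfl))
  rw [qn_apply]
  unfold Dn
  rw [abs_le]
  constructor <;> nlinarith [t1.1, t1.2, t2.1, t2.2, t3.1, t3.2, t4.1, t4.2, t5.1, t5.2, t6.1, t6.2]

theorem Bd_one (M : Modes W m A V J N β) (u : K) : Bd J N u ‖u‖ 1 :=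
  ⟨norm_nonneg _, zero_le_one, fun i => xc_le M i u⟩

theorem Bd_int (M : Modes W m A V J N β) (hδ : 0 ≤ δ) (hδ1 : δ ≤ 1) {p : H × K} (hp : p ∈ W) :
    Bd J N p.2 (‖p.1‖ ^ (1 - δ) * ‖p.2‖ ^ δ) δ :=
  ⟨by positivity, hδ, fun i => xc_int M i hp hδ hδ1⟩

theorem qn_norm (M : Modes W m A V J N β) (hδ : 0 ≤ δ) (hδ1 : δ ≤ 1) (Sp : Sparse N δ σ)
    (Co : Coef N δ kk g) (n : ℕ) : ‖qn J N kk g n‖ ≤ Dn N δ σ n := by
  refine norm_le3 (Dn_nonneg M Sp n) fun u v w => ?_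
  have := qn_le M hδ Sp Co (Bd_one M u) (Bd_one M v) (Bd_one M w) (by linarith) n
  rwa [mul_comm] at this

theorem exists_Q (M : Modes W m A V J N β) (hδ : 0 ≤ δ) (hδ1 : δ ≤ 1) (Sp : Sparse N δ σ)
    (Co : Coef N δ kk g) : ∃ Q : K →L[ℝ] K →L[ℝ] K →L[ℝ] ℝ,
      ∀ u v w, HasSum (fun n => qn J N kk g n u v w) (Q u v w) := by
  have hD : Summable (Dn N δ σ) := summable_of_sum_le (Dn_nonneg M Sp) (Dn_sum Sp)
  have hq : Summable (qn J N kk g) := Summable.of_norm_bounded hD (qn_norm M hδ hδ1 Sp Co)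
  refine ⟨∑' n, qn J N kk g n, fun u v w => ?_⟩
  have h1 := hq.hasSum.mapL (ContinuousLinearMap.apply ℝ (K →L[ℝ] K →L[ℝ] ℝ) u)
  have h2 := h1.mapL (ContinuousLinearMap.apply ℝ (K →L[ℝ] ℝ) v)
  have h3 := h2.mapL (ContinuousLinearMap.apply ℝ ℝ w)
  exact h3

theorem Q_le (M : Modes W m A V J N β) {s1 s2 s3 X Y Z' : ℝ} {u v w : K}
    (hδ : 0 ≤ δ) (Sp : Sparse N δ σ) (Co : Coef N δ kk g)
    (hu : Bd J N u X s1) (hv : Bd J N v Y s2) (hw : Bd J N w Z' s3)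
    (hs : 2 + δ ≤ s1 + s2 + s3) {a : ℝ} (ha : HasSum (fun n => qn J N kk g n u v w) a) :
    |a| ≤ X * Y * Z' * (24 * σ) := by
  have hX : 0 ≤ X * Y * Z' := mul_nonneg (mul_nonneg hu.1 hv.1) hw.1
  have h1 : Tendsto (fun F : Finset ℕ => |∑ n ∈ F, qn J N kk g n u v w|) atTop (𝓝 |a|) :=
    (continuous_abs.tendsto a).comp ha
  refine le_of_tendsto' h1 fun F => ?_
  calc |∑ n ∈ F, qn J N kk g n u v w| ≤ ∑ n ∈ F, |qn J N kk g n u v w| :=
        Finset.abs_sum_le_sum_abs _ _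
    _ ≤ ∑ n ∈ F, X * Y * Z' * Dn N δ σ n :=
        Finset.sum_le_sum fun n _ => qn_le M hδ Sp Co hu hv hw hs n
    _ = X * Y * Z' * ∑ n ∈ F, Dn N δ σ n := by rw [Finset.mul_sum]
    _ ≤ _ := mul_le_mul_of_nonneg_left (Dn_sum Sp F) hX

theorem low (M : Modes W m A V J N β) (hδ : 0 ≤ δ) (hδ1 : δ ≤ 1) (Sp : Sparse N δ σ)
    (Co : Coef N δ kk g) {Q : K →L[ℝ] K →L[ℝ] K →L[ℝ] ℝ}
    (hQ : ∀ u v w, HasSum (fun n => qn J N kk g n u v w) (Q u v w))
    (anti : ∀ a b c, Q a b c = -Q a c b) : Low W δ (24 * σ) Q := by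
  have f2 : ∀ p ∈ W, ∀ q ∈ W, ∀ c : K,
      |Q p.2 q.2 c| ≤ 24 * σ * (‖p.2‖ * (‖q.1‖ ^ (1 - δ) * ‖q.2‖ ^ δ) * ‖c‖) := by
    intro p hp q hq c
    have := Q_le M hδ Sp Co (Bd_one M p.2) (Bd_int M hδ hδ1 hq) (Bd_one M c) (by linarith)
      (hQ _ _ _)
    calc _ ≤ _ := this
      _ = _ := by ring
  refine ⟨?_, f2, ?_⟩
  · intro p hp q hq c
    have := Q_le M hδ Sp Co (Bd_int M hδ hδ1 hp) (Bd_one M q.2) (Bd_one M c) (by linarith)
      (hQ _ _ _)
    calc _ ≤ _ := this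
      _ = _ := by ring
  · intro p hp q hq r hr
    rw [anti, abs_neg]
    calc _ ≤ _ := f2 p hp r hr q.2
      _ = _ := by ring

theorem g_summable (Co : Coef N δ kk g) : Summable g := by
  refine Summable.of_nonneg_of_le Co.g0 (fun n => ?_)
    (summable_geometric_two.mul_right (N Z ^ (2 + δ / 2)))
  have h := Co.gZ n
  have : (1 / 2 : ℝ) ^ n * 2 ^ n = 1 := by rw [← mul_pow]; norm_num
  calc g n = (1 / 2) ^ n * (2 ^ n * g n) := by rw [← mul_assoc, this, one_mul]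
    _ ≤ _ := mul_le_mul_of_nonneg_left h (by positivity)

theorem part2 (M : Modes W m A V J N β) (Co : Coef N δ kk g)
    {Q : K →L[ℝ] K →L[ℝ] K →L[ℝ] ℝ}
    (hQ : ∀ u v w, HasSum (fun n => qn J N kk g n u v w) (Q u v w))
    (anti : ∀ a b c, Q a b c = -Q a c b) : Part2 W V J kk g Q := by
  refine ⟨anti, ?_, ?_, ?_, ?_, ?_⟩
  · intro p hp
    have h1 := hQ p.2 p.2 (J (P 0))
    have h2 := hasSum_single (f := fun n => qn J N kk g n p.2 p.2 (J (P 0))) 0 (fun n hn => by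
      simp only [qn_apply, xc_J M, Md.P.injEq, reduceCtorEq, if_false, Nat.succ_ne_zero, hn]
      ring)
    rw [h1.unique h2]
    simp only [qn_apply, xc_J M, Md.P.injEq, reduceCtorEq, if_false, if_true, Nat.succ_ne_zero,
      xc_W M _ hp]
    ring
  · intro n p hp
    have h1 := hQ p.2 p.2 (J (P (n + 1)))
    have h2 := hasSum_sum_of_ne_finset_zero (L := SummationFilter.unconditional ℕ)
      (f := fun k => qn J N kk g k p.2 p.2 (J (P (n + 1)))) (s := {n, n + 1}) (fun k hk => by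
        simp only [Finset.mem_insert, Finset.mem_singleton, not_or] at hk
        have e1 : ¬ (k + 1 = n + 1) := by omega
        simp only [qn_apply, xc_J M, Md.P.injEq, reduceCtorEq, if_false, hk.2, e1]
        ring)
    rw [h1.unique h2, Finset.sum_pair (by omega)]
    have e1 : ¬ (n = n + 1) := by omega
    have e2 : ¬ (n + 1 + 1 = n + 1) := by omega
    simp only [qn_apply, xc_J M, Md.P.injEq, reduceCtorEq, if_false, if_true, e1, e2,
      xc_W M _ hp]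
    ring
  · intro n p hp
    have h1 := hQ p.2 p.2 (J (S n))
    have h2 := hasSum_single (f := fun k => qn J N kk g k p.2 p.2 (J (S n))) n (fun k hk => by
      simp only [qn_apply, xc_J M, Md.S.injEq, reduceCtorEq, if_false, hk]
      ring)
    rw [h1.unique h2]
    simp only [qn_apply, xc_J M, Md.S.injEq, reduceCtorEq, if_false, if_true, xc_W M _ hp]
    ring
  · intro p hp
    have h1 := hQ p.2 p.2 (J Z)
    have hg := g_summable Co
    have h2 : HasSum (fun n => g n * (‖p.1‖ * |⟪p.1, V Z⟫_ℝ|))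
        ((∑' n, g n) * (‖p.1‖ * |⟪p.1, V Z⟫_ℝ|)) := hg.hasSum.mul_right _
    have h3 : ∀ n, ‖qn J N kk g n p.2 p.2 (J Z)‖ ≤ g n * (‖p.1‖ * |⟪p.1, V Z⟫_ℝ|) := by
      intro n
      have e : qn J N kk g n p.2 p.2 (J Z) = g n * (⟪p.1, V (S n)⟫_ℝ * ⟪p.1, V Z⟫_ℝ) := by
        simp only [qn_apply, xc_J M, reduceCtorEq, if_false, if_true, xc_W M _ hp]
        ring
      rw [e, Real.norm_eq_abs, abs_mul, abs_mul, abs_of_nonneg (Co.g0 n)]
      have h4 : |⟪p.1, V (S n)⟫_ℝ| ≤ ‖p.1‖ := by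
        have := abs_real_inner_le_norm p.1 (V (S n))
        rwa [M.unit, mul_one] at this
      have := Co.g0 n
      gcongr
    have h5 := tsum_of_norm_bounded h2 h3
    rw [h1.tsum_eq, Real.norm_eq_abs] at h5
    rw [mul_assoc]
    exact h5
  · classical
    intro F c
    set G : K := ∑ i ∈ F, c i • J i with hG
    set cc : Md → ℝ := fun i => if i ∈ F then c i else 0 with hcc
    have hx : ∀ i, xc J N i G = cc i := by
      intro i
      rw [hG, map_sum]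
      simp only [map_smul, xc_J M, smul_eq_mul, mul_ite, mul_one, mul_zero]
      rw [Finset.sum_ite_eq]
    let s0 : Finset ℕ := F.preimage Md.S inS.injOn
    have hs0 : ∀ n, n ∉ s0 → cc (S n) = 0 := by
      intro n hn
      rw [Finset.mem_preimage] at hn
      simp only [hcc, hn, if_false]
    let vn : ℕ → H := fun n =>
      ((kk n * (cc (S n) * cc (S n))) • V (P n) - (kk n * (cc (S n) * cc (P n))) • V (S n)
      - ((kk n * (cc (S n) * cc (S n))) • V (P (n + 1))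
        - (kk n * (cc (S n) * cc (P (n + 1)))) • V (S n))
      + (g n * (cc Z * cc (S n))) • V Z) - (g n * (cc Z * cc Z)) • V (S n)
    have hvn : Summable vn := by
      refine Summable.sub ?_ ?_
      · refine summable_of_ne_finset_zero (s := s0) fun n hn => ?_
        rw [hs0 n hn]
        simp
      · refine Summable.of_norm_bounded (g := fun n => g n * |cc Z * cc Z|)
          ((g_summable Co).mul_right _) fun n => ?_
        rw [norm_smul, M.unit, mul_one, Real.norm_eq_abs, abs_mul, abs_of_nonneg (Co.g0 n)]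
    refine ⟨∑' n, vn n, fun p hp => ?_⟩
    have h1 := hQ G G p.2
    have h2 := hvn.hasSum.mapL (innerSL ℝ p.1)
    have h3 : ∀ n, (innerSL ℝ p.1) (vn n) = qn J N kk g n G G p.2 := by
      intro n
      rw [innerSL_apply_apply]
      simp only [vn, qn_apply, hx, xc_W M _ hp, inner_sub_right, inner_add_right,
        inner_smul_right]
      ring
    simp only [h3] at h2
    rw [h1.unique h2, innerSL_apply_apply, real_inner_comm]

end Q2

theorem q2_s : S_q2 := by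
  intro H K _ _ _ _ _ _ W m C A δ _ _ hδ hδ1
  refine ⟨24, by norm_num, ?_⟩
  intro V J N β σ kk g M Sp Co
  obtain ⟨Q, hQ⟩ := Q2.exists_Q M hδ.le (by linarith) Sp Co
  have anti : ∀ a b c, Q a b c = -Q a c b := by
    intro a b c
    have h1 := (hQ a c b).neg
    have h2 := hQ a b c
    simp only [Q2.qn_anti kk g _ a b c] at h2
    exact h2.unique h1
  exact ⟨Q, Q2.part2 M Co hQ anti, Q2.low M hδ.le (by linarith) Sp Co hQ anti⟩

end Pool.Agent.T2H10.LO
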