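import Pool.Agent.T2H10.LO.Stm

/-!
The `L²` norm of a toroidal field in the shell (polar coordinates).
-/

set_option autoImplicit false
set_option maxSynthPendingDepth 3

open MeasureTheory Set Filter Topology
open scoped InnerProductSpace ENNReal ContDiff NNReal

namespace Pool.Agent.T2H10.LO

open H772R2.NS
open Pool.Agent.W795.TQ Pool.Agent.Y303.NF

namespace Rad

theorem nsq (x : E3) : ‖x‖ ^ 2 = x 0 ^ 2 + x 1 ^ 2 + x 2 ^ 2 := by
  rw [EuclideanSpace.norm_sq_eq]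
  simp [Fin.sum_univ_three]

theorem ntor (g : ℝ → ℝ) (x : E3) :
    ‖tor g x‖ ^ 2 = g (‖x‖ ^ 2) ^ 2 * x 0 ^ 2 + g (‖x‖ ^ 2) ^ 2 * x 1 ^ 2 := by
  have h : ‖rot x‖ ^ 2 = x 1 ^ 2 + x 0 ^ 2 := by
    rw [nsq]
    simp [rot]
  rw [tor, norm_smul, mul_pow, h, Real.norm_eq_abs, sq_abs]
  ring

theorem mshell : MeasurableSet shell :=
  ((isOpen_lt continuous_const continuous_norm).inter
    (isOpen_lt continuous_norm continuous_const)).measurableSet

theorem swap (g : ℝ → ℝ) (i j : Fin 3) :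
    ∫ x in shell, g (‖x‖ ^ 2) ^ 2 * x i ^ 2 = ∫ x in shell, g (‖x‖ ^ 2) ^ 2 * x j ^ 2 := by
  let e : E3 ≃ₗᵢ[ℝ] E3 := LinearIsometryEquiv.piLpCongrLeft 2 ℝ ℝ (Equiv.swap i j)
  have hm : MeasurePreserving e volume volume := e.measurePreserving
  have he : MeasurableEmbedding e := e.toHomeomorph.measurableEmbedding
  have hs : e ⁻¹' shell = shell := by
    ext x
    simp [shell]
  have h := hm.setIntegral_preimage_emb he (fun x => g (‖x‖ ^ 2) ^ 2 * x i ^ 2) shell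
  rw [hs] at h
  rw [← h]
  refine setIntegral_congr_fun mshell fun x _ => ?_
  have h1 : e x i = x j := by
    simp [e, LinearIsometryEquiv.piLpCongrLeft_apply, Equiv.piCongrLeft']
  simp only [LinearIsometryEquiv.norm_map, h1]

theorem intg (g : ℝ → ℝ) (hg : Continuous g) (i : Fin 3) :
    IntegrableOn (fun x : E3 => g (‖x‖ ^ 2) ^ 2 * x i ^ 2) shell := by
  have hc : Continuous (fun x : E3 => g (‖x‖ ^ 2) ^ 2 * x i ^ 2) := by fun_prop
  refine (hc.continuousOn.integrableOn_compact (isCompact_closedBall (0 : E3) 2)).mono_set ?_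
  intro x hx
  simp only [Metric.mem_closedBall, dist_zero_right]
  exact hx.2.le

theorem radial (f : ℝ → ℝ) :
    ∫ x in shell, f ‖x‖ = 4 * Real.pi * ∫ r in (1 : ℝ)..2, r ^ 2 * f r := by
  have h := MeasureTheory.integral_fun_norm_addHaar (volume : Measure E3)
    (fun r => (Ioo (1 : ℝ) 2).indicator f r)
  have h1 : ∫ x : E3, (Ioo (1 : ℝ) 2).indicator f ‖x‖ = ∫ x in shell, f ‖x‖ := by
    rw [← integral_indicator mshell]
    refine integral_congr_ae (Eventually.of_forall fun x => ?_)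
    by_cases hx : x ∈ shell
    · have : ‖x‖ ∈ Ioo (1 : ℝ) 2 := hx
      simp [hx, this]
    · have : ‖x‖ ∉ Ioo (1 : ℝ) 2 := hx
      simp [hx, this]
  have h2 : ∫ y in Ioi (0 : ℝ), y ^ (Module.finrank ℝ E3 - 1) • (Ioo (1 : ℝ) 2).indicator f y
      = ∫ r in (1 : ℝ)..2, r ^ 2 * f r := by
    have hd : Module.finrank ℝ E3 = 3 := by simp
    rw [hd, intervalIntegral.integral_of_le (by norm_num), integral_Ioc_eq_integral_Ioo,
      ← integral_indicator measurableSet_Ioo, ← integral_indicator measurableSet_Ioi]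
    refine integral_congr_ae (Eventually.of_forall fun y => ?_)
    by_cases hy : y ∈ Ioo (1 : ℝ) 2
    · have : y ∈ Ioi (0 : ℝ) := lt_trans (by norm_num) hy.1
      simp [hy, this]
    · simp [hy]
  rw [h1] at h
  rw [h, h2, Measure.real]
  have hv : (volume (Metric.ball (0 : E3) 1)).toReal = 4 / 3 * Real.pi := by
    rw [EuclideanSpace.volume_ball_fin_three]
    have hp := Real.pi_pos
    rw [ENNReal.ofReal_one, one_pow, one_mul, ENNReal.toReal_ofReal (by positivity)]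
    ring
  rw [hv]
  simp
  ring

end Rad

theorem rad_s : S_rad := by
  intro g hg
  have hc : Continuous g := hg.continuous
  have h0 := Rad.swap g 0 1
  have h2 := Rad.swap g 0 2
  have i0 := Rad.intg g hc 0
  have i1 := Rad.intg g hc 1
  have i2 := Rad.intg g hc 2
  have e1 : ∫ x in shell, ‖tor g x‖ ^ 2 = (∫ x in shell, g (‖x‖ ^ 2) ^ 2 * x 0 ^ 2)
      + ∫ x in shell, g (‖x‖ ^ 2) ^ 2 * x 1 ^ 2 := by
    rw [← integral_add i0 i1]
    exact setIntegral_congr_fun Rad.mshell fun x _ => Rad.ntor g x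
  have e2 : ∫ x in shell, g (‖x‖ ^ 2) ^ 2 * ‖x‖ ^ 2
      = (∫ x in shell, g (‖x‖ ^ 2) ^ 2 * x 0 ^ 2)
      + (∫ x in shell, g (‖x‖ ^ 2) ^ 2 * x 1 ^ 2)
      + ∫ x in shell, g (‖x‖ ^ 2) ^ 2 * x 2 ^ 2 := by
    have i01 : IntegrableOn (fun x : E3 => g (‖x‖ ^ 2) ^ 2 * x 0 ^ 2 + g (‖x‖ ^ 2) ^ 2 * x 1 ^ 2)
      shell := i0.add i1
    rw [← integral_add i0 i1, ← integral_add i01 i2]
    refine setIntegral_congr_fun Rad.mshell fun x _ => ?_
    show g (‖x‖ ^ 2) ^ 2 * ‖x‖ ^ 2 = _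
    have h := Rad.nsq x
    generalize g (‖x‖ ^ 2) = t
    rw [h]
    ring
  have e3 := Rad.radial fun r => g (r ^ 2) ^ 2 * r ^ 2
  have e4 : ∫ r in (1 : ℝ)..2, r ^ 2 * (g (r ^ 2) ^ 2 * r ^ 2)
      = ∫ r in (1 : ℝ)..2, g (r ^ 2) ^ 2 * r ^ 4 :=
    intervalIntegral.integral_congr fun r _ => by ring
  rw [e4] at e3
  linarith

end Pool.Agent.T2H10.LO
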