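import Pool.Agent.T2H10.LO.Stm

/-!
Calculus for toroidal fields.
-/

set_option autoImplicit false
set_option maxSynthPendingDepth 3

open MeasureTheory Set Filter Topology
open scoped InnerProductSpace ENNReal ContDiff NNReal

namespace Pool.Agent.T2H10.LO

open H772R2.NS

namespace TorP

/-- the rotation as a continuous linear map -/
noncomputable def rotL : E3 →L[ℝ] E3 :=
  LinearMap.toContinuousLinearMap
    { toFun := rot
      map_add' := by
        intro x y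
        ext i
        fin_cases i
        · simp [rot]; ring
        · simp [rot]
        · simp [rot]
      map_smul' := by
        intro c x
        ext i
        fin_cases i
        · simp [rot]
        · simp [rot]
        · simp [rot] }

theorem rotL_apply (x : E3) : rotL x = rot x := rfl

theorem rot_sub (x y : E3) : rot (x + y) = rot x + rot y := by
  rw [← rotL_apply, map_add]; rfl

theorem norm_rot (x : E3) : ‖rot x‖ ≤ ‖x‖ := by
  refine le_of_sq_le_sq ?_ (norm_nonneg x)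
  rw [EuclideanSpace.norm_sq_eq, EuclideanSpace.norm_sq_eq, Fin.sum_univ_three,
    Fin.sum_univ_three]
  simp only [rot, Real.norm_eq_abs, sq_abs]
  simp
  nlinarith [sq_nonneg (x 2)]

theorem hasFDerivAt_sq {g : ℝ → ℝ} (hg : ContDiff ℝ ∞ g) (x : E3) :
    HasFDerivAt (fun y : E3 => g (‖y‖ ^ 2)) ((2 * deriv g (‖x‖ ^ 2)) • innerSL ℝ x) x := by
  have h1 : HasDerivAt g (deriv g (‖x‖ ^ 2)) (‖x‖ ^ 2) :=
    (hg.differentiable (by simp) _).hasDerivAt
  have h2 : HasFDerivAt (fun y : E3 => ‖y‖ ^ 2) (2 • innerSL ℝ x) x := hasStrictFDerivAt_norm_sq x |>.hasFDerivAt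
  have h3 := h1.comp_hasFDerivAt x h2
  refine h3.congr_fderiv ?_
  ext h
  simp
  ring

theorem hasFDerivAt_tor {g : ℝ → ℝ} (hg : ContDiff ℝ ∞ g) (x : E3) :
    HasFDerivAt (tor g) (g (‖x‖ ^ 2) • rotL +
      ((2 * deriv g (‖x‖ ^ 2)) • innerSL ℝ x).smulRight (rot x)) x :=
  (hasFDerivAt_sq hg x).smul rotL.hasFDerivAt

theorem fderiv_tor {g : ℝ → ℝ} (hg : ContDiff ℝ ∞ g) (x h : E3) :
    fderiv ℝ (tor g) x h = g (‖x‖ ^ 2) • rot h + (2 * deriv g (‖x‖ ^ 2) * ⟪x, h⟫_ℝ) • rot x := by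
  rw [(hasFDerivAt_tor hg x).fderiv]
  simp [rotL_apply]

theorem cd_tor {g : ℝ → ℝ} (hg : ContDiff ℝ ∞ g) : ContDiff ℝ ∞ (tor g) :=
  (hg.comp (contDiff_norm_sq ℝ)).smul rotL.contDiff

theorem jac_tor {g : ℝ → ℝ} (hg : ContDiff ℝ ∞ g) (x : E3) (i j : Fin 3) :
    jac (tor g) x (i, j) = g (‖x‖ ^ 2) * rot (ev j) i +
      2 * deriv g (‖x‖ ^ 2) * x j * rot x i := by
  show fderiv ℝ (tor g) x (ev j) i = _
  rw [fderiv_tor hg]
  simp [ev, PiLp.inner_apply]

theorem lap_tor {g : ℝ → ℝ} (hg : ContDiff ℝ ∞ g) (x : E3) (i : Fin 3) :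
    Pool.Agent.Y303.LV.lap (tor g) x i = (10 * deriv g (‖x‖ ^ 2)
      + 4 * ‖x‖ ^ 2 * deriv (deriv g) (‖x‖ ^ 2)) * rot x i := by
  have hg1 : ContDiff ℝ ∞ (deriv g) := by
    have := (contDiff_infty_iff_deriv (𝕜 := ℝ)).1 hg
    exact this.2
  have key : ∀ j, fderiv ℝ (fun y => jac (tor g) y (i, j)) x (ev j) =
      4 * deriv (deriv g) (‖x‖ ^ 2) * x j ^ 2 * rot x i + 2 * deriv g (‖x‖ ^ 2) * rot x i +
        4 * deriv g (‖x‖ ^ 2) * (x j * rot (ev j) i) := by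
    intro j
    have e : (fun y => jac (tor g) y (i, j)) = fun y : E3 => g (‖y‖ ^ 2) * rot (ev j) i +
      2 * (deriv g (‖y‖ ^ 2) * (y j * rotL y i)) := by
      funext y
      rw [jac_tor hg, rotL_apply]
      ring
    have hp : ∀ k : Fin 3, HasFDerivAt (fun y : E3 => y k)
        (EuclideanSpace.proj k : E3 →L[ℝ] ℝ) x := fun k =>
      (EuclideanSpace.proj k : E3 →L[ℝ] ℝ).hasFDerivAt
    have hr : HasFDerivAt (fun y : E3 => rotL y i)
        ((EuclideanSpace.proj i : E3 →L[ℝ] ℝ).comp rotL) x :=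
      ((EuclideanSpace.proj i : E3 →L[ℝ] ℝ).comp rotL).hasFDerivAt
    have h1 := ((hasFDerivAt_sq hg x).mul_const (rot (ev j) i)).add
      (((hasFDerivAt_sq hg1 x).mul ((hp j).mul hr)).const_mul 2)
    have h2 : HasFDerivAt (fun y : E3 => g (‖y‖ ^ 2) * rot (ev j) i +
      2 * (deriv g (‖y‖ ^ 2) * (y j * rotL y i))) _ x := h1
    rw [e, h2.fderiv]
    simp [rotL_apply, ev, PiLp.inner_apply]
    ring
  unfold Pool.Agent.Y303.LV.lap
  simp only [key]
  rw [Finset.sum_add_distrib, Finset.sum_add_distrib, ← Finset.sum_mul, ← Finset.mul_sum,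
    ← Finset.mul_sum (a := 4 * deriv g (‖x‖ ^ 2)), Finset.sum_const, Finset.card_univ,
    Fintype.card_fin]
  have e1 : ∑ j, x j ^ 2 = ‖x‖ ^ 2 := by
    rw [EuclideanSpace.norm_sq_eq]
    simp
  have e2 : ∑ j, x j * rot (ev j) i = rot x i := by
    rw [Fin.sum_univ_three]
    fin_cases i <;> simp [rot, ev]
  rw [e1, e2]
  simp
  ring

end TorP

theorem tor_s : S_tor := by
  intro g hg
  refine ⟨TorP.cd_tor hg, fun hs => ?_, fun x => ?_, fun x => ?_, fun x => ?_, TorP.lap_tor hg⟩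
  · refine HasCompactSupport.intro (isCompact_closedBall (0 : E3) 3) fun x hx => ?_
    rw [Metric.mem_closedBall, dist_zero_right, not_le] at hx
    show g (‖x‖ ^ 2) • rot x = 0
    rw [hs _ (by nlinarith), zero_smul]
  · rw [tor, norm_smul, Real.norm_eq_abs]
    exact mul_le_mul_of_nonneg_left (TorP.norm_rot x) (abs_nonneg _)
  · refine ContinuousLinearMap.opNorm_le_bound _ (by positivity) fun h => ?_
    rw [TorP.fderiv_tor hg]
    refine (norm_add_le _ _).trans ?_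
    rw [norm_smul, norm_smul, Real.norm_eq_abs, Real.norm_eq_abs, abs_mul, abs_mul,
      abs_of_pos (by norm_num : (0 : ℝ) < 2)]
    have h1 : |g (‖x‖ ^ 2)| * ‖rot h‖ ≤ |g (‖x‖ ^ 2)| * ‖h‖ :=
      mul_le_mul_of_nonneg_left (TorP.norm_rot h) (abs_nonneg _)
    have h2 : 2 * |deriv g (‖x‖ ^ 2)| * |⟪x, h⟫_ℝ| * ‖rot x‖ ≤
        2 * |deriv g (‖x‖ ^ 2)| * (‖x‖ * ‖h‖) * ‖x‖ :=
      mul_le_mul (mul_le_mul_of_nonneg_left (abs_real_inner_le_norm x h) (by positivity))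
        (TorP.norm_rot x) (norm_nonneg _) (by positivity)
    have h3 : (|g (‖x‖ ^ 2)| + 2 * |deriv g (‖x‖ ^ 2)| * ‖x‖ ^ 2) * ‖h‖ =
      |g (‖x‖ ^ 2)| * ‖h‖ + 2 * |deriv g (‖x‖ ^ 2)| * (‖x‖ * ‖h‖) * ‖x‖ := by ring
    rw [h3]
    exact add_le_add h1 h2
  · simp only [TorP.jac_tor hg]
    rw [Fin.sum_univ_three]
    simp [rot, ev]
    ring

end Pool.Agent.T2H10.LO
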