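import Pool.Agent.T2H10.LO.Pub
import Pool.Agent.T2H10.LO.Q1
import Pool.Agent.T2H10.LO.Q2
import Pool.Agent.T2H10.LO.ConvA
import Pool.Agent.T2H10.LO.ConvB
import Pool.Agent.T2H10.LO.Tor
import Pool.Agent.T2H10.LO.Prof
import Pool.Agent.T2H10.LO.Mem
import Pool.Agent.T2H10.LO.Rad
import Pool.Agent.T2H10.LO.Ns
import Pool.Agent.T2H10.LO.ChainS

/-!
The final assembly.
-/

set_option autoImplicit false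

open MeasureTheory Set
open scoped InnerProductSpace ENNReal ContDiff

namespace Pool.Agent.T2H10.LO

open H772R2.NS.Pub

theorem final {δ ε : ℝ} (hδ : 0 < δ) (hδ1 : δ ≤ 1 / 2) (hε : 0 < ε) :
    ∃ Q : L2 Shell Mat → L2 Shell Mat → L2 Shell Mat → ℝ, IsSmallLower Shell δ ε Q ∧
      ∃ φ : R3 → R3, ContDiff ℝ ∞ φ ∧ (∀ x ∈ Shell, dvg φ x = 0) ∧
      (∀ x, ‖x‖ = 1 ∨ ‖x‖ = 2 → φ x = 0) ∧ (∫ x in Shell, ⟪φ x, φ x⟫_ℝ) ≤ 1 ∧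
      ∀ ν : ℝ, 0 < ν → ∀ c : ℝ, ε * ν ≤ c →
        ∃ (τ : ℝ) (u u' : ℝ → L2 Shell R3) (G G' : ℝ → L2 Shell Mat), 0 < τ ∧ τ ≤ ε / c ∧
          IsClass (u 0) (c • φ) ∧
          (∀ T ∈ Ioo 0 τ, IsStrongQ Shell Q ν T u u' G G') ∧
          (∀ t ∈ Ico 0 τ, ‖u t‖ ^ 2 / 2 + ν * (∫ s in (0 : ℝ)..t, ‖G s‖ ^ 2) = ‖u 0‖ ^ 2 / 2) ∧
          (∀ N : ℝ, ∃ t ∈ Ioo 0 τ, N ≤ ‖G t‖) ∧
          (∀ T, τ ≤ T → ∀ (v v' : ℝ → L2 Shell R3) (D D' : ℝ → L2 Shell Mat),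
            IsStrongQ Shell Q ν T v v' D D' → ¬ IsClass (v 0) (c • φ)) :=
  main_pub (blow Pool.Agent.W52.TQ.proof_loc Pool.Agent.W503.TQ.proof_uni chain_s q1_s q2_s ca_s
    cb_s tor_s prof_s (mem_s tor_s) rad_s ns_s hδ hδ1 hε)

end Pool.Agent.T2H10.LO
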