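import Pool.Agent.T2H10.LO.Stm

/-!
The frame of the perturbed equations.
-/

set_option autoImplicit false
set_option maxSynthPendingDepth 3
set_option linter.unusedSectionVars false

open MeasureTheory Set Filter Topology
open scoped InnerProductSpace ENNReal ContDiff NNReal

namespace Pool.Agent.T2H10.LO

open H772R2.NSR (Frame)

variable {H K : Type} [NormedAddCommGroup H] [InnerProductSpace ℝ H] [CompleteSpace H]
  [NormedAddCommGroup K] [InnerProductSpace ℝ K] [CompleteSpace K]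
  {W : Submodule ℝ (H × K)} {m : H → K} {C δ ε : ℝ} {Q : K →L[ℝ] K →L[ℝ] K →L[ℝ] ℝ}

theorem gr_eq (Fr : Frame W m C) {p : H × K} (hp : p ∈ W) : gr W p.1 = p.2 := by
  have h : ∃ z, (p.1, z) ∈ W := ⟨p.2, hp⟩
  unfold gr
  rw [dif_pos h]
  have h1 := Classical.choose_spec h
  have h2 := Fr.uniq _ (W.sub_mem h1 hp) (by simp)
  simpa [sub_eq_zero] using h2

theorem inner_mQ (Fr : Frame W m C) {p : H × K} (hp : p ∈ W) (c : K) :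
    ⟪mQ W m Q p.1, c⟫_ℝ = ⟪m p.1, c⟫_ℝ - Q p.2 p.2 c := by
  unfold mQ
  rw [gr_eq Fr hp, inner_sub_left, InnerProductSpace.toDual_symm_apply]

theorem interp {a b : ℝ} (hδ : 0 < δ) (hδ1 : δ ≤ 1 / 2) (hC : 0 < C) (ha : 0 ≤ a) (hb : 0 ≤ b)
    (h : a ≤ C * b) : (a ^ (1 - δ) * b ^ δ) ^ 2 ≤ C ^ (1 - 2 * δ) * (a * b) := by
  rcases ha.eq_or_lt with h0 | h0
  · subst h0
    rw [Real.zero_rpow (by linarith)]
    simp
  have hb0 : 0 < b := by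
    by_contra hcon
    have : b = 0 := le_antisymm (not_lt.1 hcon) hb
    rw [this, mul_zero] at h
    linarith
  have e1 : (a ^ (1 - δ) * b ^ δ) ^ 2 = a * a ^ (1 - 2 * δ) * b ^ (2 * δ) := by
    rw [mul_pow, ← Real.rpow_natCast (a ^ (1 - δ)) 2, ← Real.rpow_natCast (b ^ δ) 2,
      ← Real.rpow_mul h0.le, ← Real.rpow_mul hb]
    have : (1 - δ) * ((2 : ℕ) : ℝ) = 1 + (1 - 2 * δ) := by push_cast; ring
    rw [this, Real.rpow_add h0, Real.rpow_one]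
    have : δ * ((2 : ℕ) : ℝ) = 2 * δ := by push_cast; ring
    rw [this]
  have e2 : a ^ (1 - 2 * δ) ≤ C ^ (1 - 2 * δ) * b ^ (1 - 2 * δ) := by
    rw [← Real.mul_rpow hC.le hb]
    exact Real.rpow_le_rpow h0.le h (by linarith)
  have e3 : b ^ (1 - 2 * δ) * b ^ (2 * δ) = b := by
    rw [← Real.rpow_add hb0]
    simp
  have hb2 : 0 ≤ b ^ (2 * δ) := Real.rpow_nonneg hb _
  rw [e1]
  calc a * a ^ (1 - 2 * δ) * b ^ (2 * δ)
      ≤ a * (C ^ (1 - 2 * δ) * b ^ (1 - 2 * δ)) * b ^ (2 * δ) := by gcongr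
    _ = C ^ (1 - 2 * δ) * (a * (b ^ (1 - 2 * δ) * b ^ (2 * δ))) := by ring
    _ = _ := by rw [e3]

theorem fr_s : S_fr := by
  intro H K _ _ _ _ _ _ W m C δ ε Q Fr hδ hδ1 hε hanti L
  refine ⟨?_, fun p hp c => inner_mQ Fr hp c⟩
  have hC := Fr.C0
  set M : ℝ := C ^ (1 - 2 * δ) with hM
  have hM0 : 0 < M := Real.rpow_pos_of_pos hC _
  have hself : ∀ a b, Q a b b = 0 := by
    intro a b
    have := hanti a b b
    linarith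
  -- the Riesz representative
  set R : K → K := fun z => (InnerProductSpace.toDual ℝ K).symm (Q z z) with hR
  have hmQ : ∀ p ∈ W, mQ W m Q p.1 = m p.1 - R p.2 := by
    intro p hp
    unfold mQ
    rw [gr_eq Fr hp]
  have hX : ∀ p ∈ W, (‖p.1‖ ^ (1 - δ) * ‖p.2‖ ^ δ) ^ 2 ≤ M * (‖p.1‖ * ‖p.2‖) := fun p hp =>
    interp hδ hδ1 hC (norm_nonneg _) (norm_nonneg _) (Fr.poinc p hp)
  have hX0 : ∀ p : H × K, 0 ≤ ‖p.1‖ ^ (1 - δ) * ‖p.2‖ ^ δ := fun p =>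
    mul_nonneg (Real.rpow_nonneg (norm_nonneg _) _) (Real.rpow_nonneg (norm_nonneg _) _)
  have hRn : ∀ p ∈ W, ‖R p.2‖ ≤ ε * ((‖p.1‖ ^ (1 - δ) * ‖p.2‖ ^ δ) * ‖p.2‖) := by
    intro p hp
    have : ‖R p.2‖ = ‖Q p.2 p.2‖ := LinearIsometryEquiv.norm_map _ _
    rw [this]
    refine ContinuousLinearMap.opNorm_le_bound _ ?_ fun c => ?_
    · have := hX0 p
      positivity
    · rw [Real.norm_eq_abs]
      refine (L.f1 p hp p hp c).trans (le_of_eq ?_)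
      ring
  have hRd : ∀ p ∈ W, ∀ q ∈ W, ‖R p.2 - R q.2‖
      ≤ ε * ((‖p.1 - q.1‖ ^ (1 - δ) * ‖p.2 - q.2‖ ^ δ) * (‖p.2‖ + ‖q.2‖)) := by
    intro p hp q hq
    have hd := W.sub_mem hp hq
    have : ‖R p.2 - R q.2‖ = ‖Q p.2 p.2 - Q q.2 q.2‖ := by
      simp only [hR]
      rw [← map_sub]
      exact LinearIsometryEquiv.norm_map _ _
    rw [this]
    have hx := hX0 (p - q)
    simp only [Prod.fst_sub, Prod.snd_sub] at hx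
    refine ContinuousLinearMap.opNorm_le_bound _ (by positivity) fun c => ?_
    have e : (Q p.2 p.2 - Q q.2 q.2) c = Q (p - q).2 p.2 c + Q q.2 (p - q).2 c := by
      simp only [Prod.snd_sub, map_sub, sub_apply]
      ring
    rw [e, Real.norm_eq_abs]
    have h1 := L.f1 _ hd p hp c
    have h2 := L.f2 q hq _ hd c
    refine (abs_add_le _ _).trans ((add_le_add h1 h2).trans (le_of_eq ?_))
    simp only [Prod.fst_sub, Prod.snd_sub]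
    ring
  refine ⟨8 * C + 2 * (ε ^ 2 * M) + 8 * (ε ^ 4 * M ^ 2 * C), ?_, Fr.closedW, Fr.uniq, ?_, ?_, ?_,
    ?_, ?_⟩
  · positivity
  · intro p hp
    refine (Fr.poinc p hp).trans ?_
    have : 0 ≤ 2 * (ε ^ 2 * M) + 8 * (ε ^ 4 * M ^ 2 * C) := by positivity
    gcongr
    linarith
  · intro p hp
    rw [inner_mQ Fr hp, Fr.ortho p hp, hself, sub_zero]
  · intro p hp q hq
    have h1 := Fr.anti p hp q hq
    have h2 := inner_mQ (Q := Q) Fr (W.sub_mem hp hq) q.2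
    have e1 : mQ W m Q (p - q).1 = mQ W m Q (p.1 - q.1) := rfl
    rw [inner_sub_left, inner_mQ Fr hp, inner_mQ Fr hq]
    rw [e1] at h2
    rw [h2]
    rw [inner_sub_left] at h1
    have e2 : m (p - q).1 = m (p.1 - q.1) := rfl
    rw [e2]
    simp only [Prod.snd_sub, map_sub, sub_apply, hself] at *
    have h3 := hanti p.2 p.2 q.2
    have h4 := hanti q.2 q.2 p.2
    linarith
  · intro p hp
    rw [hmQ p hp]
    have h1 := Fr.quart p hp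
    have h2 := hRn p hp
    have h3 := hX p hp
    have hx := hX0 p
    set X := ‖p.1‖ ^ (1 - δ) * ‖p.2‖ ^ δ with hXd
    have h4 : ‖m p.1 - R p.2‖ ≤ ‖m p.1‖ + ‖R p.2‖ := norm_sub_le _ _
    have h5 : ‖R p.2‖ ^ 2 ≤ ε ^ 2 * M * (‖p.1‖ * ‖p.2‖ ^ 3) := by
      calc ‖R p.2‖ ^ 2 ≤ (ε * (X * ‖p.2‖)) ^ 2 := by gcongr
        _ = ε ^ 2 * X ^ 2 * ‖p.2‖ ^ 2 := by ring
        _ ≤ ε ^ 2 * (M * (‖p.1‖ * ‖p.2‖)) * ‖p.2‖ ^ 2 := by gcongr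
        _ = _ := by ring
    have h6 : ‖m p.1 - R p.2‖ ^ 2 ≤ 2 * ‖m p.1‖ ^ 2 + 2 * ‖R p.2‖ ^ 2 := by
      calc ‖m p.1 - R p.2‖ ^ 2 ≤ (‖m p.1‖ + ‖R p.2‖) ^ 2 := by gcongr
        _ ≤ _ := by nlinarith [sq_nonneg (‖m p.1‖ - ‖R p.2‖)]
    have h7 : 0 ≤ ‖p.1‖ * ‖p.2‖ ^ 3 := by positivity
    have h8 : 0 ≤ (ε ^ 4 * M ^ 2 * C) * (‖p.1‖ * ‖p.2‖ ^ 3) := by positivity
    have h9 : 0 ≤ C * (‖p.1‖ * ‖p.2‖ ^ 3) := by positivity
    have e : (8 * C + 2 * (ε ^ 2 * M) + 8 * (ε ^ 4 * M ^ 2 * C)) * (‖p.1‖ * ‖p.2‖ ^ 3)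
        = 8 * (C * (‖p.1‖ * ‖p.2‖ ^ 3)) + 2 * (ε ^ 2 * M * (‖p.1‖ * ‖p.2‖ ^ 3))
          + 8 * ((ε ^ 4 * M ^ 2 * C) * (‖p.1‖ * ‖p.2‖ ^ 3)) := by ring
    rw [e]
    linarith
  · intro p hp q hq
    have hd := W.sub_mem hp hq
    rw [hmQ p hp, hmQ q hq]
    have h1 := Fr.lips p hp q hq
    have h2 := hRd p hp q hq
    have h3 := hX _ hd
    have hx := hX0 (p - q)
    have h0 := Fr.poinc _ hd
    simp only [Prod.fst_sub, Prod.snd_sub] at hx h3 h0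
    set X := ‖p.1 - q.1‖ ^ (1 - δ) * ‖p.2 - q.2‖ ^ δ with hXd
    set G := ‖p.2‖ + ‖q.2‖ with hG
    have hG0 : 0 ≤ G := by positivity
    have h4 : ‖(m p.1 - R p.2) - (m q.1 - R q.2)‖ ≤ ‖m p.1 - m q.1‖ + ‖R p.2 - R q.2‖ := by
      have e : (m p.1 - R p.2) - (m q.1 - R q.2) = (m p.1 - m q.1) - (R p.2 - R q.2) := by abel
      rw [e]
      exact norm_sub_le _ _
    have h5 : ‖R p.2 - R q.2‖ ^ 4
        ≤ ε ^ 4 * M ^ 2 * C * (‖p.1 - q.1‖ * ‖p.2 - q.2‖ ^ 3 * G ^ 4) := by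
      calc ‖R p.2 - R q.2‖ ^ 4 ≤ (ε * (X * G)) ^ 4 := by gcongr
        _ = ε ^ 4 * (X ^ 2) ^ 2 * G ^ 4 := by ring
        _ ≤ ε ^ 4 * (M * (‖p.1 - q.1‖ * ‖p.2 - q.2‖)) ^ 2 * G ^ 4 := by gcongr
        _ = ε ^ 4 * M ^ 2 * (‖p.1 - q.1‖ * ‖p.1 - q.1‖ * ‖p.2 - q.2‖ ^ 2) * G ^ 4 := by ring
        _ ≤ ε ^ 4 * M ^ 2 * (‖p.1 - q.1‖ * (C * ‖p.2 - q.2‖) * ‖p.2 - q.2‖ ^ 2) * G ^ 4 := by
            gcongr
        _ = _ := by ring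
    have h6 : ∀ a b : ℝ, 0 ≤ a → 0 ≤ b → (a + b) ^ 4 ≤ 8 * a ^ 4 + 8 * b ^ 4 := by
      intro a b ha hb
      have k1 : (a + b) ^ 2 ≤ 2 * a ^ 2 + 2 * b ^ 2 := by nlinarith [sq_nonneg (a - b)]
      have k2 : ((a + b) ^ 2) ^ 2 ≤ (2 * a ^ 2 + 2 * b ^ 2) ^ 2 := by gcongr
      nlinarith [sq_nonneg (a ^ 2 - b ^ 2)]
    have h7 : ‖(m p.1 - R p.2) - (m q.1 - R q.2)‖ ^ 4
        ≤ 8 * ‖m p.1 - m q.1‖ ^ 4 + 8 * ‖R p.2 - R q.2‖ ^ 4 :=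
      (pow_le_pow_left₀ (norm_nonneg _) h4 4).trans (h6 _ _ (norm_nonneg _) (norm_nonneg _))
    set Y := ‖p.1 - q.1‖ * ‖p.2 - q.2‖ ^ 3 * G ^ 4 with hY
    have hY0 : 0 ≤ Y := by positivity
    have h8 : 0 ≤ 2 * (ε ^ 2 * M) * Y := by positivity
    have e : (8 * C + 2 * (ε ^ 2 * M) + 8 * (ε ^ 4 * M ^ 2 * C)) * Y
        = 8 * (C * Y) + 2 * (ε ^ 2 * M) * Y + 8 * (ε ^ 4 * M ^ 2 * C * Y) := by ring
    rw [e]
    linarith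

end Pool.Agent.T2H10.LO
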