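import Pool.Agent.T2H10.LO.Chain

/-!
Numerical facts for the chain with a parameter. (Adapted from `Pool.Agent.T2H10.Num`.)
-/

set_option autoImplicit false
set_option maxHeartbeats 1000000
set_option linter.unusedSectionVars false

open Set Filter Topology

namespace Pool.Agent.T2H10.LO.Chn

variable [Par]

theorem e27 : (27 / 10 : ℝ) < Real.exp 1 := lt_trans (by norm_num) Real.exp_one_gt_d9

theorem e3 : Real.exp 1 < 3 := lt_trans Real.exp_one_lt_d9 (by norm_num)

theorem exp_nat (k : ℕ) : Real.exp (k : ℝ) = Real.exp 1 ^ k := by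
  rw [← Real.exp_nat_mul, mul_one]

theorem exp_ge (k : ℕ) : (27 / 10 : ℝ) ^ k ≤ Real.exp (k : ℝ) := by
  rw [exp_nat]
  exact pow_le_pow_left₀ (by norm_num) e27.le k

theorem exp_le (k : ℕ) : Real.exp (k : ℝ) ≤ (3 : ℝ) ^ k := by
  rw [exp_nat]
  exact pow_le_pow_left₀ (Real.exp_pos _).le e3.le k

/-- quadratic growth against a slow exponential -/
theorem sq_exp (n : ℕ) : ((n : ℝ) + 1) ^ 2 * Real.exp (-(n : ℝ) / (4 * NN)) ≤
    64 * NN ^ 2 * (13 / 10) := by
  have hN := one_le_NN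
  have hN0 : 0 < NN := by linarith
  have hn : (0 : ℝ) ≤ n := Nat.cast_nonneg n
  have h1 : ((n : ℝ) + 1) / (8 * NN) ≤ Real.exp (((n : ℝ) + 1) / (8 * NN)) := by
    have := Real.add_one_le_exp (((n : ℝ) + 1) / (8 * NN))
    linarith
  have h2 : (((n : ℝ) + 1) / (8 * NN)) ^ 2 ≤ Real.exp (((n : ℝ) + 1) / (8 * NN)) ^ 2 := by
    gcongr
  have h3 : Real.exp (((n : ℝ) + 1) / (8 * NN)) ^ 2 * Real.exp (-(n : ℝ) / (4 * NN)) =
      Real.exp (1 / (4 * NN)) := by
    rw [← Real.exp_nat_mul, ← Real.exp_add]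
    congr 1
    push_cast
    field_simp
    ring
  have h4 : Real.exp (1 / (4 * NN)) ≤ 13 / 10 := by
    have e1 : 1 / (4 * NN) ≤ 1 / 4 := by
      apply one_div_le_one_div_of_le (by norm_num)
      linarith
    refine (Real.exp_le_exp.mpr e1).trans ?_
    have e2 : Real.exp (1 / 4) ^ 4 = Real.exp 1 := by
      rw [← Real.exp_nat_mul]
      norm_num
    have e4 := Real.exp_one_lt_d9
    by_contra hc
    push Not at hc
    have e5 : (13 / 10 : ℝ) ^ 4 < Real.exp (1 / 4) ^ 4 := by gcongr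
    rw [e2] at e5
    norm_num at e5
    linarith
  have h5 : ((n : ℝ) + 1) ^ 2 = 64 * NN ^ 2 * (((n : ℝ) + 1) / (8 * NN)) ^ 2 := by
    field_simp
    ring
  have h6 := Real.exp_pos (-(n : ℝ) / (4 * NN))
  calc ((n : ℝ) + 1) ^ 2 * Real.exp (-(n : ℝ) / (4 * NN))
      = 64 * NN ^ 2 * ((((n : ℝ) + 1) / (8 * NN)) ^ 2 * Real.exp (-(n : ℝ) / (4 * NN))) := by
        rw [h5]; ring
    _ ≤ 64 * NN ^ 2 * (Real.exp (((n : ℝ) + 1) / (8 * NN)) ^ 2 * Real.exp (-(n : ℝ) / (4 * NN))) := by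
        gcongr
    _ = 64 * NN ^ 2 * Real.exp (1 / (4 * NN)) := by rw [h3]
    _ ≤ _ := by gcongr

theorem NN_le_exp : NN ≤ Real.exp NN := by
  have := Real.add_one_le_exp NN
  linarith

theorem NN3_exp : NN ^ 3 * Real.exp (-(3 * NN)) ≤ 1 := by
  have h1 := NN_le_exp
  have hN := one_le_NN
  have h2 : NN ^ 3 ≤ Real.exp NN ^ 3 := by gcongr
  have h3 : Real.exp NN ^ 3 * Real.exp (-(3 * NN)) = 1 := by
    rw [← Real.exp_nat_mul, ← Real.exp_add]
    push_cast
    rw [add_neg_cancel, Real.exp_zero]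
  have h4 := Real.exp_pos (-(3 * NN))
  calc NN ^ 3 * Real.exp (-(3 * NN)) ≤ Real.exp NN ^ 3 * Real.exp (-(3 * NN)) := by gcongr
    _ = 1 := h3

theorem sq_le_pow4 (n : ℕ) : ((n : ℝ) + 1) ^ 2 ≤ 4 ^ n := by
  induction n with
  | zero => norm_num
  | succ n ih =>
    rw [pow_succ (4 : ℝ) n]
    push_cast
    have : (0 : ℝ) ≤ n := Nat.cast_nonneg n
    nlinarith

theorem sq_le_exp (n : ℕ) : ((n : ℝ) + 1) ^ 2 ≤ Real.exp (2 * n) := by
  have h : (n : ℝ) + 1 ≤ Real.exp n := Real.add_one_le_exp _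
  have h2 : Real.exp (2 * n) = Real.exp n ^ 2 := by
    rw [← Real.exp_nat_mul]; push_cast; ring_nf
  rw [h2]
  have : (0 : ℝ) ≤ n := Nat.cast_nonneg n
  gcongr

theorem kap_le (n : ℕ) : kap n ≤ Real.exp (4 * n) := by
  unfold kap
  have h : Real.exp (4 * (n : ℝ)) = Real.exp ((4 : ℕ) : ℝ) ^ n := by
    rw [← Real.exp_nat_mul]; push_cast; ring_nf
  rw [h]
  have h4 := exp_ge 4
  have : (32 : ℝ) ≤ Real.exp ((4 : ℕ) : ℝ) := by
    refine le_trans ?_ h4
    norm_num
  gcongr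

theorem TT_le : TT ≤ Real.exp (13 + NN) := by
  have h := exp_ge 13
  have h2 := NN_le_exp
  have hN := one_le_NN
  have h3 : (300000 : ℝ) ≤ Real.exp ((13 : ℕ) : ℝ) := by
    refine le_trans ?_ h
    norm_num
  push_cast at h3
  unfold TT LL
  rw [Real.exp_add]
  calc 3 * (100000 * NN) = 300000 * NN := by ring
    _ ≤ Real.exp 13 * Real.exp NN := by gcongr

noncomputable def eta (n : ℕ) : ℝ := Real.exp (-(30 + 3 * NN + (n : ℝ) / (4 * NN)))

noncomputable def DD (n : ℕ) : ℝ := 2 * Lam n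

theorem eta_pos (n : ℕ) : 0 < eta n := Real.exp_pos _

theorem exp_m30 : Real.exp (-30) ≤ 1 / (8 * 10 ^ 12) := by
  have h := exp_ge 30
  push_cast at h
  rw [Real.exp_neg, ← one_div]
  apply one_div_le_one_div_of_le (by norm_num)
  refine le_trans ?_ h
  norm_num

theorem eta_eq (n : ℕ) : eta n = Real.exp (-30) * Real.exp (-(3 * NN)) *
    Real.exp (-(n : ℝ) / (4 * NN)) := by
  unfold eta
  rw [← Real.exp_add, ← Real.exp_add]
  ring_nf

/-- the ratio of the tolerances -/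
noncomputable def rr : ℝ := 1 - 1 / (5 * NN)

theorem rr_ge : 4 / 5 ≤ rr := by
  unfold rr
  have hN := one_le_NN
  have : 1 / (5 * NN) ≤ 1 / 5 := by
    apply one_div_le_one_div_of_le (by norm_num)
    linarith
  linarith

theorem rr_le_one : rr ≤ 1 := by
  unfold rr
  have hN := one_le_NN
  have : 0 < 1 / (5 * NN) := by positivity
  linarith

theorem rr_pos : 0 < rr := by have := rr_ge; linarith

theorem exp_q : Real.exp (-(1 / (4 * NN))) ≤ rr := by
  have hN := one_le_NN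
  have hN0 : 0 < NN := by linarith
  unfold rr
  set x : ℝ := 1 / (4 * NN) with hx
  have hx0 : 0 < x := by positivity
  have hx1 : x ≤ 1 / 4 := by
    rw [hx]
    apply one_div_le_one_div_of_le (by norm_num)
    linarith
  have e : 1 / (5 * NN) = 4 / 5 * x := by rw [hx]; field_simp
  rw [e]
  have h := Real.add_one_le_exp x
  rw [Real.exp_neg]
  calc (Real.exp x)⁻¹ ≤ (x + 1)⁻¹ := inv_anti₀ (by linarith) h
    _ ≤ 1 - 4 / 5 * x := by
      rw [inv_eq_one_div, div_le_iff₀ (by linarith)]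
      nlinarith

theorem exp_slow (n : ℕ) : Real.exp (-(n : ℝ) / (4 * NN)) ≤ rr ^ n := by
  have e : Real.exp (-(n : ℝ) / (4 * NN)) = Real.exp (-(1 / (4 * NN))) ^ n := by
    rw [← Real.exp_nat_mul]
    ring_nf
  rw [e]
  have := Real.exp_pos (-(1 / (4 * NN)))
  gcongr
  exact exp_q

/-- `4 η_n` is at most the decrease of the tolerance -/
theorem eta_step (n : ℕ) : 4 * eta n ≤ 1 / 10 ^ 10 * (rr ^ n - rr ^ (n + 1)) := by
  have hN := one_le_NN
  have hN0 : 0 < NN := by linarith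
  have h1 := exp_slow n
  have h2 := exp_m30
  have h3 : NN * Real.exp (-(3 * NN)) ≤ 1 := by
    refine le_trans ?_ NN3_exp
    have := Real.exp_pos (-(3 * NN))
    have e : NN ≤ NN ^ 3 := by nlinarith [mul_pos hN0 hN0]
    gcongr
  have e1 : rr ^ n - rr ^ (n + 1) = rr ^ n * (1 / (5 * NN)) := by
    rw [pow_succ]
    unfold rr
    ring
  have hr : 0 < rr ^ n := pow_pos rr_pos n
  rw [eta_eq, e1]
  have h4 : 0 < Real.exp (-(3 * NN)) := Real.exp_pos _
  have h5 : 0 < Real.exp (-(n : ℝ) / (4 * NN)) := Real.exp_pos _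
  have h6 : Real.exp (-(3 * NN)) ≤ 1 / NN := by
    rw [le_div_iff₀ hN0]
    linarith
  calc 4 * (Real.exp (-30) * Real.exp (-(3 * NN)) * Real.exp (-(n : ℝ) / (4 * NN)))
      ≤ 4 * (1 / (8 * 10 ^ 12) * (1 / NN) * rr ^ n) := by gcongr
    _ = (4 * 5 / (8 * 10 ^ 12)) * (rr ^ n * (1 / (5 * NN))) := by field_simp
    _ ≤ 1 / 10 ^ 10 * (rr ^ n * (1 / (5 * NN))) := by
      apply mul_le_mul_of_nonneg_right _ (by positivity)
      norm_num

theorem eta_small (n : ℕ) : eta n ≤ 1 / 10 ^ 12 := by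
  have hN := one_le_NN
  have hn : (0 : ℝ) ≤ n := Nat.cast_nonneg n
  have h0 : 0 ≤ (n : ℝ) / (4 * NN) := by positivity
  calc eta n ≤ Real.exp (-30) := by
        unfold eta
        apply Real.exp_le_exp.mpr
        linarith
    _ ≤ 1 / (8 * 10 ^ 12) := exp_m30
    _ ≤ _ := by norm_num

theorem eta_DD (n : ℕ) : eta n * DD n ≤ 1 / 10 ^ 5 := by
  have hN := one_le_NN
  have h1 := sq_exp n
  have h2 := exp_m30
  have h3 := NN3_exp
  have h4 : 0 < Real.exp (-(3 * NN)) := Real.exp_pos _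
  rw [eta_eq]
  unfold DD Lam LL
  calc Real.exp (-30) * Real.exp (-(3 * NN)) * Real.exp (-(n : ℝ) / (4 * NN)) *
        (2 * (100000 * NN * ((n : ℝ) + 1) ^ 2))
      = Real.exp (-30) * (200000 * NN * Real.exp (-(3 * NN))) *
          (((n : ℝ) + 1) ^ 2 * Real.exp (-(n : ℝ) / (4 * NN))) := by ring
    _ ≤ 1 / (8 * 10 ^ 12) * (200000 * NN * Real.exp (-(3 * NN))) * (64 * NN ^ 2 * (13 / 10)) := by
        gcongr
    _ = 1 / (8 * 10 ^ 12) * 200000 * 64 * (13 / 10) * (NN ^ 3 * Real.exp (-(3 * NN))) := by ring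
    _ ≤ 1 / (8 * 10 ^ 12) * 200000 * 64 * (13 / 10) * 1 := by gcongr
    _ ≤ _ := by norm_num

theorem DD_le (n : ℕ) : DD n ≤ Real.exp (13 + NN + 2 * n) := by
  have hN := one_le_NN
  have h := TT_le
  have h2 := sq_le_exp n
  have h3 : 0 < ((n : ℝ) + 1) ^ 2 := by positivity
  have h4 : 2 * LL ≤ Real.exp (13 + NN) := by
    refine le_trans ?_ h
    unfold TT LL
    linarith
  unfold DD Lam
  rw [Real.exp_add (13 + NN)]
  calc 2 * (LL * ((n : ℝ) + 1) ^ 2) = (2 * LL) * ((n : ℝ) + 1) ^ 2 := by ring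
    _ ≤ _ := by gcongr

/-- The size of the perturbation. -/
noncomputable def del (n : ℕ) : ℝ := 33 * (epsv * qq n) + 100 * Real.exp (-Lam n / 130)

theorem del_pos (n : ℕ) : 0 < del n := by
  unfold del
  have := epsv_pos
  have := qq_pos n
  positivity

theorem qq_eq (n : ℕ) : qq n = Real.exp (-(n : ℝ) / (4 * NN)) * Real.exp (-(n : ℝ) / (4 * NN)) := by
  unfold qq
  rw [← Real.exp_add]
  have hN := one_le_NN
  congr 1
  field_simp
  ring

theorem epsv_eq : epsv = Real.exp (-30) * Real.exp (-40) * Real.exp (-(3 * NN)) *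
    Real.exp (-(3 * NN)) := by
  unfold epsv
  rw [← Real.exp_add, ← Real.exp_add, ← Real.exp_add]
  ring_nf

theorem exp_m40 : Real.exp (-40) ≤ 1 / 10 ^ 16 := by
  have h := exp_ge 40
  push_cast at h
  rw [Real.exp_neg, ← one_div]
  apply one_div_le_one_div_of_le (by norm_num)
  refine le_trans ?_ h
  norm_num

theorem Lam_ge' (n : ℕ) : 50000 * (NN + n + 1) ≤ Lam n := by
  unfold Lam LL
  have hN := one_le_NN
  have hn : (0 : ℝ) ≤ n := Nat.cast_nonneg n
  have h1 : NN + (n + 1) ≤ 2 * (NN * (n + 1)) := by nlinarith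
  have h2 : NN * ((n : ℝ) + 1) ≤ NN * ((n : ℝ) + 1) ^ 2 := by
    have : (n : ℝ) + 1 ≤ ((n : ℝ) + 1) ^ 2 := by nlinarith
    gcongr
  nlinarith

theorem n_div_le (n : ℕ) : (n : ℝ) / (4 * NN) ≤ n / 4 := by
  have hN := one_le_NN
  have hn : (0 : ℝ) ≤ n := Nat.cast_nonneg n
  apply div_le_div_of_nonneg_left hn (by norm_num)
  linarith

theorem del_DD (n : ℕ) : del n * DD n ≤ eta n / 20 := by
  have hN := one_le_NN
  have hn : (0 : ℝ) ≤ n := Nat.cast_nonneg n
  have h1 : 33 * (epsv * qq n) * DD n ≤ eta n / 40 := by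
    have k1 := sq_exp n
    have k2 := exp_m40
    have k3 := NN3_exp
    have k4 : 0 < Real.exp (-(3 * NN)) := Real.exp_pos _
    have k5 : 0 < Real.exp (-(n : ℝ) / (4 * NN)) := Real.exp_pos _
    have k6 : 0 < Real.exp (-30) := Real.exp_pos _
    rw [eta_eq, qq_eq, epsv_eq]
    unfold DD Lam LL
    calc 33 * (Real.exp (-30) * Real.exp (-40) * Real.exp (-(3 * NN)) * Real.exp (-(3 * NN)) *
          (Real.exp (-(n : ℝ) / (4 * NN)) * Real.exp (-(n : ℝ) / (4 * NN)))) *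
          (2 * (100000 * NN * ((n : ℝ) + 1) ^ 2))
        = 33 * 200000 * (Real.exp (-40) * (NN * Real.exp (-(3 * NN)))) *
          (((n : ℝ) + 1) ^ 2 * Real.exp (-(n : ℝ) / (4 * NN))) *
          (Real.exp (-30) * Real.exp (-(3 * NN)) * Real.exp (-(n : ℝ) / (4 * NN))) := by ring
      _ ≤ 33 * 200000 * (1 / 10 ^ 16 * (NN * Real.exp (-(3 * NN)))) * (64 * NN ^ 2 * (13 / 10)) *
          (Real.exp (-30) * Real.exp (-(3 * NN)) * Real.exp (-(n : ℝ) / (4 * NN))) := by gcongr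
      _ = 33 * 200000 * (1 / 10 ^ 16) * 64 * (13 / 10) * (NN ^ 3 * Real.exp (-(3 * NN))) *
          (Real.exp (-30) * Real.exp (-(3 * NN)) * Real.exp (-(n : ℝ) / (4 * NN))) := by ring
      _ ≤ 33 * 200000 * (1 / 10 ^ 16) * 64 * (13 / 10) * 1 *
          (Real.exp (-30) * Real.exp (-(3 * NN)) * Real.exp (-(n : ℝ) / (4 * NN))) := by gcongr
      _ ≤ 1 / 40 * (Real.exp (-30) * Real.exp (-(3 * NN)) * Real.exp (-(n : ℝ) / (4 * NN))) := by
          gcongr
          norm_num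
      _ = _ := by ring
  have h2 : 100 * Real.exp (-Lam n / 130) * DD n ≤ eta n / 40 := by
    have h3 := DD_le n
    have h4 : (100 : ℝ) ≤ Real.exp 5 := by
      have := exp_ge 5
      push_cast at this
      refine le_trans ?_ this
      norm_num
    have h5 : Real.exp (-4) ≤ 1 / 40 := by
      have := exp_ge 4
      push_cast at this
      rw [Real.exp_neg, ← one_div]
      apply one_div_le_one_div_of_le (by norm_num)
      refine le_trans ?_ this
      norm_num
    have h7 := Lam_ge' n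
    have h8 := n_div_le n
    calc 100 * Real.exp (-Lam n / 130) * DD n
        ≤ Real.exp 5 * Real.exp (-Lam n / 130) * Real.exp (13 + NN + 2 * n) := by
          have h6 : 0 ≤ DD n := by
            unfold DD
            linarith
          gcongr
      _ = Real.exp (5 + -Lam n / 130 + (13 + NN + 2 * n)) := by
          rw [Real.exp_add (5 + -Lam n / 130), Real.exp_add 5]
      _ ≤ Real.exp (-(30 + 3 * NN + (n : ℝ) / (4 * NN)) + -4) := by
          apply Real.exp_le_exp.mpr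
          linarith
      _ = eta n * Real.exp (-4) := by rw [Real.exp_add]; rfl
      _ ≤ eta n * (1 / 40) := by
          have := eta_pos n
          gcongr
      _ = eta n / 40 := by ring
  calc del n * DD n = 33 * (epsv * qq n) * DD n + 100 * Real.exp (-Lam n / 130) * DD n := by
        unfold del; ring
    _ ≤ _ := by linarith

theorem one_le_DD (n : ℕ) : 100000 ≤ DD n := by
  unfold DD
  have hn : (0 : ℝ) ≤ n := Nat.cast_nonneg n
  have hN := one_le_NN
  have := Lam_ge' n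
  linarith

theorem del_le (n : ℕ) : del n ≤ eta n / 100 := by
  have h1 := del_DD n
  have h2 := one_le_DD n
  have h3 := del_pos n
  nlinarith

theorem Lam_ge (n : ℕ) : 100000 * ((n : ℝ) + 1) ≤ Lam n := by
  unfold Lam LL
  have hn : (0 : ℝ) ≤ n := Nat.cast_nonneg n
  have hN := one_le_NN
  have h1 : 1 * ((n : ℝ) + 1) ≤ NN * ((n : ℝ) + 1) ^ 2 := by
    have : (n : ℝ) + 1 ≤ ((n : ℝ) + 1) ^ 2 := by nlinarith
    gcongr
  nlinarith

theorem Lam_succ (n : ℕ) : Lam (n + 1) ≤ 4 * Lam n := by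
  unfold Lam LL
  push_cast
  have hn : (0 : ℝ) ≤ n := Nat.cast_nonneg n
  have hN := one_le_NN
  have h1 : ((n : ℝ) + 1 + 1) ^ 2 ≤ 4 * ((n : ℝ) + 1) ^ 2 := by nlinarith
  calc 100000 * NN * ((n : ℝ) + 1 + 1) ^ 2 ≤ 100000 * NN * (4 * ((n : ℝ) + 1) ^ 2) := by gcongr
    _ = _ := by ring

theorem Lam_succ' (n : ℕ) : Lam n + 100000 * ((n : ℝ) + 1) ≤ Lam (n + 1) := by
  unfold Lam LL
  push_cast
  have hn : (0 : ℝ) ≤ n := Nat.cast_nonneg n
  have hN := one_le_NN
  have e1 : 100000 * NN * ((n : ℝ) + 1 + 1) ^ 2 = 100000 * NN * ((n : ℝ) + 1) ^ 2 +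
      100000 * (NN * (2 * n + 3)) := by ring
  rw [e1]
  nlinarith

theorem tau_le (n : ℕ) : tau n ≤ Real.exp (-(9 / 10) * Lam n) := by
  have h1 := kap_le n
  have h2 := TT_le
  have h3 : bet n ^ 2 = Real.exp (-Lam n) := by
    unfold bet
    rw [← Real.exp_nat_mul]
    push_cast
    ring_nf
  have h4 : gg (n + 1) ≤ Real.exp (-Lam n) / 2 := gg_half n
  have h5 := one_le_kap n
  have hn : (0 : ℝ) ≤ n := Nat.cast_nonneg n
  have h6 : (33 : ℝ) ≤ Real.exp 4 := by
    have := exp_ge 4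
    push_cast at this
    refine le_trans ?_ this
    norm_num
  have h7 := Real.exp_pos (-Lam n)
  have h8 := TT_pos
  have h9 := Lam_ge' n
  have hN := one_le_NN
  calc tau n = TT * (kap n * Real.exp (-Lam n) + 32 * gg (n + 1)) := by unfold tau; rw [h3]
    _ ≤ TT * (33 * kap n * Real.exp (-Lam n)) := by
        gcongr
        nlinarith
    _ ≤ Real.exp (13 + NN) * (Real.exp 4 * Real.exp (4 * n) * Real.exp (-Lam n)) := by
        gcongr
    _ = Real.exp (13 + NN + (4 + 4 * n + -Lam n)) := by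
        rw [Real.exp_add (13 + NN), Real.exp_add (4 + 4 * (n : ℝ)), Real.exp_add 4]
    _ ≤ Real.exp (-(9 / 10) * Lam n) := by
        apply Real.exp_le_exp.mpr
        linarith

theorem tau_pos (n : ℕ) : 0 < tau n := by
  unfold tau
  have := TT_pos; have := kap_pos n; have := bet_pos n; have := gg_pos (n + 1)
  positivity

/-- super small numbers are small with respect to `eta`. -/
theorem exp_le_eta (n : ℕ) {c : ℝ} (hc : 1 / 1000 ≤ c) :
    Real.exp (-c * Lam n) * Real.exp (13 + NN + 2 * n) ≤ eta n / 100 := by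
  have hn : (0 : ℝ) ≤ n := Nat.cast_nonneg n
  have hN := one_le_NN
  have h8 := n_div_le n
  have h5 : Real.exp (-5) ≤ 1 / 100 := by
    have := exp_ge 5
    push_cast at this
    rw [Real.exp_neg, ← one_div]
    apply one_div_le_one_div_of_le (by norm_num)
    refine le_trans ?_ this
    norm_num
  have h6 := Lam_ge' n
  have h7 : 1 / 1000 * Lam n ≤ c * Lam n := by
    have : 0 ≤ Lam n := by linarith
    gcongr
  calc Real.exp (-c * Lam n) * Real.exp (13 + NN + 2 * n) = Real.exp (-c * Lam n + (13 + NN + 2 * n)) := by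
        rw [Real.exp_add (-c * Lam n)]
    _ ≤ Real.exp (-(30 + 3 * NN + (n : ℝ) / (4 * NN)) + -5) := by
        apply Real.exp_le_exp.mpr
        linarith
    _ = eta n * Real.exp (-5) := by rw [Real.exp_add]; rfl
    _ ≤ eta n * (1 / 100) := by
        have := eta_pos n
        gcongr
    _ = eta n / 100 := by ring

theorem exp_le_eta' (n : ℕ) {c : ℝ} (hc : 1 / 1000 ≤ c) :
    Real.exp (-c * Lam n) ≤ eta n / 100 := by
  refine le_trans ?_ (exp_le_eta n hc)
  have hN := one_le_NN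
  have h1 : 1 ≤ Real.exp (13 + NN + 2 * (n : ℝ)) := Real.one_le_exp (by positivity)
  have h2 := Real.exp_pos (-c * Lam n)
  nlinarith

theorem window (n : ℕ) : DD n / kap n ≤ TT * ((1 / 8) ^ n - (1 / 8) ^ (n + 1)) := by
  have hL : 0 < LL := by
    unfold LL
    have := one_le_NN
    linarith
  unfold DD Lam TT kap
  have h := sq_le_pow4 n
  have h32 : (32 : ℝ) ^ n = 8 ^ n * 4 ^ n := by rw [← mul_pow]; norm_num
  rw [h32, pow_succ (1 / 8 : ℝ) n, one_div_pow]
  have h8 : (0 : ℝ) < 8 ^ n := by positivity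
  have h4 : (0 : ℝ) < 4 ^ n := by positivity
  rw [div_le_iff₀ (by positivity)]
  have e : 3 * LL * (1 / 8 ^ n - 1 / 8 ^ n * (1 / 8)) * (8 ^ n * (4 : ℝ) ^ n)
      = LL * (3 * (7 / 8) * 4 ^ n) := by
    field_simp
    ring
  have e2 : 2 * (LL * ((n : ℝ) + 1) ^ 2) = LL * (2 * ((n : ℝ) + 1) ^ 2) := by ring
  rw [e, e2]
  apply mul_le_mul_of_nonneg_left _ hL.le
  nlinarith

end Pool.Agent.T2H10.LO.Chn
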