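import Pool.Agent.T2H10.Ode

/-!
The chain of modes with a parameter: the viscosity may be larger than in `Chain.lean`, relative to
the coupling `32 ^ n` it decays as slowly as `exp (-n / (2 N))`.
-/

set_option autoImplicit false

open Set Filter Topology

namespace Pool.Agent.T2H10.LO

/-- the parameter -/
class Par where
  N : ℕ
  one_le : 1 ≤ N

/-- the parameter as a real number -/
noncomputable def NN [Par] : ℝ := (Par.N : ℝ)

theorem one_le_NN [Par] : 1 ≤ NN := by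
  unfold NN
  exact_mod_cast Par.one_le

/-- The strength of the coupling. -/
noncomputable def kap (n : ℕ) : ℝ := 32 ^ n

/-- The ratio of viscosity and coupling. -/
noncomputable def qq [Par] (n : ℕ) : ℝ := Real.exp (-(n : ℝ) / (2 * NN))

noncomputable def LL [Par] : ℝ := 100000 * NN

noncomputable def Lam [Par] (n : ℕ) : ℝ := LL * ((n : ℝ) + 1) ^ 2

/-- The size of the seeds. -/
noncomputable def gg [Par] (n : ℕ) : ℝ := Real.exp (-Lam n)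

/-- The threshold. -/
noncomputable def bet [Par] (n : ℕ) : ℝ := Real.exp (-Lam n / 2)

noncomputable def TT [Par] : ℝ := 3 * LL

noncomputable def epsv [Par] : ℝ := Real.exp (-(70 + 6 * NN))

/-- The momentum received from the previous mode. -/
noncomputable def feed (b : ℕ → ℝ → ℝ) : ℕ → ℝ → ℝ
  | 0, _ => 0
  | n + 1, t => kap n * b n t ^ 2

/-- The chain on the time interval `[0, TT]`. -/
structure Chain [Par] (a b : ℕ → ℝ → ℝ) (e f : ℕ → ℝ) (γ : ℕ → ℝ → ℝ) (K : ℝ) : Prop where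
  e0 : ∀ n, 0 ≤ e n
  e1 : ∀ n, e n ≤ epsv * (kap n * qq n)
  f0 : ∀ n, 0 ≤ f n
  f1 : ∀ n, f n ≤ epsv * (kap n * qq n)
  da : ∀ n, ∀ t ∈ Icc 0 TT, HasDerivWithinAt (a n)
    (-(e n) * a n t - kap n * b n t ^ 2 + feed b n t) (Icc 0 TT) t
  db : ∀ n, ∀ t ∈ Icc 0 TT, HasDerivWithinAt (b n)
    (-(f n) * b n t + kap n * b n t * (a n t - a (n + 1) t) + γ n t) (Icc 0 TT) t
  g0 : ∀ n, ∀ t ∈ Icc 0 TT, gg n ≤ γ n t
  g1 : ∀ n, ∀ t ∈ Icc 0 TT, γ n t ≤ 16 * gg n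
  en : ∀ n, ∀ t ∈ Icc 0 TT, a n t ^ 2 + b n t ^ 2 + a (n + 1) t ^ 2 + b (n + 1) t ^ 2
    + a (n + 2) t ^ 2 ≤ 1 + 1 / 10 ^ 6
  ra : ∀ n, ∀ t ∈ Icc 0 TT, |a n t| * 4 ^ n ≤ K
  rb : ∀ n, ∀ t ∈ Icc 0 TT, |b n t| * 4 ^ n ≤ K
  a0 : a 0 0 = 1
  a1 : ∀ n, a (n + 1) 0 = 0
  b0 : b 0 0 = bet 0
  b1 : ∀ n, b (n + 1) 0 = 0

end Pool.Agent.T2H10.LO
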