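import Pool.Agent.T2H10.SC.PubDef

/-!
Public definitions: perturbations of lower order of the Navier-Stokes equations.
-/

set_option autoImplicit false

open MeasureTheory Set
open scoped InnerProductSpace ENNReal ContDiff

namespace Pool.Agent.T2H10.LO

open H772R2.NS.Pub
open Pool.Agent.T2H10.SC (sq)

/-- The spherical shell `1 < |x| < 2`. -/
def Shell : Set R3 := {x | 1 < ‖x‖ ∧ ‖x‖ < 2}

/-- `Q` is an energy conserving quadratic perturbation of lower order with a small constant: a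
continuous trilinear form in the gradients with `Q(a,b,c) = -Q(a,c,b)` (in particular
`Q(a,b,b) = 0`) such that on `V = H¹_{0,σ}(Ω)`, with `L²` norms,
`|Q(∇u,∇v,∇w)| ≤ ε ‖u‖^(1-δ) ‖∇u‖^δ ‖∇v‖ ‖∇w‖`, and the same with the weak norm on `v` or
on `w`. -/
structure IsSmallLower (Ω : Set R3) (δ ε : ℝ) (Q : L2 Ω Mat → L2 Ω Mat → L2 Ω Mat → ℝ) :
    Prop where
  add1 : ∀ a b c d, Q (a + b) c d = Q a c d + Q b c d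
  smul1 : ∀ (t : ℝ) (a c d), Q (t • a) c d = t * Q a c d
  add2 : ∀ a b c d, Q a (b + c) d = Q a b d + Q a c d
  smul2 : ∀ (t : ℝ) (a b d), Q a (t • b) d = t * Q a b d
  anti : ∀ a b c, Q a b c = -Q a c b
  cont : ∃ M, ∀ a b c, |Q a b c| ≤ M * ‖a‖ * ‖b‖ * ‖c‖
  est1 : ∀ p ∈ H1graph Ω, ∀ q ∈ H1graph Ω, ∀ r ∈ H1graph Ω,
    |Q p.2 q.2 r.2| ≤ ε * (‖p.1‖ ^ (1 - δ) * ‖p.2‖ ^ δ * ‖q.2‖ * ‖r.2‖)
  est2 : ∀ p ∈ H1graph Ω, ∀ q ∈ H1graph Ω, ∀ r ∈ H1graph Ω,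
    |Q p.2 q.2 r.2| ≤ ε * (‖p.2‖ * (‖q.1‖ ^ (1 - δ) * ‖q.2‖ ^ δ) * ‖r.2‖)
  est3 : ∀ p ∈ H1graph Ω, ∀ q ∈ H1graph Ω, ∀ r ∈ H1graph Ω,
    |Q p.2 q.2 r.2| ≤ ε * (‖p.2‖ * ‖q.2‖ * (‖r.1‖ ^ (1 - δ) * ‖r.2‖ ^ δ))

/-- `u` is a strong solution on `[0,T]`, without force, of the Navier-Stokes equations in `Ω` with
viscosity `ν`, zero boundary values and the additional quadratic term `Q`, that is
`(∂_t u, v) + ((u·∇)u, v) + Q(∇u,∇u,∇v) + ν(∇u,∇v) = 0` for all `v ∈ V`. Here `G = ∇u`,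
`u' = ∂_t u` and `G' = ∇∂_t u`:
* `u(t) ∈ V = H¹_{0,σ}(Ω)` with gradient `G(t)`, for every `t ∈ [0,T]`;
* `u ∈ H¹(0,T; L²)`, `∇u ∈ H¹(0,T; L²)` and `∂_t u(t) ∈ V` with gradient `G'(t)` for almost
  every `t`, so that `∂_t u ∈ L²(0,T; V)`;
* `∂_t u ∈ L^∞(0,T; L²)`;
* for every `v ∈ V` and every `t`, `(u(t), v) - (u(0), v)` is the integral over `(0,t)` of
  `(u ⊗ u, ∇v) - ν (∇u, ∇v) - Q(∇u,∇u,∇v)`. -/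
structure IsStrongQ (Ω : Set R3) (Q : L2 Ω Mat → L2 Ω Mat → L2 Ω Mat → ℝ) (ν T : ℝ)
    (u u' : ℝ → L2 Ω R3) (G G' : ℝ → L2 Ω Mat) : Prop where
  grad : ∀ t ∈ Icc 0 T, (u t, G t) ∈ H1graph Ω
  gradDeriv : ∀ᵐ t ∂(volume.restrict (Ioc 0 T)), (u' t, G' t) ∈ H1graph Ω
  hu : IsH1 T u u'
  hG : IsH1 T G G'
  bdd : ∃ M, ∀ᵐ t ∂(volume.restrict (Ioc 0 T)), ‖u' t‖ ≤ M
  eqn : ∀ p ∈ H1graph Ω, ∀ t ∈ Icc 0 T,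
    (∫ x in Ω, ⟪(u t).fn x, p.1.fn x⟫_ℝ) - (∫ x in Ω, ⟪(u 0).fn x, p.1.fn x⟫_ℝ)
      = ∫ s in (0 : ℝ)..t, ((∫ x in Ω, ⟪sq ((u s).fn x), p.2.fn x⟫_ℝ)
        - ν * (∫ x in Ω, ⟪(G s).fn x, p.2.fn x⟫_ℝ) - Q (G s) (G s) p.2)

end Pool.Agent.T2H10.LO
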