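import Pool.Agent.T2H10.LO.Blow
import Pool.Agent.T2H10.LO.PubDef
import Pool.Agent.T2H10.SC.Pub

/-!
The blow-up theorem in terms of the public definitions.
-/

set_option autoImplicit false
set_option maxSynthPendingDepth 3
set_option linter.unusedSectionVars false
set_option maxHeartbeats 1000000

open MeasureTheory Set Filter Topology
open scoped InnerProductSpace ENNReal ContDiff NNReal

namespace Pool.Agent.T2H10.LO

open H772R2.NS H772R2.NS.Pub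
open Pool.Agent.T2H10 (energy_of)
open Pool.Agent.T2H10.SC (pub_in1 pub_in2 pub_in3 sq)
open Pool.Agent.W795.TQ Pool.Agent.Y303.NF Pool.Agent.Y303.RA
open H772R2.NSR (Frame prim_cont)

section abs

variable {H K : Type} [NormedAddCommGroup H] [InnerProductSpace ℝ H] [CompleteSpace H]
  [NormedAddCommGroup K] [InnerProductSpace ℝ K] [CompleteSpace K]

theorem m_cont {W : Submodule ℝ (H × K)} {m : H → K} {C : ℝ} (Fr : Frame W m C) {I : Set ℝ}
    {u : ℝ → H} {z : ℝ → K} (mem : ∀ t ∈ I, (u t, z t) ∈ W) (hu : ContinuousOn u I)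
    (hz : ContinuousOn z I) : ContinuousOn (fun s => m (u s)) I := by
  intro t ht
  have h1 : Tendsto (fun s => C * (‖u s - u t‖ * ‖z s - z t‖ ^ 3 * (‖z s‖ + ‖z t‖) ^ 4))
      (𝓝[I] t) (𝓝 0) := by
    have e1 : Tendsto (fun s => ‖u s - u t‖) (𝓝[I] t) (𝓝 0) := by
      have := ((hu t ht).tendsto.sub_const (u t)).norm
      simpa using this
    have e2 : Tendsto (fun s => ‖z s - z t‖) (𝓝[I] t) (𝓝 0) := by
      have := ((hz t ht).tendsto.sub_const (z t)).norm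
      simpa using this
    have e3 : Tendsto (fun s => (‖z s‖ + ‖z t‖) ^ 4) (𝓝[I] t) (𝓝 ((‖z t‖ + ‖z t‖) ^ 4)) :=
      (((hz t ht).tendsto.norm).add_const _).pow 4
    have := (((e1.mul (e2.pow 3)).mul e3).const_mul C)
    simpa using this
  have h2 : Tendsto (fun s => ‖m (u s) - m (u t)‖ ^ 4) (𝓝[I] t) (𝓝 0) := by
    refine squeeze_zero' (Eventually.of_forall fun s => by positivity) ?_ h1
    filter_upwards [self_mem_nhdsWithin] with s hs
    exact Fr.lips _ (mem s hs) _ (mem t ht)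
  have h3 : Tendsto (fun s => √(√(‖m (u s) - m (u t)‖ ^ 4))) (𝓝[I] t) (𝓝 0) := by
    have := (Real.continuous_sqrt.tendsto _).comp ((Real.continuous_sqrt.tendsto _).comp h2)
    simpa [Function.comp_def] using this
  have h4 : ∀ x : ℝ, 0 ≤ x → √(√(x ^ 4)) = x := by
    intro x hx
    have : x ^ 4 = (x ^ 2) ^ 2 := by ring
    rw [this, Real.sqrt_sq (by positivity), Real.sqrt_sq hx]
  simp only [h4 _ (norm_nonneg _)] at h3
  exact tendsto_iff_norm_sub_tendsto_zero.mpr h3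

end abs

theorem shell_eq : (Shell : Set E3) = shell := rfl

variable {Q : L2M shell →L[ℝ] L2M shell →L[ℝ] L2M shell →L[ℝ] ℝ}

/-- the form in terms of the public spaces -/
noncomputable def QP (Q : L2M shell →L[ℝ] L2M shell →L[ℝ] L2M shell →L[ℝ] ℝ) :
    L2 Shell Mat → L2 Shell Mat → L2 Shell Mat → ℝ :=
  fun a b c => Q (show L2M shell from a) (show L2M shell from b) (show L2M shell from c)

theorem mem_q {v : L2V shell} {z : L2M shell} : (v, z) ∈ graphW shell ↔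
    ((v, z) : L2 Shell R3 × L2 Shell Mat) ∈ Pub.H1graph Shell := mem_pub

theorem rhs_q (hin : ∀ p ∈ graphW shell, ∀ c, ⟪mQ (graphW shell) tensL Q p.1, c⟫_ℝ
        = ⟪tensL p.1, c⟫_ℝ - Q p.2 p.2 c) (ν : ℝ) {v : L2V shell} {z : L2M shell}
    (h : (v, z) ∈ graphW shell) (q : L2M shell) :
    ⟪(0 : L2M shell) - ν • z + mQ (graphW shell) tensL Q v, q⟫_ℝ
      = ⟪tensL v, q⟫_ℝ - ν * ⟪z, q⟫_ℝ - Q z z q := by
  have e7 : ⟪mQ (graphW shell) tensL Q v, q⟫_ℝ = ⟪tensL v, q⟫_ℝ - Q z z q := hin _ h q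
  rw [inner_add_left, inner_sub_left, inner_zero_left, real_inner_smul_left, e7]
  ring

section lin

variable (a b c d : L2M shell) (t : ℝ)

theorem Q_add1 : Q (a + b) c d = Q a c d + Q b c d := by rw [map_add]; rfl

theorem Q_smul1 : Q (t • a) c d = t * Q a c d := by rw [map_smul]; rfl

theorem Q_add2 : Q a (b + c) d = Q a b d + Q a c d := by rw [map_add]; rfl

theorem Q_smul2 : Q a (t • b) d = t * Q a b d := by rw [map_smul]; rfl

theorem Q_bd : |Q a b c| ≤ ‖Q‖ * ‖a‖ * ‖b‖ * ‖c‖ := by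
  have := (Q a b).le_opNorm c
  rw [Real.norm_eq_abs] at this
  refine this.trans ?_
  gcongr
  exact (Q a).le_of_opNorm_le (Q.le_opNorm _) _

end lin

theorem q_of_str {ν T : ℝ} {u u1 : ℝ → L2V shell} {z z1 : ℝ → L2M shell}
    (hin : ∀ p ∈ graphW shell, ∀ c, ⟪mQ (graphW shell) tensL Q p.1, c⟫_ℝ
        = ⟪tensL p.1, c⟫_ℝ - Q p.2 p.2 c)
    (B : Str (graphW shell) (mQ (graphW shell) tensL Q) ν T (fun _ => 0) u u1 z z1) :
    IsStrongQ Shell (QP Q) ν T u u1 z z1 := by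
  constructor
  · intro t ht
    exact mem_q.mp (B.mem t ht)
  · filter_upwards [B.mem1] with t ht
    exact mem_q.mp ht
  · exact ⟨B.u1m, B.pu⟩
  · exact ⟨B.z1m, B.pz⟩
  · exact B.bd
  · intro p hp t ht
    have hp' : (p : L2V shell × L2M shell) ∈ graphW shell := mem_q.mpr hp
    have h1 := B.weak p hp' t ht
    have e1 := pub_in1 (Ω := shell) (u t) p.1
    have e2 := pub_in1 (Ω := shell) (u 0) p.1
    have h2 : ⟪u t - u 0, p.1⟫_ℝ = ⟪u t, p.1⟫_ℝ - ⟪u 0, p.1⟫_ℝ := inner_sub_left _ _ _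
    refine (congrArg₂ (· - ·) e1 e2).trans ?_
    refine h2.symm.trans (h1.trans ?_)
    refine intervalIntegral.integral_congr ?_
    intro s hs
    rw [uIcc_of_le ht.1] at hs
    have hs' : s ∈ Icc 0 T := ⟨hs.1, hs.2.trans ht.2⟩
    have e3 := pub_in3 shell_open.measurableSet (B.mem s hs') p.2
    have e4 := pub_in2 (Ω := shell) (z s) p.2
    have e6 := rhs_q hin ν (B.mem s hs') p.2
    refine e6.trans ?_
    exact (congrArg₂ (fun a b => a - ν * b - Q (z s) (z s) p.2) e3 e4).symm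

theorem str_of_q {C : ℝ} (Fr : Frame (graphW shell) (mQ (graphW shell) tensL Q) C)
    (hin : ∀ p ∈ graphW shell, ∀ c, ⟪mQ (graphW shell) tensL Q p.1, c⟫_ℝ
        = ⟪tensL p.1, c⟫_ℝ - Q p.2 p.2 c)
    {ν T : ℝ} (hT : 0 < T) {u u1 : ℝ → L2V shell} {z z1 : ℝ → L2M shell}
    (B : IsStrongQ Shell (QP Q) ν T u u1 z z1) :
    Str (graphW shell) (mQ (graphW shell) tensL Q) ν T (fun _ => 0) u u1 z z1 := by
  have mem : ∀ t ∈ Icc 0 T, (u t, z t) ∈ graphW shell := fun t ht => mem_q.mpr (B.grad t ht)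
  have mem1 : ∀ᵐ s ∂(volume.restrict (Ioc 0 T)), (u1 s, z1 s) ∈ graphW shell := by
    filter_upwards [B.gradDeriv] with t ht
    exact mem_q.mpr ht
  have u1m : MemLp u1 2 (volume.restrict (Ioc 0 T)) := B.hu.memLp
  have z1m : MemLp z1 2 (volume.restrict (Ioc 0 T)) := B.hG.memLp
  have pu : ∀ a b, 0 ≤ a → a ≤ b → b ≤ T → u b - u a = ∫ s in a..b, u1 s := B.hu.prim
  have pz : ∀ a b, 0 ≤ a → a ≤ b → b ≤ T → z b - z a = ∫ s in a..b, z1 s := B.hG.prim
  have hzc : ContinuousOn z (Icc 0 T) := prim_cont z1m pz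
  have huc : ContinuousOn u (Icc 0 T) := prim_cont u1m pu
  have htc : ContinuousOn (fun s => mQ (graphW shell) tensL Q (u s)) (Icc 0 T) :=
    m_cont Fr mem huc hzc
  have weak : ∀ p ∈ graphW shell, ∀ t ∈ Icc 0 T, ⟪u t - u 0, p.1⟫_ℝ
      = ∫ s in (0 : ℝ)..t, ⟪(0 : L2M shell) - ν • z s + mQ (graphW shell) tensL Q (u s),
        p.2⟫_ℝ := by
    intro p hp t ht
    have h1 := B.eqn p (mem_q.mp hp) t ht
    have e1 := pub_in1 (Ω := shell) (u t) p.1
    have e2 := pub_in1 (Ω := shell) (u 0) p.1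
    have h2 : ⟪u t - u 0, p.1⟫_ℝ = ⟪u t, p.1⟫_ℝ - ⟪u 0, p.1⟫_ℝ := inner_sub_left _ _ _
    refine h2.trans ((congrArg₂ (· - ·) e1 e2).symm.trans (h1.trans ?_))
    refine intervalIntegral.integral_congr ?_
    intro s hs
    rw [uIcc_of_le ht.1] at hs
    have hs' : s ∈ Icc 0 T := ⟨hs.1, hs.2.trans ht.2⟩
    have e3 := pub_in3 shell_open.measurableSet (mem s hs') p.2
    have e4 := pub_in2 (Ω := shell) (z s) p.2
    have e6 := rhs_q hin ν (mem s hs') p.2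
    refine Eq.trans ?_ e6.symm
    exact congrArg₂ (fun a b => a - ν * b - Q (z s) (z s) p.2) e3 e4
  exact ⟨mem, mem1, B.bdd, u1m, z1m, pu, pz, weak, energy_of Fr hT mem u1m pu hzc htc weak⟩

/-- the theorem in terms of the public definitions -/
theorem main_pub {δ ε : ℝ} (hc : Concl δ ε) :
    ∃ Q : L2 Shell Mat → L2 Shell Mat → L2 Shell Mat → ℝ, IsSmallLower Shell δ ε Q ∧
      ∃ φ : R3 → R3, ContDiff ℝ ∞ φ ∧ (∀ x ∈ Shell, dvg φ x = 0) ∧
      (∀ x, ‖x‖ = 1 ∨ ‖x‖ = 2 → φ x = 0) ∧ (∫ x in Shell, ⟪φ x, φ x⟫_ℝ) ≤ 1 ∧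
      ∀ ν : ℝ, 0 < ν → ∀ c : ℝ, ε * ν ≤ c →
        ∃ (τ : ℝ) (u u' : ℝ → L2 Shell R3) (G G' : ℝ → L2 Shell Mat), 0 < τ ∧ τ ≤ ε / c ∧
          IsClass (u 0) (c • φ) ∧
          (∀ T ∈ Ioo 0 τ, IsStrongQ Shell Q ν T u u' G G') ∧
          (∀ t ∈ Ico 0 τ, ‖u t‖ ^ 2 / 2 + ν * (∫ s in (0 : ℝ)..t, ‖G s‖ ^ 2) = ‖u 0‖ ^ 2 / 2) ∧
          (∀ N : ℝ, ∃ t ∈ Ioo 0 τ, N ≤ ‖G t‖) ∧
          (∀ T, τ ≤ T → ∀ (v v' : ℝ → L2 Shell R3) (D D' : ℝ → L2 Shell Mat),
            IsStrongQ Shell Q ν T v v' D D' → ¬ IsClass (v 0) (c • φ)) := by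
  obtain ⟨Q, C, h1, h2, Fr, hin, φ, k1, k2, k3, k4, k5⟩ := hc
  refine ⟨QP Q, ?_, φ, k1, fun x hx => (dvg_eq φ x).trans (k2 x hx), k3, ?_, ?_⟩
  · constructor
    · exact fun a b c d => Q_add1 _ _ _ _
    · exact fun t a c d => Q_smul1 _ _ _ _
    · exact fun a b c d => Q_add2 _ _ _ _
    · exact fun t a b d => Q_smul2 _ _ _ _
    · exact fun a b c => h1 _ _ _
    · exact ⟨‖Q‖, fun a b c => Q_bd _ _ _⟩
    · intro p hp q hq r hr
      exact h2.f1 p (mem_q.mpr hp) q (mem_q.mpr hq) r.2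
    · intro p hp q hq r hr
      exact h2.f2 p (mem_q.mpr hp) q (mem_q.mpr hq) r.2
    · intro p hp q hq r hr
      exact h2.f3 p (mem_q.mpr hp) q (mem_q.mpr hq) r (mem_q.mpr hr)
  · have e : ∫ x in shell, ‖φ x‖ ^ 2 = ∫ x in shell, ⟪φ x, φ x⟫_ℝ := by
      refine integral_congr_ae (Eventually.of_forall fun x => ?_)
      exact (real_inner_self_eq_norm_sq _).symm
    rw [e] at k4
    exact k4
  · intro ν hν c hc
    obtain ⟨τ, u, m1, m2, m3, m4, m5, m6⟩ := k5 ν hν c hc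
    refine ⟨τ, u, _, _, _, m1, m2, m3, fun T hT => q_of_str hin (m4 T hT), ?_, m5, ?_⟩
    · intro t ht
      obtain ⟨r, hr1, hr2⟩ := exists_between ht.2
      have h := (m4 r ⟨ht.1.trans_lt hr1, hr2⟩).energy t ⟨ht.1, hr1.le⟩
      have h' : ∫ s in (0 : ℝ)..t, ⟪(0 : L2M shell), gz (graphW shell) u s⟫_ℝ = 0 := by simp
      rw [h', add_zero] at h
      exact h
    · intro T hT v v' D D' hv hv0
      exact m6 T hT v v' D D' (str_of_q Fr hin (m1.trans_le hT) hv) hv0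

end Pool.Agent.T2H10.LO
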