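import Pool.Agent.T2H10.LO.Num
import Pool.Agent.T2H10.Stage

/-!
One stage of the chain with a parameter: the analysis in a window. (Adapted from `Pool.Agent.T2H10.Win`.)
-/

set_option autoImplicit false
set_option maxHeartbeats 1000000
set_option linter.unusedSectionVars false

open Set Filter Topology

namespace Pool.Agent.T2H10.LO.Chn

variable [Par]

variable {a b : ℕ → ℝ → ℝ} {e f : ℕ → ℝ} {γ : ℕ → ℝ → ℝ} {K : ℝ}

/-- The induction hypothesis. -/
structure Inv (a b : ℕ → ℝ → ℝ) (n : ℕ) (θ : ℝ) : Prop where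
  θ0 : 0 ≤ θ
  θ1 : θ ≤ TT * (1 - (1 / 8) ^ n)
  hit : b n θ = bet n
  bel : ∀ t ∈ Icc 0 θ, b n t ≤ bet n
  low : 1 - 1 / 10 ^ 10 * (1 - rr ^ n) ≤ a n θ
  prev : ∀ m, n = m + 1 → b m θ ≤ Real.exp (-(1 / 240) * Lam n)

theorem Inv.θT {n : ℕ} {θ : ℝ} (I : Inv a b n θ) : θ ≤ TT := by
  refine I.θ1.trans ?_
  have := TT_pos
  have h : (0 : ℝ) < (1 / 8) ^ n := by positivity
  nlinarith

theorem visc_le (n : ℕ) {c : ℝ} (h : c ≤ epsv * (kap n * qq n)) : c ≤ kap n * (epsv * qq n) := by
  refine h.trans (le_of_eq ?_)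
  ring

theorem qq_anti (n : ℕ) : qq (n + 1) ≤ qq n := by
  unfold qq
  apply Real.exp_le_exp.mpr
  have hN := one_le_NN
  have : -((n + 1 : ℕ) : ℝ) ≤ -(n : ℝ) := by push_cast; linarith
  exact div_le_div_of_nonneg_right this (by linarith)

theorem visc_le' (n : ℕ) {c : ℝ} (h : c ≤ epsv * (kap (n + 1) * qq (n + 1))) :
    c ≤ kap n * (32 * (epsv * qq n)) := by
  refine h.trans ?_
  rw [kap_succ]
  have h1 := qq_anti n
  have h2 := epsv_pos
  have h3 := kap_pos n
  calc epsv * (32 * kap n * qq (n + 1)) ≤ epsv * (32 * kap n * qq n) := by gcongr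
    _ = _ := by ring

theorem gg_le (n : ℕ) : gg n ≤ kap n * Real.exp (-Lam n / 130) := by
  have h1 := one_le_kap n
  have h2 : gg n ≤ Real.exp (-Lam n / 130) := by
    unfold gg
    apply Real.exp_le_exp.mpr
    have := Lam_ge n
    have hn : (0 : ℝ) ≤ n := Nat.cast_nonneg n
    linarith
  have h3 := Real.exp_pos (-Lam n / 130)
  nlinarith

theorem bet_sq (n : ℕ) : bet n ^ 2 = Real.exp (-Lam n) := by
  unfold bet
  rw [← Real.exp_nat_mul]
  push_cast
  ring_nf

theorem sixteen_gg_TT (n : ℕ) : 16 * gg n * TT ≤ Real.exp (16 + NN - Lam n) := by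
  have h1 := TT_le
  have h2 : (16 : ℝ) ≤ Real.exp 3 := by
    have := exp_ge 3
    push_cast at this
    refine le_trans ?_ this
    norm_num
  have h3 : Real.exp (16 + NN - Lam n) = Real.exp 3 * gg n * Real.exp (13 + NN) := by
    unfold gg
    rw [← Real.exp_add, ← Real.exp_add]
    ring_nf
  rw [h3]
  have := TT_pos
  have := gg_pos n
  gcongr

section window

variable {n : ℕ} {θ te : ℝ}

/-- the hypotheses of the window -/
structure Win (a b : ℕ → ℝ → ℝ) (n : ℕ) (θ te : ℝ) : Prop where
  I : Inv a b n θ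
  le : θ ≤ te
  leT : te ≤ TT
  win : kap n * (te - θ) ≤ DD n
  hw : ∀ t ∈ Icc 0 te, b (n + 1) t ≤ bet (n + 1)

theorem Win.mem (W : Win a b n θ te) {t : ℝ} (ht : t ∈ Icc θ te) : t ∈ Icc 0 TT :=
  ⟨W.I.θ0.trans ht.1, ht.2.trans W.leT⟩

theorem Win.tri (C : Chain a b e f γ K) (W : Win a b n θ te) :
    Tri (kap n) θ te (a n) (b n) (a (n + 1)) (fun t => -(e n) * a n t + feed b n t)
      (fun t => -(f n) * b n t + γ n t)
      (fun t => -(e (n + 1)) * a (n + 1) t - kap (n + 1) * b (n + 1) t ^ 2) where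
  κ0 := kap_pos n
  le := W.le
  dx := fun t ht => by
    refine (deriv_mono (C.da n) W.I.θ0 W.leT t ht).congr_deriv ?_
    ring
  ds := fun t ht => by
    refine (deriv_mono (C.db n) W.I.θ0 W.leT t ht).congr_deriv ?_
    ring
  dy := fun t ht => by
    refine (deriv_mono (C.da (n + 1)) W.I.θ0 W.leT t ht).congr_deriv ?_
    have : feed b (n + 1) t = kap n * b n t ^ 2 := rfl
    rw [this]
    ring
  bx := fun t ht => C.ba n (W.mem ht)
  s0 := fun t ht => C.b_nonneg n t (W.mem ht)
  bs := fun t ht => (le_abs_self _).trans (C.bb n (W.mem ht))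
  by' := fun t ht => C.ba (n + 1) (W.mem ht)

theorem Win.b2 (C : Chain a b e f γ K) (W : Win a b n θ te) : ∀ t ∈ Icc θ te,
    |-(f n) * b n t + γ n t| ≤ kap n * del n := by
  intro t ht
  have h1 := visc_le n (C.f1 n)
  have h2 := C.f0 n
  have h3 := C.b_nonneg n t (W.mem ht)
  have h4 := (le_abs_self _).trans (C.bb n (W.mem ht))
  have h5 := C.g0 n t (W.mem ht)
  have h6 := C.g1 n t (W.mem ht)
  have h7 := gg_le n
  have h8 := gg_pos n
  have h9 : 0 ≤ kap n * (epsv * qq n) := h2.trans h1
  have h10 : f n * b n t ≤ kap n * (epsv * qq n) * (101 / 100) :=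
    mul_le_mul h1 h4 h3 h9
  have h11 : 0 ≤ f n * b n t := mul_nonneg h2 h3
  have h12 : 0 ≤ kap n * Real.exp (-Lam n / 130) := by
    have := kap_pos n
    positivity
  have h13 : kap n * del n = 33 * (kap n * (epsv * qq n))
      + 100 * (kap n * Real.exp (-Lam n / 130)) := by
    unfold del; ring
  rw [h13, abs_le]
  constructor <;> nlinarith

theorem Win.b2' (C : Chain a b e f γ K) (W : Win a b n θ te) : ∀ t ∈ Icc θ te,
    -(kap n * del n * b n t) ≤ -(f n) * b n t + γ n t := by
  intro t ht
  have h1 := visc_le n (C.f1 n)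
  have h3 := C.b_nonneg n t (W.mem ht)
  have h5 := C.g0 n t (W.mem ht)
  have h8 := gg_pos n
  have h9 : f n ≤ kap n * del n := by
    have h13 : kap n * del n = 33 * (kap n * (epsv * qq n))
        + 100 * (kap n * Real.exp (-Lam n / 130)) := by
      unfold del; ring
    have h12 : 0 ≤ kap n * Real.exp (-Lam n / 130) := by
      have := kap_pos n
      positivity
    have := C.f0 n
    linarith
  nlinarith

theorem Win.psi (C : Chain a b e f γ K) (W : Win a b n θ te) {t : ℝ} (ht : t ∈ Icc 0 te) :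
    0 ≤ kap (n + 1) * b (n + 1) t ^ 2 ∧
    kap (n + 1) * b (n + 1) t ^ 2 ≤ 32 * kap n * Real.exp (-Lam (n + 1)) := by
  have h1 := W.hw t ht
  have h2 := C.b_nonneg (n + 1) t ⟨ht.1, ht.2.trans W.leT⟩
  have h3 := kap_pos n
  have h4 := kap_succ n
  have h5 : b (n + 1) t ^ 2 ≤ Real.exp (-Lam (n + 1)) := by
    rw [← bet_sq]
    gcongr
  rw [h4]
  constructor
  · positivity
  · gcongr

theorem Win.b3 (C : Chain a b e f γ K) (W : Win a b n θ te) : ∀ t ∈ Icc θ te,
    |-(e (n + 1)) * a (n + 1) t - kap (n + 1) * b (n + 1) t ^ 2| ≤ kap n * del n := by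
  intro t ht
  have h1 := visc_le' n (C.e1 (n + 1))
  have h2 := C.e0 (n + 1)
  have h3 := C.ba (n + 1) (W.mem ht)
  obtain ⟨h4, h5⟩ := W.psi C ⟨W.I.θ0.trans ht.1, ht.2⟩
  have hk := kap_pos n
  have h6 : |e (n + 1) * a (n + 1) t| ≤ kap n * (32 * (epsv * qq n)) * (101 / 100) := by
    rw [abs_mul, abs_of_nonneg h2]
    exact mul_le_mul h1 h3 (abs_nonneg _) (h2.trans h1)
  have h7 : Real.exp (-Lam (n + 1)) ≤ Real.exp (-Lam n / 130) := by
    apply Real.exp_le_exp.mpr
    have := Lam_ge n
    have := Lam_succ' n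
    have hn : (0 : ℝ) ≤ n := Nat.cast_nonneg n
    linarith
  have h8 : 32 * kap n * Real.exp (-Lam (n + 1)) ≤ 32 * kap n * Real.exp (-Lam n / 130) := by
    gcongr
  have h9 := abs_le.mp h6
  have h10 : 0 ≤ kap n * (epsv * qq n) := by
        have := epsv_pos; have := qq_pos n; positivity
  have h12 : 0 ≤ kap n * Real.exp (-Lam n / 130) := by positivity
  have h13 : kap n * del n = 33 * (kap n * (epsv * qq n))
      + 100 * (kap n * Real.exp (-Lam n / 130)) := by
    unfold del; ring
  rw [h13, abs_le]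
  constructor <;> nlinarith [h9.1, h9.2]

/-- the initial value of `a (n + 1)` -/
theorem Win.y0 (C : Chain a b e f γ K) (W : Win a b n θ te) : |a (n + 1) θ| ≤ tau n := by
  have h := (C.tail n ⟨W.I.θ0, W.I.θT⟩ W.I.bel 0 (t := θ) ⟨W.I.θ0, le_rfl⟩).1
  simpa using h

theorem tau_le_eta (n : ℕ) : tau n ≤ eta n / 100 := by
  refine (tau_le n).trans ?_
  exact exp_le_eta' n (by norm_num)

/-- the lower bound for `a (n + 1)` -/
theorem Win.ylow (C : Chain a b e f γ K) (W : Win a b n θ te) : ∀ t ∈ Icc θ te,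
    -bet n ≤ a (n + 1) t := by
  have T := W.tri C
  set c : ℝ := 32 * kap n * Real.exp (-Lam (n + 1)) with hc
  have hk := kap_pos n
  have hc0 : 0 ≤ c := by positivity
  have h := nonneg_of_deriv (f := fun t => a (n + 1) t + (tau n + c * (t - θ)))
    (f' := fun t => kap n * b n t ^ 2 + (-(e (n + 1)) * a (n + 1) t
      - kap (n + 1) * b (n + 1) t ^ 2) + c) (a := θ) (b := te) (R := 0)
    (fun t ht => by
      have h1 : HasDerivWithinAt (fun t : ℝ => tau n + c * (t - θ)) c (Icc θ te) t := by
        have := (((hasDerivAt_id t).sub_const θ).const_mul c).const_add (tau n)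
        simpa using this.hasDerivWithinAt
      exact (T.dy t ht).add h1)
    (fun t ht h0 => by
      have h1 := W.psi C (t := t) ⟨W.I.θ0.trans ht.1, ht.2⟩
      have h2 := C.e0 (n + 1)
      have h3 := tau_pos n
      have h4 : 0 ≤ c * (t - θ) := mul_nonneg hc0 (by linarith [ht.1])
      have h5 : a (n + 1) t ≤ 0 := by linarith
      have h6 : 0 ≤ kap n * b n t ^ 2 := by positivity
      nlinarith [h1.2])
    le_rfl (by
      have := abs_le.mp (W.y0 C)
      simp only [sub_self, mul_zero, add_zero]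
      linarith [this.1])
  intro t ht
  have h1 := h t ht
  have hn : (0 : ℝ) ≤ n := Nat.cast_nonneg n
  have h2 : c * (t - θ) ≤ Real.exp (-(1 / 2) * Lam n) / 2 := by
    have h3 : kap n * (t - θ) ≤ DD n := by
      refine le_trans ?_ W.win
      gcongr
      exact ht.2
    have h4 := DD_le n
    have h5 : (32 : ℝ) ≤ Real.exp 4 := by
      have := exp_ge 4
      push_cast at this
      refine le_trans ?_ this
      norm_num
    have h6 : Real.exp (-1) ≤ 1 / 2 := by
      rw [Real.exp_neg, ← one_div]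
      apply one_div_le_one_div_of_le (by norm_num)
      have := Real.add_one_le_exp (1 : ℝ)
      linarith
    have h7 := Lam_succ' n
    have h8 := Lam_ge' n
    have hN := one_le_NN
    calc c * (t - θ) = 32 * Real.exp (-Lam (n + 1)) * (kap n * (t - θ)) := by rw [hc]; ring
      _ ≤ Real.exp 4 * Real.exp (-Lam (n + 1)) * Real.exp (13 + NN + 2 * n) := by
          have h9 : kap n * (t - θ) ≤ Real.exp (13 + NN + 2 * n) := h3.trans h4
          have h10 : 0 ≤ kap n * (t - θ) := mul_nonneg hk.le (by linarith [ht.1])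
          gcongr
      _ = Real.exp (4 + -Lam (n + 1) + (13 + NN + 2 * n)) := by
          rw [Real.exp_add (4 + -Lam (n + 1)), Real.exp_add 4]
      _ ≤ Real.exp (-(1 / 2) * Lam n + -1) := by
          apply Real.exp_le_exp.mpr
          linarith
      _ = Real.exp (-(1 / 2) * Lam n) * Real.exp (-1) := by rw [Real.exp_add]
      _ ≤ Real.exp (-(1 / 2) * Lam n) * (1 / 2) := by gcongr
      _ = _ := by ring
  have h3 : tau n ≤ Real.exp (-(1 / 2) * Lam n) / 2 := by
    refine (tau_le n).trans ?_
    have h6 : Real.exp (-1) ≤ 1 / 2 := by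
      rw [Real.exp_neg, ← one_div]
      apply one_div_le_one_div_of_le (by norm_num)
      have := Real.add_one_le_exp (1 : ℝ)
      linarith
    have h8 := Lam_ge n
    calc Real.exp (-(9 / 10) * Lam n) ≤ Real.exp (-(1 / 2) * Lam n + -1) := by
          apply Real.exp_le_exp.mpr
          linarith
      _ = Real.exp (-(1 / 2) * Lam n) * Real.exp (-1) := by rw [Real.exp_add]
      _ ≤ Real.exp (-(1 / 2) * Lam n) * (1 / 2) := by gcongr
      _ = _ := by ring
  have h4 : bet n = Real.exp (-(1 / 2) * Lam n) := by unfold bet; ring_nf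
  rw [h4]
  linarith

theorem bet_DD (n : ℕ) : bet n * DD n ≤ eta n / 20 := by
  have h4 : bet n = Real.exp (-(1 / 2) * Lam n) := by unfold bet; ring_nf
  have h1 := exp_le_eta n (c := 1 / 2) (by norm_num)
  have h2 := DD_le n
  have h3 := eta_pos n
  rw [h4]
  calc Real.exp (-(1 / 2) * Lam n) * DD n
      ≤ Real.exp (-(1 / 2) * Lam n) * Real.exp (13 + NN + 2 * n) := by gcongr
    _ ≤ eta n / 100 := h1
    _ ≤ _ := by linarith

theorem A_ge (I : Inv a b n θ) : 1 - 1 / 10 ^ 10 ≤ a n θ := by
  refine le_trans ?_ I.low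
  have h : (0 : ℝ) < rr ^ n := pow_pos rr_pos n
  nlinarith

theorem s_sq (I : Inv a b n θ) : b n θ ^ 2 ≤ eta n / 100 := by
  rw [I.hit, bet_sq]
  have := exp_le_eta' n (c := 1) (by norm_num)
  simpa using this

theorem feed_nonneg (b : ℕ → ℝ → ℝ) (n : ℕ) (t : ℝ) : 0 ≤ feed b n t := by
  cases n with
  | zero => exact le_rfl
  | succ m =>
    have := kap_pos m
    unfold feed
    positivity

/-- The preliminary conclusions. -/
theorem Win.pre (C : Chain a b e f γ K) (W : Win a b n θ te) :
    (∀ t ∈ Icc θ te, -(eta n / 2) ≤ a n t) ∧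
    (∀ t ∈ Icc θ te, a n θ ^ 2 - eta n - eta n * DD n / 30
      ≤ a n t ^ 2 + b n t ^ 2 + a (n + 1) t ^ 2) := by
  have hA := A_ge W.I
  have hk := kap_pos n
  have h := (W.tri C).pre (A := a n θ) (η := eta n) (δ := del n) (D := DD n) (μ := bet n) W.win
    (by linarith) (eta_pos n) (by have := eta_small n; linarith) (del_pos n).le (del_DD n)
    (bet_pos n).le (bet_DD n)
    (fun t ht => by
      have h1 := visc_le n (C.e1 n)
      have h2 := C.e0 n
      have h3 := abs_le.mp (C.ba n (W.mem ht))
      have h4 := feed_nonneg b n t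
      have h10 : 0 ≤ kap n * (epsv * qq n) := by
        have := epsv_pos; have := qq_pos n; positivity
      have h12 : 0 ≤ kap n * Real.exp (-Lam n / 130) := by positivity
      have h13 : kap n * del n = 33 * (kap n * (epsv * qq n))
          + 100 * (kap n * Real.exp (-Lam n / 130)) := by
        unfold del; ring
      rw [h13]
      nlinarith [h3.1, h3.2])
    (fun t ht => by
      have h1 := visc_le n (C.e1 n)
      have h2 := C.e0 n
      have h3 := abs_le.mp (C.ba n (W.mem ht))
      have h4 : feed b n t ≤ kap n / 30 := by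
        cases n with
        | zero =>
          show (0 : ℝ) ≤ _
          positivity
        | succ m =>
          have h5 := C.b_nonneg m t (W.mem ht)
          have h6 := (le_abs_self _).trans (C.bb m (W.mem ht))
          have h7 := kap_succ m
          have h8 := kap_pos m
          have h9 : b m t ^ 2 ≤ (101 / 100) ^ 2 := by gcongr
          show kap m * b m t ^ 2 ≤ _
          rw [h7]
          nlinarith
      have h10 : 0 ≤ kap n * (epsv * qq n) := by
        have := epsv_pos; have := qq_pos n; positivity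
      have h12 : 0 ≤ kap n * Real.exp (-Lam n / 130) := by positivity
      have h13 : kap n * del n = 33 * (kap n * (epsv * qq n))
          + 100 * (kap n * Real.exp (-Lam n / 130)) := by
        unfold del; ring
      rw [h13]
      nlinarith [h3.1, h3.2])
    (W.b2 C) (W.b3 C) rfl ((W.y0 C).trans (tau_le_eta n)) (s_sq W.I) (W.ylow C)
  exact ⟨h.2.2.1, h.2.2.2⟩

/-- The feed is super small. -/
theorem Win.feed (C : Chain a b e f γ K) (W : Win a b n θ te) : ∀ t ∈ Icc θ te,
    feed b n t ≤ kap n * Real.exp (-Lam n / 130) := by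
  intro t ht
  cases n with
  | zero =>
    show (0 : ℝ) ≤ _
    have := kap_pos 0
    positivity
  | succ m =>
    obtain ⟨p1, p2⟩ := W.pre C
    have hkm := kap_pos m
    have hA := A_ge W.I
    have hA2 := (abs_le.mp (C.ba (m + 1) (W.mem ⟨le_rfl, W.le⟩))).2
    have hη := eta_small (m + 1)
    have hη0 := eta_pos (m + 1)
    have hηD := eta_DD (m + 1)
    have ham : ∀ u ∈ Icc θ te, a m u ≤ 2 / 1000 := by
      intro u hu
      have h1 := C.en m u (W.mem hu)
      have h2 := p2 u hu
      have h3 : a m u ^ 2 ≤ (2 / 1000) ^ 2 := by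
        have h4 : a (m + 1 + 1) u = a (m + 2) u := rfl
        rw [h4] at h2
        nlinarith [sq_nonneg (b m u)]
      exact (le_abs_self _).trans (abs_le_of_sq_le_sq h3 (by norm_num))
    have hb := gron_up (f := b m) (a := θ) (b := t) (c := 3 / 1000 * kap m) (Γ := 16 * gg m)
      ht.1 (by positivity) (by have := gg_pos m; positivity)
      (deriv_mono (C.db m) W.I.θ0 (ht.2.trans W.leT)) (fun u hu => by
        have hu' : u ∈ Icc θ te := ⟨hu.1, hu.2.trans ht.2⟩
        have h1 := ham u hu'
        have h2 := p1 u hu'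
        have h3 := C.b_nonneg m u (W.mem hu')
        have h4 := C.g1 m u (W.mem hu')
        have h5 := C.f0 m
        have h6 : a m u - a (m + 1) u ≤ 3 / 1000 := by linarith
        have h7 : 0 ≤ kap m * b m u := by positivity
        nlinarith [mul_nonneg h5 h3])
    have h1 : 3 / 1000 * kap m * (t - θ) ≤ 3 / 16000 * Lam (m + 1) := by
      have h2 := W.win
      have h3 : kap (m + 1) * (t - θ) ≤ DD (m + 1) := by
        refine le_trans ?_ h2
        have := kap_pos (m + 1)
        gcongr
        exact ht.2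
      rw [kap_succ] at h3
      unfold DD at h3
      linarith
    have h2 := W.I.prev m rfl
    have h3 : 16 * gg m * (t - θ) ≤ Real.exp (-(1 / 240) * Lam (m + 1)) := by
      have h4 : t - θ ≤ TT := by
        have := W.I.θ0
        have := ht.2.trans W.leT
        linarith
      have h5 := sixteen_gg_TT m
      have h6 := gg_pos m
      have h7 := Lam_succ m
      have h8 := Lam_ge' m
      have hm : (0 : ℝ) ≤ m := Nat.cast_nonneg m
      have hN := one_le_NN
      calc 16 * gg m * (t - θ) ≤ 16 * gg m * TT := by gcongr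
        _ ≤ Real.exp (16 + NN - Lam m) := h5
        _ ≤ _ := by
            apply Real.exp_le_exp.mpr
            linarith
    have h8 := Lam_ge (m + 1)
    push_cast at h8
    have hm : (0 : ℝ) ≤ m := Nat.cast_nonneg m
    have hfin : b m t ≤ Real.exp (-(1 / 260) * Lam (m + 1)) := by
      calc b m t ≤ Real.exp (3 / 1000 * kap m * (t - θ))
            * (b m θ + 16 * gg m * (t - θ)) := hb
        _ ≤ Real.exp (3 / 16000 * Lam (m + 1)) * (Real.exp (-(1 / 240) * Lam (m + 1))
            + Real.exp (-(1 / 240) * Lam (m + 1))) := by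
            have h9 := C.b_nonneg m θ (W.mem ⟨le_rfl, W.le⟩)
            have h10 : 0 ≤ 16 * gg m * (t - θ) := by
              have := gg_pos m
              have : 0 ≤ t - θ := by linarith [ht.1]
              positivity
            gcongr
        _ = Real.exp (3 / 16000 * Lam (m + 1)) * (2 * Real.exp (-(1 / 240) * Lam (m + 1))) := by
            ring
        _ ≤ Real.exp (3 / 16000 * Lam (m + 1)) * (Real.exp 1
            * Real.exp (-(1 / 240) * Lam (m + 1))) := by
            have := e27
            gcongr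
            linarith
        _ = Real.exp (3 / 16000 * Lam (m + 1) + (1 + -(1 / 240) * Lam (m + 1))) := by
            rw [Real.exp_add, Real.exp_add 1]
        _ ≤ _ := by
            apply Real.exp_le_exp.mpr
            linarith
    show kap m * b m t ^ 2 ≤ kap (m + 1) * Real.exp (-Lam (m + 1) / 130)
    have h9 := C.b_nonneg m t (W.mem ht)
    have h10 : Real.exp (-Lam (m + 1) / 130) = Real.exp (-(1 / 260) * Lam (m + 1)) ^ 2 := by
      rw [← Real.exp_nat_mul]
      push_cast
      ring_nf
    rw [h10, kap_succ]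
    have h11 : b m t ^ 2 ≤ Real.exp (-(1 / 260) * Lam (m + 1)) ^ 2 := by gcongr
    have h12 : 0 ≤ b m t ^ 2 := by positivity
    nlinarith

/-- The main conclusions. -/
theorem Win.main (C : Chain a b e f γ K) (W : Win a b n θ te) :
    (∀ t ∈ Icc θ te, |a n t + a (n + 1) t - a n θ| ≤ eta n / 5) ∧
    (∀ t ∈ Icc θ te, |b n t ^ 2 - 2 * a n t * a (n + 1) t| ≤ eta n / 2) := by
  have hk := kap_pos n
  exact (W.tri C).main (A := a n θ) (η := eta n) (δ := del n) (D := DD n) W.win
    (del_pos n).le (del_DD n)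
    (fun t ht => by
      have h1 := visc_le n (C.e1 n)
      have h2 := C.e0 n
      have h3 := abs_le.mp (C.ba n (W.mem ht))
      have h4 := feed_nonneg b n t
      have h5 := W.feed C t ht
      have h10 : 0 ≤ kap n * (epsv * qq n) := by
        have := epsv_pos; have := qq_pos n; positivity
      have h12 : 0 ≤ kap n * Real.exp (-Lam n / 130) := by positivity
      have h13 : kap n * del n = 33 * (kap n * (epsv * qq n))
          + 100 * (kap n * Real.exp (-Lam n / 130)) := by
        unfold del; ring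
      rw [h13, abs_le]
      constructor <;> nlinarith [h3.1, h3.2])
    (W.b2 C) (W.b3 C) rfl ((W.y0 C).trans (tau_le_eta n)) (s_sq W.I)

end window

end Pool.Agent.T2H10.LO.Chn
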